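import Pool.Agent.H24.PLN.Slp
import Pool.Agent.H1.PLN.Stm

/-!
# The boxes and the velocities of the labels of a member

`ezs`: the velocities are bounded in natural units. `boxs`: the box of the window `w1` contains the
relative box of size `lam`, if `lam` is large compared with the numbers. `affs`: the labels of a
coordinate over the active coordinate are affine.
-/

set_option autoImplicit false

namespace Pool.PLA

open Finset Real MvPolynomial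
open Pool.Agent.H49.Ent Pool.Agent.H32.Dense Pool.STK Pool.KA Pool.KSAT Pool.K2S Pool.PB Pool.STAT
  Pool.GEN Pool.M3F Pool.S6C
open Pool.FLF (Fam.sub)
open Pool.PB.Trl (rt rt_mem t_rt)
open Pool.PLN (Nums Dat ex af pA EzS BoxS AffS)

variable {m J : ℕ}

/-- Large events and conditional probabilities. -/
theorem pe_good {F : Fam m J} {A B E : F.Ω → Prop} {η : ℝ} (hA : 0 < Pe F.p A)
    (hP : (1 - η) * Pe F.p A ≤ Pe F.p B) (hBA : Sub B A) (h : ∀ ω, B ω → ¬ E ω) :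
    Pe (pA F A) E ≤ η := by
  classical
  have h1 := Pe_parts (p := F.p) (B := A) (B' := B) hBA
  have h2 : Pe F.p (fun ω => A ω ∧ E ω) ≤ Pe F.p (fun ω => A ω ∧ ¬ B ω) :=
    Pe_mono F.isLaw fun ω hω => ⟨hω.1, fun h' => h ω h' hω.2⟩
  unfold pA
  rw [Pe_cond, div_le_iff₀ hA]
  linarith

/-! ### Numbers -/

theorem ex_neg (b : ℝ) (J : ℕ) : ex (-b) J = Real.exp (b * Real.log 2 * J) := by
  unfold ex
  congr 1
  ring

theorem two_pow_exp (n : ℕ) : (2 : ℝ) ^ n = Real.exp (n * Real.log 2) := by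
  rw [Real.exp_nat_mul, Real.exp_log (by norm_num)]

/-- A quotient of powers times a small number. -/
theorem quo_le {a b : ℕ} {x y : ℝ} (h : ((a : ℝ) - b) * Real.log 2 - x ≤ -y) :
    (2 : ℝ) ^ a / 2 ^ b * Real.exp (-x) ≤ Real.exp (-y) := by
  rw [two_pow_exp, two_pow_exp, ← Real.exp_sub, ← Real.exp_add]
  refine Real.exp_le_exp.2 ?_
  linarith

/-- The first coordinate of a point of the relative box. -/
theorem num_by {x p0 p1 T Δ d η w lam H ε V G : ℝ} (hw : 0 < w) (hG : 0 < G) (hV : 0 < V)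
    (hx : |x - (p0 + p1 * T)| ≤ 2 / G) (hd : |d - p1| ≤ 4 * H * V / G) (hΔ : |Δ| ≤ lam / w)
    (hη : |η| ≤ lam) (h1 : V / w * lam ≤ ε) (h2 : G / w * lam ≤ ε) (hH : 1 ≤ H)
    (hε : H * ε ≤ 1 / 8) :
    |x + Δ * d + η / w - (p0 + p1 * (T + Δ))| ≤ 4 / G := by
  have e1 : x + Δ * d + η / w - (p0 + p1 * (T + Δ)) = (x - (p0 + p1 * T)) +
    (Δ * (d - p1) + η / w) := by ring
  rw [e1]
  have hlam : 0 ≤ lam := (abs_nonneg _).trans hη
  have h3 : |Δ * (d - p1)| ≤ 4 * (H * ε) / G := by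
    rw [abs_mul]
    calc |Δ| * |d - p1| ≤ lam / w * (4 * H * V / G) :=
          mul_le_mul hΔ hd (abs_nonneg _) (div_nonneg hlam hw.le)
      _ = 4 * (H * (V / w * lam)) / G := by ring
      _ ≤ 4 * (H * ε) / G := by
          refine div_le_div_of_nonneg_right ?_ hG.le
          exact mul_le_mul_of_nonneg_left (mul_le_mul_of_nonneg_left h1 (by linarith))
            (by norm_num)
  have h4 : |η / w| ≤ ε / G := by
    rw [abs_div, abs_of_pos hw]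
    calc |η| / w ≤ lam / w := div_le_div_of_nonneg_right hη hw.le
      _ = (G / w * lam) / G := by field_simp
      _ ≤ ε / G := div_le_div_of_nonneg_right h2 hG.le
  have hε0 : 0 ≤ ε := le_trans (by positivity) h1
  have h5 : ε ≤ H * ε := le_mul_of_one_le_left hε0 hH
  refine (abs_add_le _ _).trans ((add_le_add hx ((abs_add_le _ _).trans (add_le_add h3 h4))).trans
    ?_)
  rw [← add_div, ← add_div]
  refine div_le_div_of_nonneg_right ?_ hG.le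
  linarith

/-- The second coordinate of a point of the relative box. -/
theorem num_bz {ψ Δ s1 e η ζ w lam H ε V G₀ G : ℝ} (hw : 0 < w) (hG : 0 < G) (hG0 : 0 < G₀)
    (hV : 0 < V) (hψ : |ψ| ≤ (1 + H * ε) / G) (hs : |s1| ≤ 6 * H ^ 2 * V / G)
    (he : |e| ≤ 2 * H * (2 * w * H / G₀ + 6 * H ^ 2 * V / G)) (hΔ : |Δ| ≤ lam / w)
    (hη : |η| ≤ lam) (hζ : |ζ| ≤ lam) (h1 : V / w * lam ≤ ε) (h2 : G / G₀ * lam ≤ ε)
    (hH : 1 ≤ H) (hε : H ^ 3 * ε ≤ 1 / 8) :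
    |ψ + Δ * s1 + e * (η / w) + ζ / G₀| ≤ 4 / G := by
  have hlam : 0 ≤ lam := (abs_nonneg _).trans hη
  have hH0 : 0 ≤ H := by linarith
  have hε0 : 0 ≤ ε := le_trans (by positivity) h1
  have hH2 : H ^ 2 * ε ≤ H ^ 3 * ε := mul_le_mul_of_nonneg_right
    (pow_le_pow_right₀ hH (by norm_num)) hε0
  have hH1 : H * ε ≤ H ^ 3 * ε := by
    refine mul_le_mul_of_nonneg_right ?_ hε0
    calc H = H ^ 1 := (pow_one H).symm
      _ ≤ H ^ 3 := pow_le_pow_right₀ hH (by norm_num)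
  have hH0' : ε ≤ H ^ 3 * ε := le_mul_of_one_le_left hε0 (one_le_pow₀ hH)
  have h3 : |Δ * s1| ≤ 6 * (H ^ 2 * ε) / G := by
    rw [abs_mul]
    calc |Δ| * |s1| ≤ lam / w * (6 * H ^ 2 * V / G) :=
          mul_le_mul hΔ hs (abs_nonneg _) (div_nonneg hlam hw.le)
      _ = 6 * (H ^ 2 * (V / w * lam)) / G := by ring
      _ ≤ 6 * (H ^ 2 * ε) / G := by
          refine div_le_div_of_nonneg_right ?_ hG.le
          exact mul_le_mul_of_nonneg_left (mul_le_mul_of_nonneg_left h1 (by positivity))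
            (by norm_num)
  have h4 : |e * (η / w)| ≤ (4 * (H ^ 2 * ε) + 12 * (H ^ 3 * ε)) / G := by
    rw [abs_mul, abs_div, abs_of_pos hw]
    calc |e| * (|η| / w) ≤ 2 * H * (2 * w * H / G₀ + 6 * H ^ 2 * V / G) * (lam / w) :=
          mul_le_mul he (div_le_div_of_nonneg_right hη hw.le) (by positivity) (by positivity)
      _ = (4 * (H ^ 2 * (G / G₀ * lam)) + 12 * (H ^ 3 * (V / w * lam))) / G := by
          field_simp
          ring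
      _ ≤ (4 * (H ^ 2 * ε) + 12 * (H ^ 3 * ε)) / G := by
          refine div_le_div_of_nonneg_right ?_ hG.le
          exact add_le_add (mul_le_mul_of_nonneg_left (mul_le_mul_of_nonneg_left h2
            (by positivity)) (by norm_num)) (mul_le_mul_of_nonneg_left
            (mul_le_mul_of_nonneg_left h1 (by positivity)) (by norm_num))
  have h5 : |ζ / G₀| ≤ ε / G := by
    rw [abs_div, abs_of_pos hG0]
    calc |ζ| / G₀ ≤ lam / G₀ := div_le_div_of_nonneg_right hζ hG0.le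
      _ = (G / G₀ * lam) / G := by field_simp
      _ ≤ ε / G := div_le_div_of_nonneg_right h2 hG.le
  refine (abs_add_le _ _).trans ((add_le_add ((abs_add_le _ _).trans (add_le_add
    ((abs_add_le _ _).trans (add_le_add hψ h3)) h4)) h5).trans ?_)
  rw [← add_div, ← add_div, ← add_div]
  refine div_le_div_of_nonneg_right ?_ hG.le
  linarith

/-! ### The velocities -/

/-- **The velocities** are bounded in natural units. -/
theorem ezs {S : PCl m}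
    (hpos : ∀ (τ : ℝ) (J : ℕ) (F : Fam m J) (A : F.Ω → Prop), S.St τ J F A → 0 < Pe F.p A)
    (hTm : ∀ ε : ℝ, 0 < ε → Bas S (fun J F A => ∀ h : 0 < Pe F.p A,
      (Fam.sub F A h).Tm (ε * J)))
    {c : ℕ → Fin m} {N : Nums} {K : ℕ} (h0 : 0 ≤ N.w0) (h1 : N.w0 < 1) {b c₀ : ℝ} (hb : 0 < b)
    (hc : 0 < c₀) : EzS S c N K b c₀ := by
  have hl2 : 0 < Real.log 2 := Real.log_pos one_lt_two
  have hs := slope_cls hpos hTm h0 h1 (φ := b * Real.log 2 / 2) (η := c₀) (by positivity) hc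
    (c 1) (c 0)
  obtain ⟨J₁, hJ₁⟩ := big_ex (Real.log 2) (s := b * Real.log 2 / 2) (by positivity)
  refine ⟨1, one_pos, (hs.and (⟨1, one_pos, 0, fun J _ F A hA => hpos 1 J F A hA⟩ :
    Bas S (fun _ F A => 0 < Pe F.p A))).mono J₁ ?_⟩
  rintro J hJ F A ⟨h, hA⟩ d
  have f1 := hJ₁ J hJ
  obtain ⟨B, hBA, hPB, hB⟩ := h d.V0 d.zz d.zz' d.a (1 / 2 ^ d.G0) (by positivity) d.lab0.cls
    fun ω hω => d.pos0 ω hω
  refine pe_good hA hPB hBA fun ω hω hcon => hcon ?_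
  have h2 := hB ω hω
  obtain ⟨W, hW⟩ : ∃ W, W = ⌊N.w0 * J⌋₊ := ⟨_, rfl⟩
  rw [← hW] at h2
  have pW : (0 : ℝ) < 2 ^ W := by positivity
  have pG : (0 : ℝ) < 2 ^ d.G0 := by positivity
  have e1 : d.Ez ω = 2 ^ d.G0 / 2 ^ W * (F.d ω (c 1) - d.a (d.zz (ptr F J ω)) 1 -
    d.a (d.zz (ptr F J ω)) 2 * F.d ω (c 0)) := by
    rw [hW]
    rfl
  rw [e1, abs_mul, abs_of_pos (by positivity : (0 : ℝ) < 2 ^ d.G0 / 2 ^ W), ex_neg]
  calc 2 ^ d.G0 / 2 ^ W * |F.d ω (c 1) - d.a (d.zz (ptr F J ω)) 1 -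
      d.a (d.zz (ptr F J ω)) 2 * F.d ω (c 0)| ≤ 2 ^ d.G0 / 2 ^ W *
        (2 ^ W * (2 * Real.exp (b * Real.log 2 / 2 * J) * (1 / 2 ^ d.G0))) :=
        mul_le_mul_of_nonneg_left h2 (by positivity)
    _ = 2 * Real.exp (b * Real.log 2 / 2 * J) := by field_simp
    _ ≤ Real.exp (b * Real.log 2 / 2 * J) * Real.exp (b * Real.log 2 / 2 * J) := by
        refine mul_le_mul_of_nonneg_right ?_ (Real.exp_pos _).le
        have := Real.exp_le_exp.2 f1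
        rwa [Real.exp_log (by norm_num)] at this
    _ = Real.exp (b * Real.log 2 * J) := by
        rw [← Real.exp_add]
        congr 1
        ring

/-! ### The boxes -/

/-- **The box at a sample.** -/
theorem box_at {F : Fam m J} {c : ℕ → Fin m} {A : F.Ω → Prop} {N : Nums} {φ : ℝ} {K : ℕ}
    (d : Dat N φ K F c A) {Ay Az : d.V → Fin 3 → ℝ} {W₀ W₁ : ℕ} (hW₀ : W₀ = ⌊N.w0 * J⌋₊)
    (hW₁ : W₁ = ⌊N.w1 * J⌋₊) {lam H ε : ℝ}
    (hAy : ∀ v b, eval b (d.P v 1) = Ay v 0 + Ay v 1 * b 0)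
    (hAz : ∀ v b, eval b (d.P v 2) = Az v 0 + Az v 1 * b 0 + Az v 2 * b 1)
    (hW1 : W₁ ≤ J) (h0J : d.g' 0 ≤ J) (hH : 1 ≤ H) (hε3 : H ^ 3 * ε ≤ 1 / 8)
    (n1 : (2 : ℝ) ^ W₁ / 2 ^ W₀ * lam ≤ ε) (n2 : (2 : ℝ) ^ d.g' 0 / 2 ^ W₀ * lam ≤ ε)
    (n3 : (2 : ℝ) ^ d.g' 1 / 2 ^ d.G0 * lam ≤ ε) (n4 : (1 + d.L) * (2 ^ d.g' 1 / 2 ^ J) ≤ H * ε)
    {ω : F.Ω} (hω : A ω)
    (sy : |F.d ω (c 0) - Ay (d.κ ω) 1| ≤ 4 * H * 2 ^ W₁ / 2 ^ d.g' 0)
    (s1 : |F.d ω (c 1) - Az (d.κ ω) 1 - Az (d.κ ω) 2 * F.d ω (c 0)| ≤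
      6 * H ^ 2 * 2 ^ W₁ / 2 ^ d.g' 1)
    (e : |d.pl ω 2 - Az (d.κ ω) 2| ≤
      2 * H * (2 * 2 ^ W₀ * H / 2 ^ d.G0 + 6 * H ^ 2 * 2 ^ W₁ / 2 ^ d.g' 1)) :
    d.Box lam ω := by
  intro s η ζ hs hη hζ
  have hlab := d.lab
  rw [← hW₁] at hlab ⊢
  have pw : (0 : ℝ) < 2 ^ W₀ := by positivity
  have pV : (0 : ℝ) < 2 ^ W₁ := by positivity
  have pG : (0 : ℝ) < 2 ^ d.g' 0 := by positivity
  have pG1 : (0 : ℝ) < 2 ^ d.g' 1 := by positivity
  have pG0 : (0 : ℝ) < 2 ^ d.G0 := by positivity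
  have hlam : 0 ≤ lam := (abs_nonneg _).trans hη
  have hε0 : 0 ≤ ε := le_trans (by positivity) n1
  have hε1 : H * ε ≤ 1 / 8 := by
    refine le_trans (mul_le_mul_of_nonneg_right ?_ hε0) hε3
    calc H = H ^ 1 := (pow_one H).symm
      _ ≤ H ^ 3 := pow_le_pow_right₀ hH (by norm_num)
  have hε2 : ε ≤ 1 / 8 := (le_mul_of_one_le_left hε0 hH).trans hε1
  obtain ⟨Δ, hΔ⟩ : ∃ Δ : ℝ, Δ = (s - d.s ω) / 2 ^ W₀ := ⟨_, rfl⟩
  have hΔ1 : |Δ| ≤ lam / 2 ^ W₀ := by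
    rw [hΔ, abs_div, abs_of_pos pw]
    exact div_le_div_of_nonneg_right hs pw.le
  have ht : ((F.T1 W₀ ω : ℝ) + s) / 2 ^ W₀ = F.t ω + Δ := by
    have e1 : d.s ω = 2 ^ W₀ * F.t ω - F.T1 W₀ ω := by
      rw [hW₀]
      rfl
    rw [hΔ, e1]
    field_simp
    ring
  obtain ⟨b, hb⟩ : ∃ b, b = d.rel ω s η ζ := ⟨_, rfl⟩
  have b0 : b 0 = F.t ω + Δ := by
    rw [hb, ← ht, hW₀]
    rfl
  have b1 : b 1 = F.x ω (c 0) + Δ * F.d ω (c 0) + η / 2 ^ W₀ := by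
    have e1 : b 1 = F.u ω (c 0) + ((F.T1 W₀ ω : ℝ) + s) / 2 ^ W₀ * F.d ω (c 0) +
        η / 2 ^ W₀ := by
      rw [hb, hW₀]
      rfl
    rw [e1, ht]
    unfold Fam.x
    ring
  have b2 : b 2 = F.x ω (c 1) + Δ * F.d ω (c 1) + d.pl ω 2 * η / 2 ^ W₀ + ζ / 2 ^ d.G0 := by
    have e1 : b 2 = F.u ω (c 1) + ((F.T1 W₀ ω : ℝ) + s) / 2 ^ W₀ * F.d ω (c 1) +
        d.pl ω 2 * η / 2 ^ W₀ + ζ / 2 ^ d.G0 := by
      rw [hb, hW₀]
      rfl
    rw [e1, ht]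
    unfold Fam.x
    ring
  rw [← hb]
  intro i hi
  rcases Nat.lt_or_ge i 1 with hi1 | hi1
  · have hi0 : i = 0 := by omega
    have hz : d.P (d.κ ω) 0 = C ((F.T1 W₁ ω : ℝ) / 2 ^ W₁) := hlab.zero ω hω
    rw [hi0, hz, eval_C, wid_zero, b0]
    have h2 := t_win hW1 ω
    have e1 : F.t ω + Δ - (F.T1 W₁ ω : ℝ) / 2 ^ W₁ =
        (F.t ω - (F.T1 W₁ ω : ℝ) / 2 ^ W₁) + Δ := by ring
    rw [e1]
    refine (abs_add_le _ _).trans ((add_le_add h2 hΔ1).trans ?_)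
    have e2 : lam / (2 : ℝ) ^ W₀ = (2 ^ W₁ / 2 ^ W₀ * lam) / 2 ^ W₁ := by field_simp
    rw [e2, ← add_div]
    refine div_le_div_of_nonneg_right ?_ pV.le
    linarith
  · rcases Nat.lt_or_ge i 2 with hi2 | hi2
    · have hi0 : i = 1 := by omega
      rw [hi0, hAy, wid_succ, b1, b0]
      have h2 := pos_one hlab (by norm_num) h0J hω
      have h3 : |F.x ω (c 0) - (Ay (d.κ ω) 0 + Ay (d.κ ω) 1 * F.t ω)| ≤ 2 / 2 ^ d.g' 0 := by
        have e1 : eval (p2 (F.t ω) 0) (d.P (d.z (ptr F J ω)) 1) =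
            Ay (d.κ ω) 0 + Ay (d.κ ω) 1 * F.t ω := by
          rw [hAy, p2_zero]
          rfl
        rw [e1] at h2
        exact h2
      exact num_by pw pG pV h3 sy hΔ1 hη n1 n2 hH hε1
    · have hi0 : i = 2 := by omega
      rw [hi0, hAz, wid_succ, b2, b1, b0]
      have h2 := pos_sc hlab (by norm_num) hW1 h0J d.L0 zero_le_one le_rfl hω
        (e := 1 / 2 ^ d.g' 1) (by
          rw [one_mul]
          exact hlab.pos ω hω 1 (by norm_num))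
      have e1 : eval (p2 (F.t ω) (F.x ω (c 0))) (d.P (d.z (ptr F J ω)) 2) =
          Az (d.κ ω) 0 + Az (d.κ ω) 1 * F.t ω + Az (d.κ ω) 2 * F.x ω (c 0) := by
        rw [hAz, p2_zero, p2_one]
        rfl
      rw [e1, one_mul] at h2
      have h3 : |F.x ω (c 1) - (Az (d.κ ω) 0 + Az (d.κ ω) 1 * F.t ω +
          Az (d.κ ω) 2 * F.x ω (c 0))| ≤ (1 + H * ε) / 2 ^ d.g' 1 := by
        refine h2.trans ?_
        have e2 : (1 + d.L) / (2 : ℝ) ^ J =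
            ((1 + d.L) * (2 ^ d.g' 1 / 2 ^ J)) / 2 ^ d.g' 1 := by field_simp
        rw [e2, ← add_div]
        exact div_le_div_of_nonneg_right (by linarith) pG1.le
      have h4 := num_bz (ζ := ζ) pw pG1 pG0 pV h3 s1 e hΔ1 hη hζ n1 n3 hH hε3
      have e3 : F.x ω (c 1) + Δ * F.d ω (c 1) + d.pl ω 2 * η / 2 ^ W₀ + ζ / 2 ^ d.G0 -
          (Az (d.κ ω) 0 + Az (d.κ ω) 1 * (F.t ω + Δ) +
            Az (d.κ ω) 2 * (F.x ω (c 0) + Δ * F.d ω (c 0) + η / 2 ^ W₀)) =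
          F.x ω (c 1) - (Az (d.κ ω) 0 + Az (d.κ ω) 1 * F.t ω +
          Az (d.κ ω) 2 * F.x ω (c 0)) + Δ * (F.d ω (c 1) - Az (d.κ ω) 1 -
            Az (d.κ ω) 2 * F.d ω (c 0)) + (d.pl ω 2 - Az (d.κ ω) 2) * (η / 2 ^ W₀) +
            ζ / 2 ^ d.G0 := by ring
      rw [e3]
      exact h4

end Pool.PLA
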