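import Pool.Agent.H24.PLN.Bx

/-!
# The boxes of the labels of a member: the class

`boxs`: the box of the window `w1` contains the relative box of size `lam`, if `lam` is large
compared with the numbers.
-/

set_option autoImplicit false

namespace Pool.PLA

open Finset Real MvPolynomial
open Pool.Agent.H49.Ent Pool.Agent.H32.Dense Pool.STK Pool.KA Pool.KSAT Pool.K2S Pool.PB Pool.STAT
  Pool.GEN Pool.M3F Pool.S6C
open Pool.FLF (Fam.sub)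
open Pool.PB.Trl (rt rt_mem t_rt)
open Pool.PLN (Nums Dat ex af pA EzS BoxS AffS)

variable {m J : ℕ}

/-- The numbers of the boxes. -/
structure BNum (N : Nums) (lam μ q : ℝ) (J W₀ W₁ g0 g1 G : ℕ) (L : ℝ) : Prop where
  n1 : (2 : ℝ) ^ W₁ / 2 ^ W₀ * ex lam J ≤ Real.exp (-(μ / 2 * J))
  n2 : (2 : ℝ) ^ g0 / 2 ^ W₀ * ex lam J ≤ Real.exp (-(μ / 2 * J))
  n3 : (2 : ℝ) ^ g1 / 2 ^ G * ex lam J ≤ Real.exp (-(μ / 2 * J))
  n4 : (1 + L) * (2 ^ g1 / 2 ^ J) ≤ Real.exp (q * J) * Real.exp (-(μ / 2 * J))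
  hH : 1 ≤ Real.exp (q * J)
  hL : 1 + L ≤ Real.exp (q * J)
  he : Real.exp (q * J) ^ 3 * Real.exp (-(μ / 2 * J)) ≤ 1 / 8

theorem bnum {N : Nums} {lam μ q φ : ℝ} {J W₀ W₁ g0 g1 G : ℕ} {L : ℝ} (_hμ : 0 < μ)
    (hq : q = μ / 32) (hφ0 : 0 ≤ φ) (hφ : φ ≤ q)
    (m1 : μ ≤ (lam - (N.w1 - N.w0)) * Real.log 2)
    (m2 : μ ≤ (lam - (N.g 0 - N.w0)) * Real.log 2)
    (m3 : μ ≤ (lam - (N.g 1 - N.g0 1)) * Real.log 2) (m4 : μ ≤ (1 - N.g 1) * Real.log 2)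
    (hJ : 16 ≤ μ * J) (hW₀ : N.w0 * J - 1 ≤ W₀) (hW₁ : (W₁ : ℝ) ≤ N.w1 * J)
    (h0 : |(g0 : ℝ) - N.g 0 * J| ≤ φ * J) (h1 : |(g1 : ℝ) - N.g 1 * J| ≤ φ * J)
    (h2 : |(G : ℝ) - N.g0 1 * J| ≤ φ * J) (hL0 : 0 ≤ L) (hL : Real.log (1 + L) ≤ φ * J) :
    BNum N lam μ q J W₀ W₁ g0 g1 G L := by
  have hl0 : 0 < Real.log 2 := Real.log_pos one_lt_two
  have hl1 : Real.log 2 ≤ 1 := by
    have := Real.log_two_lt_d9
    linarith
  have hJ0 : (0 : ℝ) ≤ J := Nat.cast_nonneg J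
  obtain ⟨X, hX⟩ : ∃ X : ℝ, X = μ * J := ⟨_, rfl⟩
  obtain ⟨ℓ, hℓ⟩ : ∃ ℓ : ℝ, ℓ = Real.log 2 := ⟨_, rfl⟩
  rw [← hX] at hJ
  rw [← hℓ] at m1 m2 m3 m4 hl0 hl1
  have hφJ : φ * J ≤ X / 32 := by
    have := mul_le_mul_of_nonneg_right hφ hJ0
    rw [hq] at this
    rw [hX]
    linarith
  have hφJ0 : 0 ≤ φ * J := by positivity
  have hφℓ : φ * J * ℓ ≤ X / 32 := by
    calc φ * J * ℓ ≤ φ * J * 1 := mul_le_mul_of_nonneg_left hl1 hφJ0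
      _ ≤ X / 32 := by linarith
  have k1 := mul_le_mul_of_nonneg_right m1 hJ0
  have k2 := mul_le_mul_of_nonneg_right m2 hJ0
  have k3 := mul_le_mul_of_nonneg_right m3 hJ0
  have k4 := mul_le_mul_of_nonneg_right m4 hJ0
  rw [← hX] at k1 k2 k3 k4
  have e2 : μ / 2 * J = X / 2 := by
    rw [hX]
    ring
  have eq : q * J = X / 32 := by
    rw [hq, hX]
    ring
  have hex : ex lam J = Real.exp (-(lam * ℓ * J)) := by
    rw [hℓ]
    rfl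
  rw [abs_le] at h0 h1 h2
  have hW₀' := mul_le_mul_of_nonneg_right hW₀ hl0.le
  have hW₁' := mul_le_mul_of_nonneg_right hW₁ hl0.le
  have h0' := mul_le_mul_of_nonneg_right h0.2 hl0.le
  have h1' := mul_le_mul_of_nonneg_right h1.2 hl0.le
  have h2' := mul_le_mul_of_nonneg_right h2.1 hl0.le
  refine ⟨?_, ?_, ?_, ?_, ?_, ?_, ?_⟩
  · rw [hex, e2]
    refine quo_le ?_
    rw [← hℓ]
    nlinarith
  · rw [hex, e2]
    refine quo_le ?_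
    rw [← hℓ]
    nlinarith
  · rw [hex, e2]
    refine quo_le ?_
    rw [← hℓ]
    nlinarith
  · rw [e2, eq]
    have h3 : 1 + L ≤ Real.exp (X / 32) := by
      rw [← Real.log_le_iff_le_exp (by linarith)]
      linarith
    have h4 : (2 : ℝ) ^ g1 / 2 ^ J ≤ Real.exp (-(X / 2)) := by
      have h5 := quo_le (a := g1) (b := J) (x := 0) (y := X / 2) (by
        rw [← hℓ]
        nlinarith)
      rwa [neg_zero, Real.exp_zero, mul_one] at h5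
    exact mul_le_mul h3 h4 (by positivity) (Real.exp_pos _).le
  · rw [eq]
    exact Real.one_le_exp (by linarith)
  · rw [eq, ← Real.log_le_iff_le_exp (by linarith)]
    linarith
  · rw [e2, eq, ← Real.exp_nat_mul, ← Real.exp_add]
    have h3 : ((3 : ℕ) : ℝ) * (X / 32) + -(X / 2) ≤ -6 := by
      push_cast
      linarith
    refine (Real.exp_le_exp.2 h3).trans ?_
    rw [Real.exp_neg, inv_eq_one_div]
    refine one_div_le_one_div_of_le (by norm_num) ?_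
    have := Real.add_one_le_exp (6 : ℝ)
    have h6 : Real.exp 6 = Real.exp 3 * Real.exp 3 := by
      rw [← Real.exp_add]
      norm_num
    have h7 := Real.add_one_le_exp (3 : ℝ)
    rw [h6]
    nlinarith

/-- **The boxes**, in a class. -/
theorem boxs {S : PCl m}
    (hpos : ∀ (τ : ℝ) (J : ℕ) (F : Fam m J) (A : F.Ω → Prop), S.St τ J F A → 0 < Pe F.p A)
    (hTm : ∀ ε : ℝ, 0 < ε → Bas S (fun J F A => ∀ h : 0 < Pe F.p A,
      (Fam.sub F A h).Tm (ε * J)))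
    {Nc : ℚ → ℚ → ℝ} {al : ℝ} (hal : 0 < al) (hQ : ActQ Nc al) {c : ℕ → Fin m}
    (hact : ActB Nc S (c 0)) {N : Nums} {K : ℕ} (h0 : 0 ≤ N.w0) (h01 : N.w0 ≤ N.w1)
    (h1 : N.w1 < 1) (hg : N.g 1 < 1) {lam c₀ : ℝ} (hl0 : N.w1 - N.w0 < lam)
    (hl1 : N.g 0 - N.w0 < lam) (hl2 : N.g 1 - N.g0 1 < lam) (hc : 0 < c₀) :
    BoxS S c N K lam c₀ := by
  classical
  have hlg : 0 < Real.log 2 := Real.log_pos one_lt_two
  obtain ⟨μ, hμ⟩ : ∃ μ : ℝ, μ = min (min ((lam - (N.w1 - N.w0)) * Real.log 2)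
    ((lam - (N.g 0 - N.w0)) * Real.log 2)) (min ((lam - (N.g 1 - N.g0 1)) * Real.log 2)
      ((1 - N.g 1) * Real.log 2)) := ⟨_, rfl⟩
  have hμ0 : 0 < μ := by
    rw [hμ]
    exact lt_min (lt_min (mul_pos (by linarith) hlg) (mul_pos (by linarith) hlg))
      (lt_min (mul_pos (by linarith) hlg) (mul_pos (by linarith) hlg))
  have m1 : μ ≤ (lam - (N.w1 - N.w0)) * Real.log 2 := by
    rw [hμ]
    exact (min_le_left _ _).trans (min_le_left _ _)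
  have m2 : μ ≤ (lam - (N.g 0 - N.w0)) * Real.log 2 := by
    rw [hμ]
    exact (min_le_left _ _).trans (min_le_right _ _)
  have m3 : μ ≤ (lam - (N.g 1 - N.g0 1)) * Real.log 2 := by
    rw [hμ]
    exact (min_le_right _ _).trans (min_le_left _ _)
  have m4 : μ ≤ (1 - N.g 1) * Real.log 2 := by
    rw [hμ]
    exact (min_le_right _ _).trans (min_le_right _ _)
  obtain ⟨q, hq⟩ : ∃ q : ℝ, q = μ / 32 := ⟨_, rfl⟩
  have hq0 : 0 < q := by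
    rw [hq]
    linarith
  have hw0 : 0 ≤ N.w1 := h0.trans h01
  have hsy := slope_cls hpos hTm hw0 h1 (φ := q) (η := c₀ / 6) hq0 (by linarith) (c 0) (c 0)
  have hs1 := slope_cls hpos hTm hw0 h1 (φ := q) (η := c₀ / 6) hq0 (by linarith) (c 1) (c 0)
  have hs0 := slope_cls hpos hTm h0 (h01.trans_lt h1) (φ := q) (η := c₀ / 6) hq0 (by linarith)
    (c 1) (c 0)
  obtain ⟨ca, hca, hact1⟩ := act_dir hal hQ hact
    ⟨1, one_pos, 0, fun J _ F A hA => hpos 1 J F A hA⟩ hq0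
  have hb2 := bas_large hact1 (κ := c₀ / 4) (by linarith)
  obtain ⟨J₁, hJ₁⟩ := big_ex (16 : ℝ) hμ0
  obtain ⟨J₂, hJ₂⟩ := big_ex (Real.log (2 * (2 : ℕ)) + 1) hca
  refine ⟨q, hq0, ?_⟩
  refine (hsy.and (hs1.and (hs0.and (hb2.and (⟨1, one_pos, 0,
    fun J _ F A hA => hpos 1 J F A hA⟩ : Bas S (fun _ F A => 0 < Pe F.p A)))))).mono
      (max (max J₁ J₂) 1) ?_
  rintro J hJ F A ⟨ty, t1, t0, ha, hA⟩ d
  have f1 := hJ₁ J ((le_max_left _ _).trans ((le_max_left _ _).trans hJ))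
  have f2 := hJ₂ J ((le_max_right _ _).trans ((le_max_left _ _).trans hJ))
  have hJ0 : (0 : ℝ) ≤ J := Nat.cast_nonneg J
  obtain ⟨W₀, hW₀⟩ : ∃ W₀, W₀ = ⌊N.w0 * J⌋₊ := ⟨_, rfl⟩
  obtain ⟨W₁, hW₁⟩ : ∃ W₁, W₁ = ⌊N.w1 * J⌋₊ := ⟨_, rfl⟩
  have hW₀1 : N.w0 * J - 1 ≤ W₀ := by
    rw [hW₀]
    exact (Nat.sub_one_lt_floor _).le
  have hW₁1 : (W₁ : ℝ) ≤ N.w1 * J := by
    rw [hW₁]
    exact Nat.floor_le (by positivity)
  have hW₁J : W₁ ≤ J := by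
    have : (W₁ : ℝ) ≤ J := hW₁1.trans (by nlinarith)
    exact_mod_cast this
  have h0J : d.g' 0 ≤ J := (d.srt 0 (by norm_num)).trans d.top
  have h1J : d.g' 1 ≤ J := (d.srt 1 (by norm_num)).trans d.top
  have hnum := bnum (N := N) (lam := lam) hμ0 hq hq0.le le_rfl m1 m2 m3 m4 f1 hW₀1 hW₁1
    (d.num 0 (by norm_num)) (d.num 1 (by norm_num)) d.numz d.L0 d.L1
  obtain ⟨H, hH⟩ : ∃ H : ℝ, H = Real.exp (q * J) := ⟨_, rfl⟩
  have hlab := d.lab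
  have hL0 := d.L0
  choose Ay hAy2 hAy using fun v => aff_of_deg_one (d.lab.tri v 1) (d.dg v 1 (by norm_num))
  choose Az hAz using fun v => aff_of_deg (d.lab.tri v 2) (d.dg v 2 (by norm_num))
  obtain ⟨By, hByA, hPy, hBy⟩ := ty d.V d.z d.z' Ay (2 / 2 ^ d.g' 0) (by positivity) d.lab.cls
    (by
      intro ω hω
      have h2 := pos_one d.lab (by norm_num) h0J hω
      rw [hAy, p2_zero] at h2
      rw [hAy2, zero_mul, add_zero]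
      exact h2)
  obtain ⟨B₁, hB₁A, hP₁, hB₁⟩ := t1 d.V d.z d.z' Az ((3 + d.L) / 2 ^ d.g' 1) (by positivity)
    d.lab.cls (by
      intro ω hω
      have h2 := pos_two d.lab (Or.inl ⟨le_rfl, rfl⟩) (by rw [← hW₁]; exact hW₁J) h0J h1J d.L0 hω
      rw [hAz, p2_zero, p2_one, one_mul] at h2
      exact h2)
  obtain ⟨B₀, hB₀A, hP₀, hB₀⟩ := t0 d.V0 d.zz d.zz' d.a (1 / 2 ^ d.G0) (by positivity)
    d.lab0.cls fun ω hω => d.pos0 ω hω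
  rw [← hW₁, ← hH] at hBy hB₁
  rw [← hW₀, ← hH] at hB₀
  have hP := pe_two (fun ω (hω : By ω ∧ B₁ ω) => hByA ω hω.1) hB₀A (pe_two hByA hB₁A hPy hP₁) hP₀
  have hH1 : 1 ≤ H := by
    rw [hH]
    exact hnum.hH
  have hHL : 1 + d.L ≤ H := by
    rw [hH]
    exact hnum.hL
  have hH0 : 0 ≤ H := by linarith
  have pV : (0 : ℝ) < 2 ^ W₁ := by positivity
  have pw : (0 : ℝ) < 2 ^ W₀ := by positivity
  have pg1 : (0 : ℝ) < 2 ^ d.g' 1 := by positivity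
  have pG : (0 : ℝ) < 2 ^ d.G0 := by positivity
  have hS₁ : (2 : ℝ) ^ W₁ * (2 * H * ((3 + d.L) / 2 ^ d.g' 1)) ≤
      6 * H ^ 2 * 2 ^ W₁ / 2 ^ d.g' 1 := by
    have e1 : (2 : ℝ) ^ W₁ * (2 * H * ((3 + d.L) / 2 ^ d.g' 1)) =
        2 * H * (3 + d.L) * 2 ^ W₁ / 2 ^ d.g' 1 := by ring
    rw [e1]
    refine div_le_div_of_nonneg_right (mul_le_mul_of_nonneg_right ?_ pV.le) pg1.le
    have h3 : 3 + d.L ≤ 3 * H := by linarith
    calc 2 * H * (3 + d.L) ≤ 2 * H * (3 * H) := mul_le_mul_of_nonneg_left h3 (by linarith)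
      _ = 6 * H ^ 2 := by ring
  -- the bad event
  refine pe_good (B := fun ω => A ω ∧ d.Box (ex lam J) ω) hA (of_bad fun hbad => ?_)
    (fun ω hω => hω.1) fun ω hω h => h hω.2
  obtain ⟨Bd, hBd⟩ : ∃ Bd : F.Ω → Prop, Bd = fun ω => (A ω ∧ ¬ d.Box (ex lam J) ω) ∧
    ((By ω ∧ B₁ ω) ∧ B₀ ω) := ⟨_, rfl⟩
  have hBdA : Sub Bd A := by
    intro ω hω
    rw [hBd] at hω
    exact hω.1.1
  have hPd : c₀ / 2 * Pe F.p A ≤ Pe F.p Bd := by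
    have h2 := pe_two (η₁ := 1 - c₀) (η₂ := c₀ / 6 + c₀ / 6 + c₀ / 6)
      (B₁ := fun ω => A ω ∧ ¬ d.Box (ex lam J) ω) (B₂ := fun ω => (By ω ∧ B₁ ω) ∧ B₀ ω)
      (A := A) (fun ω hω => hω.1) (fun ω hω => hByA ω hω.1.1) (by
        rw [sub_sub_cancel]
        exact hbad) hP
    rw [← hBd] at h2
    refine le_trans (le_of_eq ?_) h2
    ring
  have hPd0 : 0 < Pe F.p Bd := lt_of_lt_of_le (by positivity) hPd
  obtain ⟨B', hB'B, hPB', hB'⟩ := nod_of 2 (Φ := ptr F J) (κ := c 0) (g := ⌊q * J⌋₊) hPd0 (by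
    intro B₂ hB₂ hPB₂
    have h4 := ha B₂ (fun ω hω => hBdA ω (hB₂ ω hω)) (by linarith)
    exact lt_of_lt_of_le (by linarith) h4)
  have hB'0 : 0 < Pe F.p B' := lt_of_lt_of_le (by linarith) hPB'
  obtain ⟨ω, hω⟩ : ∃ ω, B' ω := by
    by_contra h
    push Not at h
    have h3 : Pe F.p B' = 0 := by
      rw [Pe_eq]
      exact Finset.sum_eq_zero fun ω _ => if_neg (h ω)
    linarith
  obtain ⟨ν, hν, hsep⟩ := hB' ω hω
  have hωd := hB'B ω hω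
  rw [hBd] at hωd
  have hνd : ∀ i, B₁ (ν i) ∧ B₀ (ν i) := by
    intro i
    have h3 := (hν i).1
    rw [hBd] at h3
    exact ⟨h3.2.1.2, h3.2.2⟩
  have hκi : (2 : ℝ) ^ ⌊q * J⌋₊ ≤ H := by
    rw [hH]
    exact (two_le_exp _).trans (Real.exp_le_exp.2 (Nat.floor_le (by positivity)))
  refine hωd.1.2 (box_at d hW₀ hW₁ (Ay := Ay) (Az := Az) (H := H)
    (ε := Real.exp (-(μ / 2 * J))) hAy hAz hW₁J h0J hH1 (by rw [hH]; exact hnum.he) hnum.n1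
    hnum.n2 hnum.n3 (by rw [hH]; exact hnum.n4) hωd.1.1 ?_ ?_ ?_)
  · have h3 := hBy ω hωd.2.1.1
    rw [hAy2, zero_mul, sub_zero] at h3
    refine h3.trans (le_of_eq ?_)
    ring
  · exact (hB₁ ω hωd.2.1.2).trans hS₁
  · have h01' : (0 : Fin 2) ≠ 1 := by norm_num
    have q0 := hB₀ (ν 0) (hνd 0).2
    have q1 := hB₀ (ν 1) (hνd 1).2
    have q2 := hB₁ (ν 0) (hνd 0).1
    have q3 := hB₁ (ν 1) (hνd 1).1
    rw [(hν 0).2] at q0 q2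
    rw [(hν 1).2] at q1 q3
    have h3 := two_pl (κ := 1 / 2 ^ ⌊q * J⌋₊) (by positivity) (hsep 0 1 h01') q0 q1
      (q2.trans hS₁) (q3.trans hS₁)
    refine h3.trans ?_
    rw [div_div_eq_mul_div, div_one]
    have e1 : (2 : ℝ) ^ W₀ * (2 * H * (1 / 2 ^ d.G0)) = 2 * 2 ^ W₀ * H / 2 ^ d.G0 := by ring
    rw [e1]
    have e2 : 2 * H * (2 * 2 ^ W₀ * H / 2 ^ d.G0 + 6 * H ^ 2 * 2 ^ W₁ / 2 ^ d.g' 1) =
        2 * (2 * 2 ^ W₀ * H / 2 ^ d.G0 + 6 * H ^ 2 * 2 ^ W₁ / 2 ^ d.g' 1) * H := by ring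
    rw [e2]
    exact mul_le_mul_of_nonneg_left hκi (by positivity)

end Pool.PLA
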