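import Pool.Agent.H24.PLN.Lbc

/-!
# The velocities and the planes of a label

`slope_cls`: an affine label of a coordinate over the time and one more coordinate, closed at a
window: the same relation for the velocities. `aff_of_deg`: polynomials of degree one.
`box_two`: two planes through the same lines are close.
-/

set_option autoImplicit false

namespace Pool.PLA

open Finset Real MvPolynomial
open Pool.Agent.H49.Ent Pool.Agent.H32.Dense Pool.STK Pool.KA Pool.KSAT Pool.K2S Pool.PB Pool.STAT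
  Pool.GEN Pool.M3F Pool.S6C
open Pool.FLF (Fam.sub)
open Pool.PB.Trl (rt rt_mem t_rt)

variable {m J : ℕ}

/-- The line and a plane. -/
noncomputable def qa {F : Fam m J} {V : Type} (k j : Fin m) (W : ℕ) (z' : LnT F → V)
    (a : V → Fin 3 → ℝ) (s : LnT F) : Polynomial ℝ :=
  lc W s (some k) - (Polynomial.C (a (z' s) 0) + Polynomial.C (a (z' s) 1) * lc W s none +
    Polynomial.C (a (z' s) 2) * lc W s (some j))

theorem deg_qa {F : Fam m J} {V : Type} {k j : Fin m} {W : ℕ} {z' : LnT F → V}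
    {a : V → Fin 3 → ℝ} (s : LnT F) : (qa k j W z' a s).natDegree ≤ 1 := by
  unfold qa
  refine (Polynomial.natDegree_sub_le _ _).trans (max_le (natDegree_lc W s _) ?_)
  refine (Polynomial.natDegree_add_le _ _).trans (max_le
    ((Polynomial.natDegree_add_le _ _).trans (max_le ?_ ?_)) ?_)
  · rw [Polynomial.natDegree_C]
    exact Nat.zero_le _
  · exact (Polynomial.natDegree_C_mul_le _ _).trans (natDegree_lc W s _)
  · exact (Polynomial.natDegree_C_mul_le _ _).trans (natDegree_lc W s _)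

theorem eval_qa {F : Fam m J} {V : Type} {k j : Fin m} {W : ℕ} {z' : LnT F → V}
    {a : V → Fin 3 → ℝ} (hW : W ≤ J) (ω : F.Ω) (τ : ℝ) :
    (qa k j W z' a (slam F W ω)).eval τ = (F.x ω k - (a (z' (slam F W ω)) 0 +
      a (z' (slam F W ω)) 1 * F.t ω + a (z' (slam F W ω)) 2 * F.x ω j)) +
      1 / 2 ^ W * (τ - rt F W ω) * (F.d ω k - a (z' (slam F W ω)) 1 -
        a (z' (slam F W ω)) 2 * F.d ω j) := by
  unfold qa
  rw [Polynomial.eval_sub, Polynomial.eval_add, Polynomial.eval_add, Polynomial.eval_mul,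
    Polynomial.eval_mul, Polynomial.eval_C, Polynomial.eval_C, Polynomial.eval_C, lc_at_x hW,
    lc_at_x hW, lc_at_t hW]
  ring

/-- **The velocities and a plane**, in a class. -/
theorem slope_cls {S : PCl m}
    (hpos : ∀ (τ : ℝ) (J : ℕ) (F : Fam m J) (A : F.Ω → Prop), S.St τ J F A → 0 < Pe F.p A)
    (hTm : ∀ ε : ℝ, 0 < ε → Bas S (fun J F A => ∀ h : 0 < Pe F.p A,
      (Fam.sub F A h).Tm (ε * J)))
    {w : ℝ} (hw0 : 0 ≤ w) (hw1 : w < 1) {φ η : ℝ} (hφ : 0 < φ) (hη : 0 < η) (k j : Fin m) :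
    Bas S (fun J F A => ∀ (V : Type) (z : PtT F → V) (z' : LnT F → V) (a : V → Fin 3 → ℝ)
      (M : ℝ), 0 < M → (∀ ω, A ω → z (ptr F J ω) = z' (slam F ⌊w * J⌋₊ ω)) →
      (∀ ω, A ω → |F.x ω k - (a (z (ptr F J ω)) 0 + a (z (ptr F J ω)) 1 * F.t ω +
        a (z (ptr F J ω)) 2 * F.x ω j)| ≤ M) →
      ∃ B : F.Ω → Prop, Sub B A ∧ (1 - η) * Pe F.p A ≤ Pe F.p B ∧ ∀ ω, B ω →
        |F.d ω k - a (z (ptr F J ω)) 1 - a (z (ptr F J ω)) 2 * F.d ω j| ≤
          2 ^ ⌊w * J⌋₊ * (2 * Real.exp (φ * J) * M)) := by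
  refine (rem_cls 1 hpos hTm hw0 hw1 hφ hη).mono 0 ?_
  intro J _ F A h V z z' a M hM hz ha
  have hJ0 : (0 : ℝ) ≤ J := Nat.cast_nonneg J
  obtain ⟨W, hWe⟩ : ∃ W, W = ⌊w * J⌋₊ := ⟨_, rfl⟩
  rw [← hWe] at hz h ⊢
  have hWJ : W ≤ J := by
    have h1 : (W : ℝ) ≤ w * J := by
      rw [hWe]
      exact Nat.floor_le (by positivity)
    have : (W : ℝ) ≤ J := h1.trans (by nlinarith)
    exact_mod_cast this
  have pW : (0 : ℝ) < 2 ^ W := by positivity
  obtain ⟨B, hBA, hPB, hB⟩ := h (qa k j W z' a) M deg_qa hM fun ω hω => by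
    have h2 := ha ω hω
    rw [eval_qa hWJ, sub_self, mul_zero, zero_mul, add_zero, ← hz ω hω]
    exact h2
  refine ⟨B, hBA, hPB, fun ω hω => ?_⟩
  have h1 := hB ω hω 1 ⟨zero_le_one, le_rfl⟩
  have h0 := hB ω hω 0 ⟨le_rfl, zero_le_one⟩
  rw [eval_qa hWJ, ← hz ω (hBA ω hω)] at h1 h0
  obtain ⟨y, hy⟩ : ∃ y, y = F.d ω k - a (z (ptr F J ω)) 1 - a (z (ptr F J ω)) 2 * F.d ω j :=
    ⟨_, rfl⟩
  obtain ⟨x, hx⟩ : ∃ x, x = F.x ω k - (a (z (ptr F J ω)) 0 + a (z (ptr F J ω)) 1 * F.t ω +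
    a (z (ptr F J ω)) 2 * F.x ω j) := ⟨_, rfl⟩
  rw [← hx, ← hy] at h1 h0
  rw [← hy]
  have h2 : |1 / 2 ^ W * y| ≤ 2 * Real.exp (φ * J) * M := by
    have e1 : 1 / 2 ^ W * y = (x + 1 / 2 ^ W * (1 - rt F W ω) * y) -
        (x + 1 / 2 ^ W * (0 - rt F W ω) * y) := by ring
    rw [e1]
    refine (abs_sub _ _).trans ((add_le_add h1 h0).trans (le_of_eq ?_))
    ring
  rw [abs_mul, abs_of_pos (by positivity : (0 : ℝ) < 1 / 2 ^ W), one_div,
    inv_mul_le_iff₀ pW] at h2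
  exact h2

/-- Polynomials of degree one. -/
theorem aff_of_deg {G : PN} (hv : G.vars ⊆ range 2) (hd : G.totalDegree ≤ 1) :
    ∃ A : Fin 3 → ℝ, ∀ b : ℕ → ℝ, eval b G = A 0 + A 1 * b 0 + A 2 * b 1 := by
  obtain ⟨U, A, hU, hK, hs, hA⟩ := trunc hv hd
  have hU0 : U = 0 := by
    rw [← support_eq_empty]
    refine Finset.eq_empty_of_forall_notMem fun k hk => ?_
    have h1 := hs k hk
    have h2 := deg_two hU hK hk
    omega
  refine ⟨A, fun b => ?_⟩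
  rw [eval_p2 hv, hA, hU0, map_zero, zero_add]

theorem aff_of_deg_one {G : PN} (hv : G.vars ⊆ range 1) (hd : G.totalDegree ≤ 1) :
    ∃ A : Fin 3 → ℝ, A 2 = 0 ∧ ∀ b : ℕ → ℝ, eval b G = A 0 + A 1 * b 0 := by
  obtain ⟨A, hA⟩ := aff_of_deg (hv.trans (Finset.range_mono (by norm_num))) hd
  refine ⟨![A 0, A 1, 0], rfl, fun b => ?_⟩
  have h1 : eval b G = eval (p2 (b 0) 0) G := Pool.SYS35.eval_congr hv fun i hi => by
    have h0 : i = 0 := by omega
    rw [h0, p2_zero]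
  rw [h1, hA, p2_zero, p2_one, mul_zero, add_zero]
  rfl

/-- Two planes through two lines with separated velocities. -/
theorem two_pl {a1 a2 b1 b2 y y' v v' S₀ S₁ κ : ℝ} (hκ : 0 < κ) (hs : κ ≤ |y - y'|)
    (h1 : |v - a1 - a2 * y| ≤ S₀) (h2 : |v' - a1 - a2 * y'| ≤ S₀)
    (h3 : |v - b1 - b2 * y| ≤ S₁) (h4 : |v' - b1 - b2 * y'| ≤ S₁) :
    |a2 - b2| ≤ 2 * (S₀ + S₁) / κ := by
  rw [le_div_iff₀ hκ]
  have h5 : |a2 - b2| * |y - y'| ≤ 2 * (S₀ + S₁) := by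
    rw [← abs_mul]
    have e1 : (a2 - b2) * (y - y') = ((v - b1 - b2 * y) - (v - a1 - a2 * y)) -
        ((v' - b1 - b2 * y') - (v' - a1 - a2 * y')) := by ring
    rw [e1]
    refine (abs_sub _ _).trans ((add_le_add (abs_sub _ _) (abs_sub _ _)).trans ?_)
    linarith
  exact (mul_le_mul_of_nonneg_left hs (abs_nonneg _)).trans h5

end Pool.PLA
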