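import Pool.Agent.H24.PLN.Fan
import Pool.Agent.H5.M3F.Wgt
import Pool.Agent.H74.PZ.Line
import Pool.Agent.H71.GEN.Vel

/-!
# The label over the active coordinate is affine: families

`aff_fam`: closed labels on natural boxes for the coordinates `c 0, c 1, …`. If the fibres of the
exact point contain `K + 2` lines with separated velocities `d (c 0)`, the polynomial of the
coordinate `c 1` is close to an affine function of the time and of the coordinate `c 0`.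
-/

set_option autoImplicit false

namespace Pool.PLA

open Finset Real MvPolynomial
open Pool.Agent.H49.Ent Pool.Agent.H32.Dense Pool.STK Pool.KA Pool.KSAT Pool.K2S Pool.PB Pool.STAT
  Pool.GEN Pool.M3F
open Pool.FLF (Fam.sub)
open Pool.PB.Trl (rt rt_mem t_rt)
open Pool.STAT.CLO (Bxr nc nc_nuc box_nuc)

variable {m J : ℕ} {F : Fam m J} {c : ℕ → Fin m} {r W sg : ℕ} {g : ℕ → ℕ} {K : ℕ} {L : ℝ}
  {A : F.Ω → Prop} {V : Type} {z : PtT F → V} {z' : LnT F → V} {P : V → ℕ → PN}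

/-- Closed labels on smaller events. -/
theorem nlabw_mono (hN : NLabW F c r W sg g K L A z z' P) {B : F.Ω → Prop}
    (hB : ∀ ω, B ω → A ω) : NLabW F c r W sg g K L B z z' P :=
  ⟨hN.deg, hN.tri, fun ω h => hN.cls ω (hB ω h), fun ω h => hN.zero ω (hB ω h),
    fun ω h => hN.pos ω (hB ω h), fun ω h => hN.posN ω (hB ω h),
    fun ω h => hN.grad ω (hB ω h)⟩

/-- A point of the natural box with given first coordinates. -/
theorem box_pt (hN : NLabW F c r W sg g K L A z z' P) {ω : F.Ω} (hω : A ω) {t y : ℝ}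
    (ht : |t - (F.T1 W ω : ℝ) / 2 ^ W| ≤ 4 / 2 ^ W)
    (hy : |y - eval (p2 t 0) (P (z (ptr F J ω)) 1)| ≤ 4 / 2 ^ g 0) :
    ∃ b : ℕ → ℝ, Bxr 4 (wid W g) (P (z (ptr F J ω))) (r + 1) b ∧ b 0 = t ∧ b 1 = y := by
  obtain ⟨Φ, hΦ⟩ : ∃ Φ, Φ = P (z (ptr F J ω)) := ⟨_, rfl⟩
  have htri : TriN Φ := by
    rw [hΦ]
    exact hN.tri _
  have hz : Φ 0 = C ((F.T1 W ω : ℝ) / 2 ^ W) := by
    rw [hΦ]
    exact hN.zero ω hω
  rw [← hΦ] at hy ⊢
  obtain ⟨x, hx⟩ : ∃ x : ℕ → ℝ, x = fun j => if j = 0 then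
    2 ^ W * (t - (F.T1 W ω : ℝ) / 2 ^ W) else if j = 1 then
    2 ^ g 0 * (y - eval (p2 t 0) (Φ 1)) else 0 := ⟨_, rfl⟩
  have pW : (0 : ℝ) < 2 ^ W := by positivity
  have pg : (0 : ℝ) < 2 ^ g 0 := by positivity
  have hx4 : ∀ j, |x j| ≤ 4 := by
    intro j
    rw [hx]
    dsimp only
    split_ifs
    · rw [abs_mul, abs_of_pos pW]
      have := mul_le_mul_of_nonneg_left ht pW.le
      rwa [mul_div_cancel₀ _ pW.ne'] at this
    · rw [abs_mul, abs_of_pos pg]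
      have := mul_le_mul_of_nonneg_left hy pg.le
      rwa [mul_div_cancel₀ _ pg.ne'] at this
    · rw [abs_zero]
      norm_num
  have hnc := nc_nuc htri (wid W g) x
  obtain ⟨b, hb⟩ : ∃ b : ℕ → ℝ, b = fun j => eval x (nuc (wid W g) Φ j) := ⟨_, rfl⟩
  rw [← hb] at hnc
  have w0 : wid W g 0 = W := if_pos rfl
  have w1 : wid W g 1 = g 0 := if_neg one_ne_zero
  have b0 : b 0 = t := by
    have h1 := congrFun hnc 0
    unfold nc at h1
    rw [w0, hz, eval_C, hx] at h1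
    dsimp only at h1
    rw [if_pos rfl] at h1
    have h2 := mul_left_cancel₀ pW.ne' h1
    linarith
  have b1 : b 1 = y := by
    have h1 := congrFun hnc 1
    unfold nc at h1
    have h3 : eval b (Φ 1) = eval (p2 t 0) (Φ 1) :=
      Pool.SYS35.eval_congr (htri 1) fun i hi => by
        have : i = 0 := by omega
        rw [this, b0, p2_zero]
    rw [w1, h3, hx] at h1
    dsimp only at h1
    rw [if_neg one_ne_zero, if_pos rfl] at h1
    have h2 := mul_left_cancel₀ pg.ne' h1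
    linarith
  exact ⟨b, by
    rw [hb]
    exact box_nuc htri (wid W g) x fun j _ => hx4 j, b0, b1⟩

/-- The gradient of the second coordinate. -/
theorem grd_two (hN : NLabW F c r W sg g K L A z z' P) (hr : 1 ≤ r) {ω : F.Ω} (hω : A ω)
    {t y : ℝ} (ht : |t - (F.T1 W ω : ℝ) / 2 ^ W| ≤ 4 / 2 ^ W)
    (hy : |y - eval (p2 t 0) (P (z (ptr F J ω)) 1)| ≤ 4 / 2 ^ g 0) :
    |eval (p2 t y) (pderiv 1 (P (z (ptr F J ω)) 2))| ≤ L := by
  obtain ⟨b, hb, b0, b1⟩ := box_pt hN hω ht hy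
  have h1 := hN.grad ω hω b hb 2 (by omega) 1 (by norm_num)
  rwa [eval_p2 ((vars_pd 1 _).trans (hN.tri _ 2)), b0, b1] at h1

/-- The derivative of the first coordinate in the time. -/
theorem grd_one (hN : NLabW F c r W sg g K L A z z' P) {ω : F.Ω} (hω : A ω)
    {t : ℝ} (ht : |t - (F.T1 W ω : ℝ) / 2 ^ W| ≤ 4 / 2 ^ W) :
    |eval (p2 t 0) (pderiv 0 (P (z (ptr F J ω)) 1))| ≤ L := by
  obtain ⟨b, hb, b0, b1⟩ := box_pt hN hω ht (y := eval (p2 t 0) (P (z (ptr F J ω)) 1)) (by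
    rw [sub_self, abs_zero]
    positivity)
  have h1 := hN.grad ω hω b hb 1 (by omega) 0 one_pos
  have h2 : eval b (pderiv 0 (P (z (ptr F J ω)) 1)) =
      eval (p2 t 0) (pderiv 0 (P (z (ptr F J ω)) 1)) :=
    Pool.SYS35.eval_congr ((vars_pd 0 _).trans (hN.tri _ 1)) fun i hi => by
      have : i = 0 := by omega
      rw [this, b0, p2_zero]
  rwa [h2] at h1

theorem px_t (F : Fam m J) (c : ℕ → Fin m) (ω : F.Ω) : px c (ptr F J ω) 0 = F.t ω := if_pos rfl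

theorem px_x (F : Fam m J) (c : ℕ → Fin m) (ω : F.Ω) (i : ℕ) :
    |px c (ptr F J ω) (i + 1) - F.x ω (c i)| ≤ 1 / 2 ^ J := by
  have p : (0 : ℝ) < 2 ^ J := by positivity
  have e1 : px c (ptr F J ω) (i + 1) = (⌊(2 : ℝ) ^ J * F.x ω (c i)⌋ : ℝ) / 2 ^ J := by
    unfold px
    rw [if_neg (Nat.succ_ne_zero i)]
    rfl
  have h1 := Int.floor_le ((2 : ℝ) ^ J * F.x ω (c i))
  have h2 := Int.lt_floor_add_one ((2 : ℝ) ^ J * F.x ω (c i))
  rw [e1, show (⌊(2 : ℝ) ^ J * F.x ω (c i)⌋ : ℝ) / 2 ^ J - F.x ω (c i) =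
    (⌊(2 : ℝ) ^ J * F.x ω (c i)⌋ - 2 ^ J * F.x ω (c i)) / 2 ^ J by field_simp, abs_div,
    abs_of_pos p]
  refine div_le_div_of_nonneg_right ?_ p.le
  rw [abs_le]
  constructor <;> linarith

theorem t_win (hW : W ≤ J) (ω : F.Ω) : |F.t ω - (F.T1 W ω : ℝ) / 2 ^ W| ≤ 1 / 2 ^ W := by
  have h1 := t_rt F hW ω
  have h2 := rt_mem F W ω
  have p : (0 : ℝ) < 2 ^ W := by positivity
  have e1 : ((slam F W ω).2.2 : ℝ) = (F.T1 W ω : ℝ) := rfl
  rw [h1, e1, add_div, add_sub_cancel_left, abs_div, abs_of_pos p, abs_of_nonneg h2.1]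
  exact div_le_div_of_nonneg_right h2.2 p.le

/-- The position of the point on the label polynomial. -/
theorem pos_sc (hN : NLabW F c r W sg g K L A z z' P) (hr : 1 ≤ r) (hW : W ≤ J)
    (h0 : g 0 ≤ J) (hL : 0 ≤ L) {sc e : ℝ} (hs0 : 0 ≤ sc) (hs1 : sc ≤ 1)
    {ω : F.Ω} (hω : A ω)
    (hp : |sc * px c (ptr F J ω) 2 - eval (px c (ptr F J ω)) (P (z (ptr F J ω)) 2)| ≤ e) :
    |sc * F.x ω (c 1) - eval (p2 (F.t ω) (F.x ω (c 0))) (P (z (ptr F J ω)) 2)| ≤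
      e + (1 + L) / 2 ^ J := by
  obtain ⟨Φ, hΦ⟩ : ∃ Φ, Φ = P (z (ptr F J ω)) := ⟨_, rfl⟩
  have htri : TriN Φ := by
    rw [hΦ]
    exact hN.tri _
  have q1 := px_x F c ω 1
  have q0 := px_x F c ω 0
  have q2 := hp
  have q3 := hN.pos ω hω 0 (by omega)
  have q4 : eval (px c (ptr F J ω)) (Φ 1) = eval (p2 (F.t ω) 0) (Φ 1) :=
    Pool.SYS35.eval_congr (htri 1) fun i hi => by
      have : i = 0 := by omega
      rw [this, px_t, p2_zero]
  rw [← hΦ] at q2 q3 ⊢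
  rw [q4] at q3
  rw [eval_p2 (htri 2), px_t] at q2
  have pJ0 : (1 : ℝ) / 2 ^ J ≤ 1 / 2 ^ g 0 :=
    div_le_div_of_nonneg_left zero_le_one (by positivity) (pow_le_pow_right₀ one_le_two h0)
  have e1 : ∀ u, Function.update (p2 (F.t ω) 0) 1 u = p2 (F.t ω) u := by
    intro u
    funext i
    by_cases h : i = 1
    · rw [h, Function.update_self, p2_one]
    · rw [Function.update_of_ne h]
      unfold p2
      split_ifs <;> rfl
  have q5 := mv_upd (Φ 2) (p2 (F.t ω) 0) 1 (x := F.x ω (c 0)) (x' := px c (ptr F J ω) 1)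
    (L := L) (by
      intro u hu
      have hu1 : |u - px c (ptr F J ω) 1| ≤ 1 / 2 ^ J :=
        (by
          rw [abs_sub_comm]
          exact (Set.abs_sub_right_of_mem_uIcc hu).trans q0)
      rw [e1, hΦ]
      refine grd_two hN hr hω ((t_win hW ω).trans ?_) ?_
      · exact div_le_div_of_nonneg_right (by norm_num) (by positivity)
      · rw [← hΦ]
        have e2 : u - eval (p2 (F.t ω) 0) (Φ 1) = (u - px c (ptr F J ω) 1) +
          (px c (ptr F J ω) 1 - eval (p2 (F.t ω) 0) (Φ 1)) := by ring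
        rw [e2]
        refine (abs_add_le _ _).trans ((add_le_add (hu1.trans pJ0) q3).trans ?_)
        rw [← add_div]
        exact div_le_div_of_nonneg_right (by norm_num) (by positivity))
  rw [e1, e1] at q5
  have q6 : |eval (p2 (F.t ω) (px c (ptr F J ω) 1)) (Φ 2) -
      eval (p2 (F.t ω) (F.x ω (c 0))) (Φ 2)| ≤ L * (1 / 2 ^ J) :=
    q5.trans (mul_le_mul_of_nonneg_left q0 hL)
  have e3 : sc * F.x ω (c 1) - eval (p2 (F.t ω) (F.x ω (c 0))) (Φ 2) =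
      -(sc * (px c (ptr F J ω) 2 - F.x ω (c 1))) +
      (sc * px c (ptr F J ω) 2 - eval (p2 (F.t ω) (px c (ptr F J ω) 1)) (Φ 2)) +
      (eval (p2 (F.t ω) (px c (ptr F J ω) 1)) (Φ 2) -
        eval (p2 (F.t ω) (F.x ω (c 0))) (Φ 2)) := by ring
  rw [e3]
  refine (abs_add_le _ _).trans ?_
  have q7 : |-(sc * (px c (ptr F J ω) 2 - F.x ω (c 1))) +
      (sc * px c (ptr F J ω) 2 - eval (p2 (F.t ω) (px c (ptr F J ω) 1)) (Φ 2))| ≤
      1 / 2 ^ J + e := by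
    refine (abs_add_le _ _).trans (add_le_add ?_ q2)
    rw [abs_neg, abs_mul, abs_of_nonneg hs0]
    exact (mul_le_of_le_one_left (abs_nonneg _) hs1).trans q1
  refine (add_le_add q7 q6).trans (le_of_eq ?_)
  ring

/-- The factor of the second coordinate: `1` if there is a further one, the weight if it is the
last one. -/
def Scf (r sg : ℕ) (sc : ℝ) : Prop := (2 ≤ r ∧ sc = 1) ∨ (r = 1 ∧ sc = 1 / 2 ^ sg)

theorem Scf.pos {sc : ℝ} (h : Scf r sg sc) : 0 < sc := by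
  rcases h with ⟨-, rfl⟩ | ⟨-, rfl⟩
  · exact one_pos
  · positivity

theorem Scf.le {sc : ℝ} (h : Scf r sg sc) : sc ≤ 1 := by
  rcases h with ⟨-, rfl⟩ | ⟨-, rfl⟩
  · exact le_rfl
  · rw [div_le_one (by positivity)]
    exact one_le_pow₀ one_le_two

theorem Scf.one {sc : ℝ} (h : Scf r sg sc) : 1 ≤ r := by
  rcases h with ⟨h, -⟩ | ⟨h, -⟩ <;> omega

/-- The position of the point on the label polynomial. -/
theorem pos_two (hN : NLabW F c r W sg g K L A z z' P) {sc : ℝ} (hsc : Scf r sg sc) (hW : W ≤ J)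
    (h0 : g 0 ≤ J) (h1 : g 1 ≤ J) (hL : 0 ≤ L) {ω : F.Ω} (hω : A ω) :
    |sc * F.x ω (c 1) - eval (p2 (F.t ω) (F.x ω (c 0))) (P (z (ptr F J ω)) 2)| ≤
      (3 + L) / 2 ^ g 1 := by
  have pg : (0 : ℝ) < 2 ^ g 1 := by positivity
  have pJ1 : (1 : ℝ) / 2 ^ J ≤ 1 / 2 ^ g 1 :=
    div_le_div_of_nonneg_left zero_le_one (by positivity) (pow_le_pow_right₀ one_le_two h1)
  have h2 : |sc * px c (ptr F J ω) 2 - eval (px c (ptr F J ω)) (P (z (ptr F J ω)) 2)| ≤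
      2 / 2 ^ g 1 := by
    rcases hsc with ⟨h2, h3⟩ | ⟨h2, h3⟩
    · rw [h3, one_mul]
      refine (hN.pos ω hω 1 (by omega)).trans ?_
      exact div_le_div_of_nonneg_right (by norm_num) pg.le
    · have h4 := hN.posN ω hω
      rw [h2] at h4
      have e1 : sc * px c (ptr F J ω) 2 = px c (ptr F J ω) (1 + 1) / 2 ^ sg := by
        rw [h3]
        ring
      rw [e1]
      refine h4.trans ((add_le_add le_rfl pJ1).trans (le_of_eq ?_))
      ring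
  refine (pos_sc hN hsc.one hW h0 hL hsc.pos.le hsc.le hω h2).trans ?_
  have h3 : (1 + L) * (1 / 2 ^ J) ≤ (1 + L) * (1 / 2 ^ g 1) :=
    mul_le_mul_of_nonneg_left pJ1 (by linarith)
  rw [mul_one_div, mul_one_div] at h3
  refine (add_le_add le_rfl h3).trans (le_of_eq ?_)
  ring

/-- The centre of the label is close to the point. -/
theorem cen_two (hN : NLabW F c r W sg g K L A z z' P) (hr : 1 ≤ r) (hW : W ≤ J)
    (h0 : g 0 ≤ J) (hL : 0 ≤ L) {ω : F.Ω} (hω : A ω) :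
    |ct (P (z (ptr F J ω))) - F.t ω| ≤ 1 / 2 ^ W ∧
      |cy (P (z (ptr F J ω))) - F.x ω (c 0)| ≤ L / 2 ^ W + 2 / 2 ^ g 0 := by
  obtain ⟨Φ, hΦ⟩ : ∃ Φ, Φ = P (z (ptr F J ω)) := ⟨_, rfl⟩
  have htri : TriN Φ := by
    rw [hΦ]
    exact hN.tri _
  have hz : Φ 0 = C ((F.T1 W ω : ℝ) / 2 ^ W) := by
    rw [hΦ]
    exact hN.zero ω hω
  have hct : ct Φ = (F.T1 W ω : ℝ) / 2 ^ W := by
    unfold ct
    rw [hz, eval_C]
  have pW : (0 : ℝ) < 2 ^ W := by positivity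
  have htw := t_win hW ω
  rw [← hΦ]
  have hc1 : |ct Φ - F.t ω| ≤ 1 / 2 ^ W := by
    rw [hct, abs_sub_comm]
    exact htw
  refine ⟨hc1, ?_⟩
  have q0 := px_x F c ω 0
  have q3 := hN.pos ω hω 0 (by omega)
  have q4 : eval (px c (ptr F J ω)) (Φ 1) = eval (p2 (F.t ω) 0) (Φ 1) :=
    Pool.SYS35.eval_congr (htri 1) fun i hi => by
      have : i = 0 := by omega
      rw [this, px_t, p2_zero]
  rw [← hΦ, q4] at q3
  have e1 : ∀ u, Function.update (p2 (F.t ω) 0) 0 u = p2 u 0 := by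
    intro u
    funext i
    by_cases h : i = 0
    · rw [h, Function.update_self, p2_zero]
    · rw [Function.update_of_ne h]
      unfold p2
      rw [if_neg h, if_neg h]
  have q5 := mv_upd (Φ 1) (p2 (F.t ω) 0) 0 (x := F.t ω) (x' := ct Φ) (L := L) (by
      intro u hu
      rw [e1, hΦ]
      refine grd_one hN hω ?_
      have h3 : |u - ct Φ| ≤ 1 / 2 ^ W := by
        rw [abs_sub_comm]
        exact (Set.abs_sub_right_of_mem_uIcc hu).trans hc1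
      rw [hct] at h3
      exact h3.trans (div_le_div_of_nonneg_right (by norm_num) pW.le))
  rw [e1, e1] at q5
  have pJ0 : (1 : ℝ) / 2 ^ J ≤ 1 / 2 ^ g 0 :=
    div_le_div_of_nonneg_left zero_le_one (by positivity) (pow_le_pow_right₀ one_le_two h0)
  have q6 : |eval (p2 (ct Φ) 0) (Φ 1) - eval (p2 (F.t ω) 0) (Φ 1)| ≤ L * (1 / 2 ^ W) :=
    q5.trans (mul_le_mul_of_nonneg_left hc1 hL)
  have e3 : cy Φ - F.x ω (c 0) = (eval (p2 (ct Φ) 0) (Φ 1) - eval (p2 (F.t ω) 0) (Φ 1)) +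
      (-(px c (ptr F J ω) 1 - eval (p2 (F.t ω) 0) (Φ 1)) +
        (px c (ptr F J ω) 1 - F.x ω (c 0))) := by
    unfold cy
    ring
  rw [e3]
  refine (abs_add_le _ _).trans ?_
  have q7 : |-(px c (ptr F J ω) 1 - eval (p2 (F.t ω) 0) (Φ 1)) +
        (px c (ptr F J ω) 1 - F.x ω (c 0))| ≤ 1 / 2 ^ g 0 + 1 / 2 ^ g 0 := by
    refine (abs_add_le _ _).trans (add_le_add ?_ (q0.trans pJ0))
    rw [abs_neg]
    exact q3
  refine (add_le_add q6 q7).trans (le_of_eq ?_)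
  ring

/-- **The label is affine**, near the line of the sample. -/
structure AffZ (F : Fam m J) (c : ℕ → Fin m) (W : ℕ) (sc ρ E E' : ℝ) (G : PN)
    (a : Fin 3 → ℝ) (ω : F.Ω) : Prop where
  pol : ∀ b : ℕ → ℝ, |b 0 - F.t ω| ≤ ρ / 2 ^ W → |b 1 - F.x ω (c 0)| ≤ ρ / 2 ^ W →
    |eval b G - (a 0 + a 1 * b 0 + a 2 * b 1)| ≤ E
  lin : ∀ t : ℝ, |t - F.t ω| ≤ ρ / 2 ^ W →
    |sc * (F.u ω (c 1) + t * F.d ω (c 1)) -
      (a 0 + a 1 * t + a 2 * (F.u ω (c 0) + t * F.d ω (c 0)))| ≤ E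
  slp : |a 1| ≤ E' ∧ |a 2| ≤ E'

/-- The difference of the line and of the label. -/
noncomputable def qz (c : ℕ → Fin m) (W : ℕ) (sc : ℝ) (z' : LnT F → V) (P : V → ℕ → PN)
    (s : LnT F) : Polynomial ℝ :=
  Polynomial.C sc * lc W s (some (c 1)) -
    aeval (fun i : ℕ => if i = 0 then lc W s none else lc W s (some (c (i - 1)))) (P (z' s) 2)

theorem deg_qz (hdeg : ∀ v i, (P v i).totalDegree ≤ K) (sc : ℝ) (s : LnT F) :
    (qz c W sc z' P s).natDegree ≤ K + 1 := by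
  unfold qz
  refine (Polynomial.natDegree_sub_le _ _).trans (max_le
    ((Polynomial.natDegree_C_mul_le _ _).trans ((natDegree_lc W s _).trans (by omega))) ?_)
  refine (Pool.KBX.natDegree_aeval_le _ _ (fun i => ?_) (hdeg _ _)).trans (by omega)
  split_ifs
  · exact natDegree_lc W s _
  · exact natDegree_lc W s _

theorem lc_at_x (hW : W ≤ J) (ω : F.Ω) (j : Fin m) (τ : ℝ) :
    (lc W (slam F W ω) (some j)).eval τ = F.x ω j + 1 / 2 ^ W * (τ - rt F W ω) * F.d ω j := by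
  have e1 : (lc W (slam F W ω) (some j)).eval τ =
      F.u ω j + F.d ω j * (((slam F W ω).2.2 : ℝ) / 2 ^ W + 1 / 2 ^ W * τ) := by
    simp only [lc, Polynomial.eval_add, Polynomial.eval_mul, Polynomial.eval_C, Polynomial.eval_X]
    rfl
  rw [e1]
  have h := t_rt F hW ω
  show _ = (F.u ω j + F.t ω * F.d ω j) + _
  rw [h]
  ring

theorem lc_at_t (hW : W ≤ J) (ω : F.Ω) (τ : ℝ) :
    (lc W (slam F W ω) none).eval τ = F.t ω + 1 / 2 ^ W * (τ - rt F W ω) := by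
  have e1 : (lc W (slam F W ω) none).eval τ = ((slam F W ω).2.2 : ℝ) / 2 ^ W + 1 / 2 ^ W * τ := by
    simp only [lc, Polynomial.eval_add, Polynomial.eval_mul, Polynomial.eval_C, Polynomial.eval_X]
  rw [e1, t_rt F hW ω]
  ring

theorem eval_qz (hW : W ≤ J) (htri : ∀ v, TriN (P v)) (sc : ℝ) (ω : F.Ω) (τ : ℝ) :
    (qz c W sc z' P (slam F W ω)).eval τ =
      sc * (F.x ω (c 1) + 1 / 2 ^ W * (τ - rt F W ω) * F.d ω (c 1)) -
      eval (p2 (F.t ω + 1 / 2 ^ W * (τ - rt F W ω))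
        (F.x ω (c 0) + 1 / 2 ^ W * (τ - rt F W ω) * F.d ω (c 0)))
        (P (z' (slam F W ω)) 2) := by
  unfold qz
  rw [Polynomial.eval_sub, Polynomial.eval_mul, Polynomial.eval_C, Pool.KBX.eval_aeval_poly,
    lc_at_x hW, eval_p2 (htri _ 2)]
  rw [if_pos rfl, if_neg one_ne_zero, lc_at_t hW, lc_at_x hW]

/-- **The label over the active coordinate is affine**, for one family. -/
theorem aff_fam (m K : ℕ) : ∃ C : ℝ, 1 ≤ C ∧ ∀ {J : ℕ} (F : Fam m J) (A : F.Ω → Prop)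
    (hA : 0 < Pe F.p A) {c : ℕ → Fin m} {r W sg : ℕ} {g : ℕ → ℕ} {L : ℝ} {V : Type}
    {z : PtT F → V} {z' : LnT F → V} {P : V → ℕ → PN} {κ ρ θ sc : ℝ},
    NLabW F c r W sg g K L A z z' P → Scf r sg sc → W ≤ J → g 0 ≤ J → g 1 ≤ J → 0 ≤ L → 0 ≤ θ →
    (Fam.sub F A hA).Tm θ → C * (θ + 1) ≤ ((J : ℝ) - W) * Real.log 2 → 0 < κ → κ ≤ 1 →
    L + 2 * (2 ^ W / 2 ^ g 0) + 2 ≤ ρ → C * (1 / κ) ^ (K + 1) * (2 ^ W / 2 ^ J) ≤ 1 →
    (∀ B : F.Ω → Prop, Sub B A → Pe F.p A / 2 ≤ Pe F.p B → ∃ B' : F.Ω → Prop, Sub B' B ∧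
      Pe F.p B / 2 ≤ Pe F.p B' ∧ ∀ ω, B' ω → ∃ ν : Fin (K + 2) → F.Ω,
        (∀ i, B (ν i) ∧ ptr F J (ν i) = ptr F J ω) ∧
        ∀ i j, i ≠ j → κ ≤ |F.d (ν i) (c 0) - F.d (ν j) (c 0)|) →
    ∃ B : F.Ω → Prop, Sub B A ∧ Pe F.p A / 4 ≤ Pe F.p B ∧ ∀ ω, B ω →
      AffZ F c W sc ρ (C * (1 / κ) ^ (K + 1) * ρ ^ (K + 3) * (Real.exp (C * (θ + 1)) * (1 + L)) /
          2 ^ g 1)
        ((2 + 4 * 2 ^ W * (C * (1 / κ) ^ (K + 1) * ρ ^ (K + 3) *
          (Real.exp (C * (θ + 1)) * (1 + L)) / 2 ^ g 1)) * 2 / κ)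
        (P (z (ptr F J ω)) 2) (az W (P (z (ptr F J ω)))) ω := by
  classical
  obtain ⟨C₁, hC₁, hrem⟩ := Pool.PZ.Zrt.rem_ev (m := m) (K + 1)
  obtain ⟨C₂, hC₂, hfan⟩ := fan_aff (K + 1)
  obtain ⟨Cc, hCc⟩ : ∃ Cc : ℝ, Cc = C₁ + 3 * (3 * (1 + 10 * 2 ^ (K + 1) * C₂)) := ⟨_, rfl⟩
  have hp2 : (1 : ℝ) ≤ 2 ^ (K + 1) := one_le_pow₀ one_le_two
  have hCC : C₂ ≤ 1 + 10 * 2 ^ (K + 1) * C₂ := by nlinarith
  have hCc1 : C₁ ≤ Cc := by
    rw [hCc]
    linarith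
  have hCc2 : C₂ ≤ Cc := by
    rw [hCc]
    linarith
  have hCc3 : 3 * (3 * (1 + 10 * 2 ^ (K + 1) * C₂)) ≤ Cc := by
    rw [hCc]
    linarith
  refine ⟨Cc, hC₁.trans hCc1, ?_⟩
  intro J F A hA c r W sg g L V z z' P κ ρ θ sc hN hsc hW h0 h1 hL hθ hTm hJ hκ hκ1 hρ hsm hnod
  have hr := hsc.one
  have pW : (0 : ℝ) < 2 ^ W := by positivity
  have pg : (0 : ℝ) < 2 ^ g 1 := by positivity
  have pJ : (0 : ℝ) < 2 ^ J := by positivity
  have hq0 : (0 : ℝ) ≤ 2 ^ W / 2 ^ g 0 := by positivity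
  have hρ2 : 2 ≤ ρ := by linarith
  have hρ0 : 0 ≤ ρ := by linarith
  -- the time
  obtain ⟨B, hBA, hPB, hB⟩ := hrem J F A hA W (qz c W sc z' P) ((3 + L) / 2 ^ g 1) θ hW
    (deg_qz hN.deg sc) (by positivity) hθ hTm
    ((mul_le_mul_of_nonneg_right hCc1 (by linarith)).trans hJ) (by
      intro ω hω
      have h2 := pos_two hN hsc hW h0 h1 hL hω
      rw [eval_qz hW hN.tri sc, sub_self, mul_zero, zero_mul, zero_mul, add_zero, add_zero,
        add_zero, ← hN.cls ω hω]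
      exact h2)
  obtain ⟨B', hB'B, hPB', hB'⟩ := hnod B hBA hPB
  refine ⟨B', fun ω hω => hBA ω (hB'B ω hω), by linarith, fun ω hω => ?_⟩
  have hωB := hB'B ω hω
  have hωA := hBA ω hωB
  obtain ⟨ν, hν, hsep⟩ := hB' ω hω
  have hνA : ∀ i, A (ν i) := fun i => hBA _ (hν i).1
  obtain ⟨Φ, hΦ⟩ : ∃ Φ, Φ = P (z (ptr F J ω)) := ⟨_, rfl⟩
  have htri : TriN Φ := by
    rw [hΦ]
    exact hN.tri _
  obtain ⟨h, hh⟩ : ∃ h : ℝ, h = 1 / 2 ^ W := ⟨_, rfl⟩
  have hh0 : 0 < h := by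
    rw [hh]
    positivity
  obtain ⟨τ₀, hτ₀⟩ : ∃ τ₀, τ₀ = rt F W ω := ⟨_, rfl⟩
  have hτ₀m : τ₀ ∈ Set.Icc (0 : ℝ) 1 := by
    rw [hτ₀]
    exact rt_mem F W ω
  obtain ⟨M, hM⟩ : ∃ M : ℝ, M = Real.exp (C₁ * (θ + 1)) * ((3 + L) / 2 ^ g 1) := ⟨_, rfl⟩
  have hM0 : 0 ≤ M := by
    rw [hM]
    positivity
  -- the lines through the point
  have hline : ∀ ω', B ω' → ptr F J ω' = ptr F J ω → F.t ω' = F.t ω ∧
      |F.x ω' (c 0) - F.x ω (c 0)| ≤ 1 / 2 ^ J ∧ ∀ τ ∈ Set.Icc (0 : ℝ) 1,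
        |eval (p2 (F.t ω + h * (τ - τ₀)) (F.x ω' (c 0) + h * (τ - τ₀) * F.d ω' (c 0))) (Φ 2) -
          (sc * F.x ω' (c 1) + h * (τ - τ₀) * (sc * F.d ω' (c 1)))| ≤ M := by
    intro ω' hω' hptr
    have hT : F.T ω' = F.T ω := congrArg (fun p : PtT F => p.2.1) hptr
    have hX : F.X J ω' = F.X J ω := congrArg (fun p : PtT F => p.1) hptr
    have ht : F.t ω' = F.t ω := by
      unfold Fam.t
      rw [hT]
    have hrt : rt F W ω' = τ₀ := by
      rw [hτ₀]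
      unfold rt
      rw [hT]
    have hzz : z' (slam F W ω') = z (ptr F J ω) := by
      rw [← hN.cls ω' (hBA ω' hω'), hptr]
    refine ⟨ht, ?_, fun τ hτ => ?_⟩
    · have h2 : ⌊(2 : ℝ) ^ J * F.x ω' (c 0)⌋ = ⌊(2 : ℝ) ^ J * F.x ω (c 0)⌋ := congrFun hX (c 0)
      have h3 := Int.abs_sub_lt_one_of_floor_eq_floor h2
      rw [← mul_sub, abs_mul, abs_of_pos pJ] at h3
      rw [le_div_iff₀ pJ, mul_comm]
      exact h3.le
    · have h2 := hB ω' hω' τ hτ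
      rw [eval_qz hW hN.tri sc, hrt, hzz, ← hΦ, ht, ← hh, ← hM] at h2
      have e1 : sc * F.x ω' (c 1) + h * (τ - τ₀) * (sc * F.d ω' (c 1)) =
          sc * (F.x ω' (c 1) + h * (τ - τ₀) * F.d ω' (c 1)) := by ring
      rw [abs_sub_comm, e1]
      exact h2
  have hsJ : (1 : ℝ) / 2 ^ J ≤ h := by
    rw [hh]
    exact div_le_div_of_nonneg_left zero_le_one pW (pow_le_pow_right₀ one_le_two hW)
  have hsh : 1 / 2 ^ J / h = 2 ^ W / 2 ^ J := by
    rw [hh]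
    field_simp
  have hQ0 : 0 ≤ (1 / κ) ^ (K + 1) := by positivity
  obtain ⟨Aa, hAa⟩ := hfan (Φ 2) M κ (1 / 2 ^ J) h τ₀ (F.t ω) (F.x ω (c 0))
    (fun i => F.d (ν i) (c 0)) (fun i => F.x (ν i) (c 0)) (fun i => sc * F.x (ν i) (c 1))
    (fun i => sc * F.d (ν i) (c 1)) (htri 2) (by
      rw [hΦ]
      exact (hN.deg _ _).trans (Nat.le_succ K)) hκ hκ1 (fun i => F.dir _ _) hsep hτ₀m hM0 hh0 hsJ
    (fun i => (hline _ (hν i).1 (hν i).2).2.1) (by
      rw [hsh]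
      refine le_trans ?_ hsm
      refine mul_le_mul_of_nonneg_right (mul_le_mul_of_nonneg_right hCc2 hQ0) (by positivity))
    (fun i τ hτ => (hline _ (hν i).1 (hν i).2).2.2 τ hτ)
  -- the affine part
  obtain ⟨Q, hQ⟩ : ∃ Q : ℝ, Q = (1 / κ) ^ (K + 1) := ⟨_, rfl⟩
  have hQ1 : 1 ≤ Q := by
    rw [hQ]
    refine one_le_pow₀ ?_
    rw [le_div_iff₀ hκ, one_mul]
    exact hκ1
  obtain ⟨a, ha⟩ : ∃ a, a = az W Φ := ⟨_, rfl⟩
  obtain ⟨Ep, hEp⟩ : ∃ Ep : ℝ, Ep = 10 * ρ * (ρ + 1) ^ (K + 1) * (C₂ * Q * M) := ⟨_, rfl⟩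
  have hEp0 : 0 ≤ Ep := by
    rw [hEp]
    positivity
  have hcen := cen_two hN hr hW h0 hL hωA
  rw [← hΦ] at hcen
  have hpol : ∀ s η : ℝ, |s| ≤ ρ → |η| ≤ ρ →
      |eval (p2 (F.t ω + h * s) (F.x ω (c 0) + h * η)) (Φ 2) -
        (a 0 + a 1 * (F.t ω + h * s) + a 2 * (F.x ω (c 0) + h * η))| ≤ Ep := by
    intro s η hs hη
    rw [hEp, ha, hh]
    refine az_near (K := K + 1) (ρ₀ := L + 2 * (2 ^ W / 2 ^ g 0) + 1) (A := Aa) (by positivity)
      (fun ρ' hρ' s' η' hs' hη' => ?_) ?_ ?_ (by linarith) (by linarith) hs hη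
    · have h2 := hAa ρ' hρ' s' η' hs' hη'
      rw [hh, ← hQ] at h2
      exact h2
    · refine hcen.1.trans (div_le_div_of_nonneg_right ?_ pW.le)
      linarith
    · refine hcen.2.trans ?_
      rw [add_div, add_div]
      have e1 : 2 * (2 ^ W / 2 ^ g 0) / 2 ^ W = (2 : ℝ) / 2 ^ g 0 := by
        field_simp
      rw [e1]
      have : (0 : ℝ) ≤ 1 / 2 ^ W := by positivity
      linarith
  -- the constants
  obtain ⟨E, hE⟩ : ∃ E : ℝ, E = Cc * Q * ρ ^ (K + 3) * (Real.exp (Cc * (θ + 1)) * (1 + L)) /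
      2 ^ g 1 := ⟨_, rfl⟩
  have hMle : M ≤ 3 * (Real.exp (Cc * (θ + 1)) * (1 + L)) / 2 ^ g 1 := by
    have h2 : Real.exp (C₁ * (θ + 1)) ≤ Real.exp (Cc * (θ + 1)) :=
      Real.exp_le_exp.2 (mul_le_mul_of_nonneg_right hCc1 (by linarith))
    have h3 : Real.exp (C₁ * (θ + 1)) * (3 + L) ≤
        Real.exp (Cc * (θ + 1)) * (3 * (1 + L)) :=
      mul_le_mul h2 (by linarith) (by linarith) (Real.exp_pos _).le
    rw [hM, ← mul_div_assoc]
    refine div_le_div_of_nonneg_right (h3.trans (le_of_eq (by ring))) pg.le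
  have hEM : 3 * ρ * (M + Ep) ≤ E := by
    have h2 : (ρ + 1) ^ (K + 1) ≤ 2 ^ (K + 1) * ρ ^ (K + 1) := by
      rw [← mul_pow]
      exact pow_le_pow_left₀ (by linarith) (by linarith) _
    have h3 : Ep ≤ 10 * ρ * (2 ^ (K + 1) * ρ ^ (K + 1)) * (C₂ * Q * M) := by
      rw [hEp]
      exact mul_le_mul_of_nonneg_right (mul_le_mul_of_nonneg_left h2 (by positivity))
        (by positivity)
    have h4 : M ≤ ρ * ρ ^ (K + 1) * Q * M := by
      have h5 : 1 ≤ ρ * ρ ^ (K + 1) * Q := by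
        have h6 : 1 ≤ ρ ^ (K + 1) := one_le_pow₀ (by linarith)
        have h7 : 1 ≤ ρ * ρ ^ (K + 1) := one_le_mul_of_one_le_of_one_le (by linarith) h6
        exact one_le_mul_of_one_le_of_one_le h7 hQ1
      exact le_mul_of_one_le_left hM0 h5
    have h5 : 3 * ρ * (M + Ep) ≤ 3 * (1 + 10 * 2 ^ (K + 1) * C₂) * Q * ρ ^ (K + 3) * M := by
      have e1 : 3 * (1 + 10 * 2 ^ (K + 1) * C₂) * Q * ρ ^ (K + 3) * M =
          3 * ρ * (ρ * ρ ^ (K + 1) * Q * M +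
            10 * ρ * (2 ^ (K + 1) * ρ ^ (K + 1)) * (C₂ * Q * M)) := by
        rw [pow_add ρ (K + 1) 2]
        ring
      rw [e1]
      exact mul_le_mul_of_nonneg_left (add_le_add h4 h3) (by positivity)
    refine h5.trans ?_
    have h6 : 3 * (1 + 10 * 2 ^ (K + 1) * C₂) * Q * ρ ^ (K + 3) * M ≤
        3 * (1 + 10 * 2 ^ (K + 1) * C₂) * Q * ρ ^ (K + 3) *
          (3 * (Real.exp (Cc * (θ + 1)) * (1 + L)) / 2 ^ g 1) :=
      mul_le_mul_of_nonneg_left hMle (by positivity)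
    refine h6.trans ?_
    rw [hE]
    have e1 : 3 * (1 + 10 * 2 ^ (K + 1) * C₂) * Q * ρ ^ (K + 3) *
        (3 * (Real.exp (Cc * (θ + 1)) * (1 + L)) / 2 ^ g 1) =
        3 * (3 * (1 + 10 * 2 ^ (K + 1) * C₂)) * Q * ρ ^ (K + 3) *
          (Real.exp (Cc * (θ + 1)) * (1 + L)) / 2 ^ g 1 := by ring
    rw [e1]
    refine div_le_div_of_nonneg_right ?_ pg.le
    refine mul_le_mul_of_nonneg_right ?_ (by positivity)
    refine mul_le_mul_of_nonneg_right ?_ (by positivity)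
    exact mul_le_mul_of_nonneg_right hCc3 (by linarith)
  have hME0 : M + Ep ≤ 3 * ρ * (M + Ep) := le_mul_of_one_le_left (by linarith) (by linarith)
  have hEpE : Ep ≤ E := by
    refine le_trans ?_ hEM
    linarith
  have hME : M + Ep ≤ E := hME0.trans hEM
  -- the lines and the affine part
  have hpsi : ∀ ω', B ω' → ptr F J ω' = ptr F J ω →
      (∀ τ ∈ Set.Icc (0 : ℝ) 1, |(sc * F.x ω' (c 1) + h * (τ - τ₀) * (sc * F.d ω' (c 1))) -
        (a 0 + a 1 * (F.t ω + h * (τ - τ₀)) +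
          a 2 * (F.x ω' (c 0) + h * (τ - τ₀) * F.d ω' (c 0)))| ≤ M + Ep) ∧
      |h * (sc * F.d ω' (c 1) - a 1 - a 2 * F.d ω' (c 0))| ≤ 2 * (M + Ep) := by
    intro ω' hω' hptr
    obtain ⟨-, hx, hl⟩ := hline ω' hω' hptr
    have h2 : ∀ τ ∈ Set.Icc (0 : ℝ) 1,
        |(sc * F.x ω' (c 1) + h * (τ - τ₀) * (sc * F.d ω' (c 1))) -
        (a 0 + a 1 * (F.t ω + h * (τ - τ₀)) +
          a 2 * (F.x ω' (c 0) + h * (τ - τ₀) * F.d ω' (c 0)))| ≤ M + Ep := by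
      intro τ hτ
      have hτ1 : |τ - τ₀| ≤ 1 := by
        rw [abs_le]
        constructor <;> linarith [hτ.1, hτ.2, hτ₀m.1, hτ₀m.2]
      have h3 := hl τ hτ
      have h4 := hpol (τ - τ₀) ((F.x ω' (c 0) - F.x ω (c 0)) / h + (τ - τ₀) * F.d ω' (c 0))
        (hτ1.trans (by linarith)) (by
          refine (abs_add_le _ _).trans ?_
          have h5 : |(F.x ω' (c 0) - F.x ω (c 0)) / h| ≤ 1 := by
            rw [abs_div, abs_of_pos hh0, div_le_one hh0]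
            exact hx.trans hsJ
          have h6 : |(τ - τ₀) * F.d ω' (c 0)| ≤ 1 := by
            rw [abs_mul]
            exact mul_le_one₀ hτ1 (abs_nonneg _) (F.dir _ _)
          linarith)
      have e1 : F.x ω (c 0) + h * ((F.x ω' (c 0) - F.x ω (c 0)) / h +
          (τ - τ₀) * F.d ω' (c 0)) = F.x ω' (c 0) + h * (τ - τ₀) * F.d ω' (c 0) := by
        field_simp
        ring
      rw [e1] at h4
      rw [abs_le] at h3 h4 ⊢
      constructor <;> linarith [h3.1, h3.2, h4.1, h4.2]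
    refine ⟨h2, ?_⟩
    have h3 := h2 0 ⟨le_rfl, zero_le_one⟩
    have h4 := h2 1 ⟨zero_le_one, le_rfl⟩
    have e1 : h * (sc * F.d ω' (c 1) - a 1 - a 2 * F.d ω' (c 0)) =
        ((sc * F.x ω' (c 1) + h * (1 - τ₀) * (sc * F.d ω' (c 1))) -
        (a 0 + a 1 * (F.t ω + h * (1 - τ₀)) +
          a 2 * (F.x ω' (c 0) + h * (1 - τ₀) * F.d ω' (c 0)))) -
        ((sc * F.x ω' (c 1) + h * (0 - τ₀) * (sc * F.d ω' (c 1))) -
        (a 0 + a 1 * (F.t ω + h * (0 - τ₀)) +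
          a 2 * (F.x ω' (c 0) + h * (0 - τ₀) * F.d ω' (c 0)))) := by ring
    rw [e1]
    exact (abs_sub _ _).trans (by linarith)
  rw [← hQ, ← hE, ← hΦ, ← ha]
  refine ⟨fun b hb0 hb1 => ?_, fun t ht => ?_, ?_⟩
  · have h2 := hpol (2 ^ W * (b 0 - F.t ω)) (2 ^ W * (b 1 - F.x ω (c 0))) (by
      rw [abs_mul, abs_of_pos pW]
      have := mul_le_mul_of_nonneg_left hb0 pW.le
      rwa [mul_div_cancel₀ _ pW.ne'] at this) (by
      rw [abs_mul, abs_of_pos pW]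
      have := mul_le_mul_of_nonneg_left hb1 pW.le
      rwa [mul_div_cancel₀ _ pW.ne'] at this)
    have e1 : F.t ω + h * (2 ^ W * (b 0 - F.t ω)) = b 0 := by
      rw [hh]
      field_simp
      ring
    have e2 : F.x ω (c 0) + h * (2 ^ W * (b 1 - F.x ω (c 0))) = b 1 := by
      rw [hh]
      field_simp
      ring
    rw [e1, e2] at h2
    rw [eval_p2 (htri 2)]
    exact h2.trans hEpE
  · obtain ⟨h2, h3⟩ := hpsi ω hωB rfl
    have h4 := h2 τ₀ hτ₀m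
    rw [sub_self, mul_zero, zero_mul, zero_mul, add_zero, add_zero, add_zero] at h4
    obtain ⟨s, hs⟩ : ∃ s : ℝ, s = 2 ^ W * (t - F.t ω) := ⟨_, rfl⟩
    have hs1 : |s| ≤ ρ := by
      rw [hs, abs_mul, abs_of_pos pW]
      have := mul_le_mul_of_nonneg_left ht pW.le
      rwa [mul_div_cancel₀ _ pW.ne'] at this
    have e0 : t = F.t ω + h * s := by
      rw [hs, hh]
      field_simp
      ring
    have ex : ∀ j, F.x ω j = F.u ω j + F.t ω * F.d ω j := fun _ => rfl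
    have e1 : sc * (F.u ω (c 1) + t * F.d ω (c 1)) -
        (a 0 + a 1 * t + a 2 * (F.u ω (c 0) + t * F.d ω (c 0))) =
        (sc * F.x ω (c 1) - (a 0 + a 1 * F.t ω + a 2 * F.x ω (c 0))) +
        s * (h * (sc * F.d ω (c 1) - a 1 - a 2 * F.d ω (c 0))) := by
      rw [e0, ex, ex]
      ring
    rw [e1]
    refine (abs_add_le _ _).trans ?_
    rw [abs_mul]
    have h5 : |s| * |h * (sc * F.d ω (c 1) - a 1 - a 2 * F.d ω (c 0))| ≤
        ρ * (2 * (M + Ep)) :=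
      mul_le_mul hs1 h3 (abs_nonneg _) hρ0
    refine (add_le_add h4 h5).trans (le_trans ?_ hEM)
    have h6 : 0 ≤ M + Ep := by linarith
    have h7 : M + Ep ≤ ρ * (M + Ep) := le_mul_of_one_le_left h6 (by linarith)
    have e2 : 3 * ρ * (M + Ep) = ρ * (M + Ep) + ρ * (2 * (M + Ep)) := by ring
    rw [e2]
    exact add_le_add h7 le_rfl
  · have h2 : ∀ i : Fin (K + 2), |sc * F.d (ν i) (c 1) - a 1 - a 2 * F.d (ν i) (c 0)| ≤
        2 * 2 ^ W * E := by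
      intro i
      have h3 := (hpsi _ (hν i).1 (hν i).2).2
      rw [abs_mul, abs_of_pos hh0] at h3
      have h4 : h * |sc * F.d (ν i) (c 1) - a 1 - a 2 * F.d (ν i) (c 0)| ≤ 2 * E :=
        h3.trans (by linarith)
      rw [hh, one_div, inv_mul_le_iff₀ pW] at h4
      linarith
    have hi : (⟨0, by omega⟩ : Fin (K + 2)) ≠ ⟨1, by omega⟩ := by
      intro h3
      have := congrArg Fin.val h3
      simp at this
    have h3 := h2 ⟨0, by omega⟩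
    have h4 := h2 ⟨1, by omega⟩
    have h5 := hsep _ _ hi
    obtain ⟨d0, hd0⟩ : ∃ d0, d0 = F.d (ν ⟨0, by omega⟩) (c 0) := ⟨_, rfl⟩
    obtain ⟨d1, hd1⟩ : ∃ d1, d1 = F.d (ν ⟨1, by omega⟩) (c 0) := ⟨_, rfl⟩
    obtain ⟨f0, hf0⟩ : ∃ f0, f0 = sc * F.d (ν ⟨0, by omega⟩) (c 1) := ⟨_, rfl⟩
    obtain ⟨f1, hf1⟩ : ∃ f1, f1 = sc * F.d (ν ⟨1, by omega⟩) (c 1) := ⟨_, rfl⟩
    have b0 : |f0| ≤ 1 := by
      rw [hf0, abs_mul, abs_of_pos hsc.pos]
      exact mul_le_one₀ hsc.le (abs_nonneg _) (F.dir _ _)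
    have b1 : |f1| ≤ 1 := by
      rw [hf1, abs_mul, abs_of_pos hsc.pos]
      exact mul_le_one₀ hsc.le (abs_nonneg _) (F.dir _ _)
    have c0 : |d0| ≤ 1 := by
      rw [hd0]
      exact F.dir _ _
    rw [← hd0, ← hd1] at h5
    rw [← hd0, ← hf0] at h3
    rw [← hd1, ← hf1] at h4
    have h6 : |a 2| * κ ≤ 2 + 4 * 2 ^ W * E := by
      have h7 : |a 2| * |d0 - d1| ≤ 2 + 4 * 2 ^ W * E := by
        rw [← abs_mul]
        have e1 : a 2 * (d0 - d1) = (f1 - a 1 - a 2 * d1) - (f0 - a 1 - a 2 * d0) + (f0 - f1) := by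
          ring
        rw [e1]
        refine (abs_add_le _ _).trans ?_
        have h8 := abs_sub (f1 - a 1 - a 2 * d1) (f0 - a 1 - a 2 * d0)
        have h9 := abs_sub f0 f1
        linarith
      exact (mul_le_mul_of_nonneg_left h5 (abs_nonneg _)).trans h7
    have h7 : |a 2| ≤ (2 + 4 * 2 ^ W * E) / κ := by
      rw [le_div_iff₀ hκ]
      exact h6
    have hX : 2 + 4 * 2 ^ W * E ≤ (2 + 4 * 2 ^ W * E) / κ := by
      have hE0 : 0 ≤ E := by linarith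
      rw [le_div_iff₀ hκ]
      have : 0 ≤ 2 + 4 * 2 ^ W * E := by positivity
      nlinarith
    have h8 : |a 1| ≤ 1 + 2 * 2 ^ W * E + |a 2| := by
      have e1 : a 1 = f0 - (f0 - a 1 - a 2 * d0) - a 2 * d0 := by ring
      have h9 : |a 1| ≤ |f0| + |f0 - a 1 - a 2 * d0| + |a 2 * d0| := by
        conv_lhs => rw [e1]
        exact (abs_sub _ _).trans (add_le_add (abs_sub _ _) le_rfl)
      have h10 : |a 2 * d0| ≤ |a 2| := by
        rw [abs_mul]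
        exact mul_le_of_le_one_right (abs_nonneg _) c0
      linarith
    have hE0 : 0 ≤ E := by linarith
    have hY : 0 ≤ 2 * 2 ^ W * E := by positivity
    have e2 : (2 + 4 * 2 ^ W * E) * 2 / κ = 2 * ((2 + 4 * 2 ^ W * E) / κ) := by ring
    rw [e2]
    constructor
    · linarith
    · linarith [abs_nonneg (a 2)]

end Pool.PLA
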