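import Pool.Agent.H24.PLN.AfF
import Pool.Agent.H54.GN.NoLb
import Pool.Agent.H40.LX.Sh
import Pool.Agent.H75.S6C.Exh

/-!
# The label over the active coordinate is affine: classes

`aff_cls`: in a class with the active coordinate `c 0`, the polynomial of the coordinate `c 1` of
closed labels on natural boxes (`NLabW`) is close to an affine function of the time and of `c 0`,
outside a part of relative probability `η` of the event, for every `η`.
-/

set_option autoImplicit false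

namespace Pool.PLA

open Finset Real MvPolynomial
open Pool.Agent.H49.Ent Pool.Agent.H32.Dense Pool.STK Pool.KA Pool.KSAT Pool.K2S Pool.PB Pool.STAT
  Pool.GEN Pool.M3F Pool.S6C
open Pool.FLF (Fam.sub)

variable {m J : ℕ}

/-- Many integers contain many integers with differences at least `2`. -/
theorem sep_int {S : Finset ℤ} {N : ℕ} (hS : 2 * N < S.card) :
    ∃ f : Fin N → ℤ, (∀ i, f i ∈ S) ∧ ∀ i j, i ≠ j → (2 : ℤ) ≤ |f i - f j| := by
  classical
  obtain ⟨b, hb⟩ : ∃ b : ℤ, N ≤ (S.filter fun x => x % 2 = b).card := by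
    by_contra hcon
    push Not at hcon
    have h0 := hcon 0
    have h1 := hcon 1
    have h2 : S.card ≤ (S.filter fun x => x % 2 = 0).card + (S.filter fun x => x % 2 = 1).card := by
      rw [← Finset.card_union_of_disjoint]
      · refine Finset.card_le_card fun x hx => ?_
        rw [Finset.mem_union, Finset.mem_filter, Finset.mem_filter]
        rcases Int.emod_two_eq_zero_or_one x with h | h
        · exact Or.inl ⟨hx, h⟩
        · exact Or.inr ⟨hx, h⟩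
      · rw [Finset.disjoint_filter]
        intro x _ h3 h4
        omega
    omega
  obtain ⟨T, hT, hTc⟩ := Finset.exists_subset_card_eq hb
  have e := T.equivFinOfCardEq hTc
  refine ⟨fun i => (e.symm i : ℤ), fun i => ?_, fun i j hij => ?_⟩
  · exact (Finset.mem_filter.1 (hT (e.symm i).2)).1
  · have h1 := (Finset.mem_filter.1 (hT (e.symm i).2)).2
    have h2 := (Finset.mem_filter.1 (hT (e.symm j).2)).2
    have h3 : ((e.symm i : T) : ℤ) ≠ (e.symm j : T) := fun h =>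
      hij (e.symm.injective (Subtype.ext h))
    have h4 : ((e.symm i : ℤ) - (e.symm j : ℤ)) % 2 = 0 := by omega
    have h5 : ((e.symm i : ℤ) - (e.symm j : ℤ)) ≠ 0 := sub_ne_zero.2 h3
    show (2 : ℤ) ≤ |(e.symm i : ℤ) - (e.symm j : ℤ)|
    rcases abs_cases ((e.symm i : ℤ) - (e.symm j : ℤ)) with h6 | h6 <;> omega

/-- **Separated velocities from entropy.** -/
theorem nod_of (N : ℕ) {F : Fam m J} {B : F.Ω → Prop} (hB : 0 < Pe F.p B) {κ : Fin m} {g : ℕ}
    {U : Type} {Φ : F.Ω → U}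
    (h : ∀ B₀ : F.Ω → Prop, Sub B₀ B → Pe F.p B / 2 < Pe F.p B₀ → Real.log (2 * N) <
      CH (Pool.Agent.H49.Ent.cond F.p B₀ True) (fun ω => F.D g ω κ) Φ) :
    ∃ B' : F.Ω → Prop, Sub B' B ∧ Pe F.p B / 2 ≤ Pe F.p B' ∧ ∀ ω, B' ω →
      ∃ ν : Fin N → F.Ω, (∀ i, B (ν i) ∧ Φ (ν i) = Φ ω) ∧
        ∀ i j, i ≠ j → 1 / (2 : ℝ) ^ g ≤ |F.d (ν i) κ - F.d (ν j) κ| := by
  classical
  obtain ⟨S, hS⟩ : ∃ S : U → Finset ℤ, S = fun u =>
    (univ.filter fun ω => B ω ∧ Φ ω = u).image fun ω => F.D g ω κ := ⟨_, rfl⟩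
  refine ⟨fun ω => B ω ∧ 2 * N < (S (Φ ω)).card, fun ω hω => hω.1, ?_, ?_⟩
  · have h1 := Pe_parts (p := F.p) (B := B) (B' := fun ω => B ω ∧ 2 * N < (S (Φ ω)).card)
      fun ω hω => hω.1
    by_contra hcon
    rw [not_le] at hcon
    have h2 : Pe F.p B / 2 < Pe F.p (fun ω => B ω ∧ ¬ (B ω ∧ 2 * N < (S (Φ ω)).card)) := by
      linarith
    have h3 := h _ (fun ω hω => hω.1) h2
    refine absurd h3 (not_lt.2 ?_)
    have hq := isLaw_cond F.isLaw ((by linarith : 0 ≤ Pe F.p B / 2).trans_lt h2)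
    refine Pool.LX.CH_le_log hq _ _ S (fun ω hω => ?_) fun ω hω => ?_
    · have h4 := ((cond_pos_iff F.isLaw.nonneg _ _ _).1 hω).2
      have h5 := of_eq_true h4
      rw [hS]
      exact Finset.mem_image.2 ⟨ω, Finset.mem_filter.2 ⟨Finset.mem_univ _, h5.1, rfl⟩, rfl⟩
    · have h4 := ((cond_pos_iff F.isLaw.nonneg _ _ _).1 hω).2
      have h5 := of_eq_true h4
      have h6 : (S (Φ ω)).card ≤ 2 * N := by
        by_contra h7
        exact h5.2 ⟨h5.1, not_le.1 h7⟩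
      exact_mod_cast h6
  · rintro ω ⟨hω, hc⟩
    obtain ⟨f, hf, hsep⟩ := sep_int hc
    have hex : ∀ i, ∃ ω', (B ω' ∧ Φ ω' = Φ ω) ∧ F.D g ω' κ = f i := by
      intro i
      have h1 := hf i
      rw [hS] at h1
      obtain ⟨ω', h2, h3⟩ := Finset.mem_image.1 h1
      exact ⟨ω', (Finset.mem_filter.1 h2).2, h3⟩
    choose ν hν hνf using hex
    refine ⟨ν, hν, fun i j hij => ?_⟩
    have h1 := hsep i j hij
    rw [← hνf i, ← hνf j] at h1
    have h2 : (2 : ℝ) ≤ |(F.D g (ν i) κ : ℝ) - F.D g (ν j) κ| := by exact_mod_cast h1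
    have a1 : (F.D g (ν i) κ : ℝ) ≤ 2 ^ g * F.d (ν i) κ := Int.floor_le _
    have a2 : 2 ^ g * F.d (ν i) κ < (F.D g (ν i) κ : ℝ) + 1 := Int.lt_floor_add_one _
    have b1 : (F.D g (ν j) κ : ℝ) ≤ 2 ^ g * F.d (ν j) κ := Int.floor_le _
    have b2 : 2 ^ g * F.d (ν j) κ < (F.D g (ν j) κ : ℝ) + 1 := Int.lt_floor_add_one _
    rw [div_le_iff₀ (by positivity)]
    have e1 : |F.d (ν i) κ - F.d (ν j) κ| * 2 ^ g =
        |2 ^ g * F.d (ν i) κ - 2 ^ g * F.d (ν j) κ| := by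
      rw [← mul_sub, abs_mul, abs_of_pos (by positivity : (0 : ℝ) < 2 ^ g), mul_comm]
    rw [e1]
    rcases le_abs'.1 h2 with h3 | h3
    · rw [abs_of_nonpos (by linarith)]
      linarith
    · rw [abs_of_nonneg (by linarith)]
      linarith

/-- Statements about all members hold for all large events of the members. -/
theorem bas_large {S : PCl m} {Φ : Stat m} (h : Bas S Φ) {κ : ℝ} (hκ : 0 < κ) :
    Bas S (fun J F A => ∀ B : F.Ω → Prop, Sub B A → κ * Pe F.p A ≤ Pe F.p B → Φ J F B) := by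
  obtain ⟨τ, hτ, J₁, h⟩ := h
  obtain ⟨J₂, hJ₂⟩ := exists_nat_ge (-Real.log κ / (τ / 2))
  refine ⟨τ / 2, by positivity, max J₁ J₂, fun J hJ F A hA B hB hP => ?_⟩
  refine h J ((le_max_left _ _).trans hJ) F B ?_
  have h1 := S.res (τ := τ / 2) (τ' := τ / 2) (by positivity) hA hB (by
    refine le_trans (mul_le_mul_of_nonneg_right ?_ (Pe_nonneg F.isLaw A)) hP
    have hJ' : (J₂ : ℝ) ≤ J := by exact_mod_cast (le_max_right _ _).trans hJ
    have h2 : -Real.log κ / (τ / 2) ≤ J := hJ₂.trans hJ'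
    rw [div_le_iff₀ (by positivity)] at h2
    have h3 : -(τ / 2 * (J : ℝ)) ≤ Real.log κ := by linarith
    exact (Real.exp_le_exp.2 h3).trans (Real.exp_log hκ).le)
  rwa [add_halves] at h1

theorem big_ex (x : ℝ) {s : ℝ} (hs : 0 < s) : ∃ J₀ : ℕ, ∀ J : ℕ, J₀ ≤ J → x ≤ s * J := by
  obtain ⟨J₀, hJ₀⟩ := exists_nat_ge (x / s)
  refine ⟨J₀, fun J hJ => ?_⟩
  have h1 : x / s ≤ J := hJ₀.trans (by exact_mod_cast hJ)
  rw [div_le_iff₀ hs] at h1
  linarith

/-- Powers of two below exponentials. -/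
theorem two_le_exp (n : ℕ) : (2 : ℝ) ^ n ≤ Real.exp n := by
  have h1 : (2 : ℝ) ≤ Real.exp 1 := by
    have := Real.add_one_le_exp (1 : ℝ)
    linarith
  calc (2 : ℝ) ^ n ≤ Real.exp 1 ^ n := pow_le_pow_left₀ (by norm_num) h1 n
    _ = Real.exp n := by rw [← Real.exp_nat_mul, mul_one]

theorem two_div_exp {a b : ℕ} {x : ℝ} (h : (a : ℝ) ≤ b + x) (hx : 0 ≤ x) :
    (2 : ℝ) ^ a / 2 ^ b ≤ Real.exp x := by
  rcases Nat.lt_or_ge b a with h1 | h1
  · have e1 : (2 : ℝ) ^ a / 2 ^ b = 2 ^ (a - b) := by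
      rw [div_eq_iff (by positivity), ← pow_add, Nat.sub_add_cancel h1.le]
    rw [e1]
    refine (two_le_exp _).trans (Real.exp_le_exp.2 ?_)
    rw [Nat.cast_sub h1.le]
    linarith
  · have h2 : (2 : ℝ) ^ a ≤ 2 ^ b := pow_le_pow_right₀ one_le_two h1
    have h3 : (2 : ℝ) ^ a / 2 ^ b ≤ 1 := by
      rw [div_le_one (by positivity)]
      exact h2
    exact h3.trans (Real.one_le_exp hx)

/-- **The label over the active coordinate is affine**, in a class. -/
theorem aff_cls (K : ℕ) (r : ℕ) {S : PCl m}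
    (hpos : ∀ (τ : ℝ) (J : ℕ) (F : Fam m J) (A : F.Ω → Prop), S.St τ J F A → 0 < Pe F.p A)
    (hTm : ∀ ε : ℝ, 0 < ε → Bas S (fun J F A => ∀ h : 0 < Pe F.p A,
      (Fam.sub F A h).Tm (ε * J)))
    {N : ℚ → ℚ → ℝ} {al : ℝ} (hal : 0 < al) (hQ : ActQ N al) {c : ℕ → Fin m}
    (hact : ActB N S (c 0)) {w : ℝ} (hw0 : 0 ≤ w) (hw1 : w < 1) {φ η : ℝ} (hφ : 0 < φ)
    (hη : 0 < η) :
    ∃ δ : ℝ, 0 < δ ∧ Bas S (fun J F A => ∀ (g' : ℕ → ℕ) (sg : ℕ) (sc L : ℝ) (V : Type)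
      (z : PtT F → V) (z' : LnT F → V) (P : V → ℕ → PN),
      Scf r sg sc → (⌊w * J⌋₊ : ℝ) ≤ g' 0 + δ * J → g' 0 ≤ J → (⌊w * J⌋₊ : ℝ) ≤ g' 1 + δ * J → g' 1 ≤ J →
      0 ≤ L → Real.log (1 + L) ≤ δ * J → NLabW F c r ⌊w * J⌋₊ sg g' K L A z z' P →
      ∃ B : F.Ω → Prop, Sub B A ∧ (1 - η) * Pe F.p A ≤ Pe F.p B ∧ ∀ ω, B ω →
        AffZ F c ⌊w * J⌋₊ sc (Real.exp (2 * δ * J)) (Real.exp (φ * J) / 2 ^ g' 1)
          (Real.exp (φ * J)) (P (z (ptr F J ω)) 2)
          (az ⌊w * J⌋₊ (P (z (ptr F J ω)))) ω) := by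
  classical
  obtain ⟨C, hC, hfam⟩ := aff_fam m K
  have hC0 : 0 < C := by linarith
  have hl2 : 0 < Real.log 2 := Real.log_pos one_lt_two
  have hl1 : Real.log 2 ≤ 1 := by
    have := Real.log_two_lt_d9
    linarith
  obtain ⟨D, hD⟩ : ∃ D : ℝ, D = min φ ((1 - w) * Real.log 2) := ⟨_, rfl⟩
  have hD0 : 0 < D := by
    rw [hD]
    exact lt_min hφ (mul_pos (by linarith) hl2)
  have hDφ : D ≤ φ := by
    rw [hD]
    exact min_le_left _ _
  have hDw : D ≤ (1 - w) * Real.log 2 := by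
    rw [hD]
    exact min_le_right _ _
  obtain ⟨q, hq⟩ : ∃ q : ℝ, q = D / (32 * C * (K + 3)) := ⟨_, rfl⟩
  have hK3 : (0 : ℝ) < K + 3 := by positivity
  have hq0 : 0 < q := by
    rw [hq]
    positivity
  have hqD : C * (K + 3) * q = D / 32 := by
    rw [hq]
    field_simp
  have hq1 : (K + 3) * q ≤ D / 32 := by
    rw [← hqD, mul_assoc]
    exact le_mul_of_one_le_left (by positivity) hC
  have hq2 : C * q ≤ D / 32 := by
    rw [← hqD]
    have : (1 : ℝ) ≤ K + 3 := by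
      have : (0 : ℝ) ≤ K := Nat.cast_nonneg K
      linarith
    calc C * q = C * 1 * q := by ring
      _ ≤ C * (K + 3) * q := mul_le_mul_of_nonneg_right
          (mul_le_mul_of_nonneg_left this hC0.le) hq0.le
  have hq3 : q ≤ D / 32 := (le_mul_of_one_le_left hq0.le hC).trans hq2
  obtain ⟨ca, hca, hact1⟩ := act_dir hal hQ hact
    ⟨1, one_pos, 0, fun J _ F A hA => hpos 1 J F A hA⟩ hq0
  have hb1 := bas_large (hTm q hq0) hη
  have hb2 := bas_large hact1 (κ := η / 4) (by positivity)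
  obtain ⟨J₁, hJ₁⟩ := big_ex (Real.log (2 * (K + 2 : ℕ)) + 1) hca
  obtain ⟨J₂, hJ₂⟩ := big_ex (Real.log 4) hq0
  obtain ⟨J₃, hJ₃⟩ := big_ex (Real.log 16 + Real.log C + C) (s := D / 32) (by positivity)
  refine ⟨q, hq0, ?_⟩
  refine (hb1.and (hb2.and (⟨1, one_pos, 0, fun J _ F A hA => hpos 1 J F A hA⟩ :
    Bas S (fun _ F A => 0 < Pe F.p A)))).mono (max (max J₁ J₂) (max J₃ 1)) ?_
  rintro J hJ F A ⟨ht, ha, hpA⟩ g' sg sc L V z z' P hsc hg0 hg0J hg1 hg1J hL hLδ hN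
  have hJp : (1 : ℝ) ≤ J := by
    exact_mod_cast (le_max_right J₃ 1).trans ((le_max_right _ _).trans hJ)
  have hJ0 : (0 : ℝ) ≤ J := by linarith
  have f1 := hJ₁ J ((le_max_left _ _).trans ((le_max_left _ _).trans hJ))
  have f2 := hJ₂ J ((le_max_right _ _).trans ((le_max_left _ _).trans hJ))
  have f3 := hJ₃ J ((le_max_left _ _).trans ((le_max_right _ _).trans hJ))
  obtain ⟨W, hWe⟩ : ∃ W, W = ⌊w * J⌋₊ := ⟨_, rfl⟩
  rw [← hWe] at hN hg0 hg1 ⊢
  have hWw : (W : ℝ) ≤ w * J := by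
    rw [hWe]
    exact Nat.floor_le (by positivity)
  have hWJ : W ≤ J := by
    have : (W : ℝ) ≤ J := hWw.trans (by nlinarith)
    exact_mod_cast this
  obtain ⟨X, hX⟩ : ∃ X : ℝ, X = q * J := ⟨_, rfl⟩
  have hX0 : 0 ≤ X := by
    rw [hX]
    positivity
  rw [← hX] at hg0 hg1 hLδ f2
  obtain ⟨Y, hY⟩ : ∃ Y : ℝ, Y = D / 32 * J := ⟨_, rfl⟩
  have hY0 : 0 ≤ Y := by
    rw [hY]
    positivity
  rw [← hY] at f3
  have hXK : (K + 3) * X ≤ Y := by
    rw [hX, hY, ← mul_assoc]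
    exact mul_le_mul_of_nonneg_right hq1 hJ0
  have hXC : C * X ≤ Y := by
    rw [hX, hY, ← mul_assoc]
    exact mul_le_mul_of_nonneg_right hq2 hJ0
  have hX1 : X ≤ Y := by
    rw [hX, hY]
    exact mul_le_mul_of_nonneg_right hq3 hJ0
  have hYφ : 32 * Y ≤ φ * J := by
    have e1 : 32 * Y = D * J := by
      rw [hY]
      ring
    rw [e1]
    exact mul_le_mul_of_nonneg_right hDφ hJ0
  have hYw : 32 * Y ≤ ((J : ℝ) - W) * Real.log 2 := by
    have e1 : 32 * Y = D * J := by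
      rw [hY]
      ring
    rw [e1]
    calc D * J ≤ (1 - w) * Real.log 2 * J := mul_le_mul_of_nonneg_right hDw hJ0
      _ = (J - w * J) * Real.log 2 := by ring
      _ ≤ (J - W) * Real.log 2 := mul_le_mul_of_nonneg_right (by linarith) hl2.le
  have e2X : Real.exp (2 * q * J) = Real.exp X * Real.exp X := by
    rw [← Real.exp_add, hX]
    congr 1
    ring
  have hX4 : 4 ≤ Real.exp X := by
    have := Real.exp_le_exp.2 f2
    rwa [Real.exp_log (by norm_num)] at this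
  have hL1 : 1 + L ≤ Real.exp X := by
    rw [← Real.log_le_iff_le_exp (by linarith)]
    exact hLδ
  have hlogC : 0 ≤ Real.log C := Real.log_nonneg hC
  have hlog16 : 0 ≤ Real.log 16 := Real.log_nonneg (by norm_num)
  -- the bad event
  obtain ⟨Aff, hAff⟩ : ∃ Aff : F.Ω → Prop, Aff = fun ω =>
    AffZ F c W sc (Real.exp (2 * q * J)) (Real.exp (φ * J) / 2 ^ g' 1) (Real.exp (φ * J))
      (P (z (ptr F J ω)) 2) (az W (P (z (ptr F J ω)))) ω := ⟨_, rfl⟩
  refine ⟨fun ω => A ω ∧ Aff ω, fun ω hω => hω.1, ?_, fun ω hω => by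
    have := hω.2
    rw [hAff] at this
    exact this⟩
  by_contra hcon
  push Not at hcon
  obtain ⟨Bad, hBad⟩ : ∃ Bad : F.Ω → Prop, Bad = fun ω => A ω ∧ ¬ (A ω ∧ Aff ω) := ⟨_, rfl⟩
  have hBA : Sub Bad A := by
    intro ω hω
    rw [hBad] at hω
    exact hω.1
  have hparts := Pe_parts (p := F.p) (B := A) (B' := fun ω => A ω ∧ Aff ω) fun ω hω => hω.1
  rw [← hBad] at hparts
  have hPB : η * Pe F.p A ≤ Pe F.p Bad := by nlinarith
  have hB0 : 0 < Pe F.p Bad := lt_of_lt_of_le (mul_pos hη hpA) hPB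
  obtain ⟨g, hg⟩ : ∃ g : ℕ, g = ⌊q * J⌋₊ := ⟨_, rfl⟩
  have hgX : (g : ℝ) ≤ X := by
    rw [hg, hX]
    exact Nat.floor_le (by positivity)
  obtain ⟨κ, hκ⟩ : ∃ κ : ℝ, κ = 1 / 2 ^ g := ⟨_, rfl⟩
  have hκ0 : 0 < κ := by
    rw [hκ]
    positivity
  have hκ1 : κ ≤ 1 := by
    rw [hκ, div_le_one (by positivity)]
    exact one_le_pow₀ one_le_two
  have hκi : 1 / κ ≤ Real.exp X := by
    rw [hκ, one_div_one_div]
    exact (two_le_exp g).trans (Real.exp_le_exp.2 hgX)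
  have hκK : (1 / κ) ^ (K + 1) ≤ Real.exp Y := by
    calc (1 / κ) ^ (K + 1) ≤ Real.exp X ^ (K + 1) :=
          pow_le_pow_left₀ (by positivity) hκi _
      _ = Real.exp ((K + 1 : ℕ) * X) := by rw [← Real.exp_nat_mul]
      _ ≤ Real.exp Y := Real.exp_le_exp.2 (by
          push_cast
          nlinarith)
  have hCexp : C ≤ Real.exp Y := by
    have h1 : Real.log C ≤ Y := by linarith
    have := Real.exp_le_exp.2 h1
    rwa [Real.exp_log hC0] at this
  obtain ⟨B, hBB, hPB', hB⟩ := hfam F Bad hB0 (κ := κ) (ρ := Real.exp (2 * q * J)) (θ := X)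
    (nlabw_mono hN hBA) hsc hWJ hg0J hg1J hL hX0 (by
      rw [hX]
      exact ht Bad hBA hPB hB0) (by
      have h1 : C ≤ Y := by linarith
      calc C * (X + 1) = C * X + C := by ring
        _ ≤ Y + Y := add_le_add hXC h1
        _ ≤ 32 * Y := by linarith
        _ ≤ _ := hYw) hκ0 hκ1 (by
      have h1 : (2 : ℝ) ^ W / 2 ^ g' 0 ≤ Real.exp X := two_div_exp hg0 hX0
      rw [e2X]
      nlinarith) (by
      have h1 : (2 : ℝ) ^ W / 2 ^ J ≤ Real.exp (-(32 * Y)) := by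
        have e1 : (2 : ℝ) ^ W / 2 ^ J = Real.exp (-(((J : ℝ) - W) * Real.log 2)) := by
          rw [show (2 : ℝ) ^ W = Real.exp (W * Real.log 2) by
            rw [Real.exp_nat_mul, Real.exp_log (by norm_num)],
            show (2 : ℝ) ^ J = Real.exp (J * Real.log 2) by
            rw [Real.exp_nat_mul, Real.exp_log (by norm_num)], ← Real.exp_sub]
          congr 1
          ring
        rw [e1]
        exact Real.exp_le_exp.2 (by linarith)
      calc C * (1 / κ) ^ (K + 1) * (2 ^ W / 2 ^ J) ≤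
            Real.exp Y * Real.exp Y * Real.exp (-(32 * Y)) :=
            mul_le_mul (mul_le_mul hCexp hκK (by positivity) (Real.exp_pos _).le) h1
              (by positivity) (by positivity)
        _ = Real.exp (Y + Y + -(32 * Y)) := by rw [Real.exp_add, Real.exp_add]
        _ ≤ 1 := by
            rw [← Real.exp_zero]
            exact Real.exp_le_exp.2 (by linarith)) (by
      intro B₁ hB₁ hPB₁
      have hB₁0 : 0 < Pe F.p B₁ := lt_of_lt_of_le (by linarith) hPB₁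
      obtain ⟨B', h1, h2, h3⟩ := nod_of (K + 2) (Φ := ptr F J) (κ := c 0) (g := g) hB₁0 (by
        intro B₀ hB₀ hPB₀
        have h4 := ha B₀ (fun ω hω => hBA ω (hB₁ ω (hB₀ ω hω))) (by
          have : η / 4 * Pe F.p A = η * Pe F.p A / 4 := by ring
          rw [this]
          linarith)
        rw [← hg] at h4
        exact lt_of_lt_of_le (by linarith) h4)
      refine ⟨B', h1, h2, fun ω hω => ?_⟩
      obtain ⟨ν, h4, h5⟩ := h3 ω hω
      refine ⟨ν, h4, fun i j hij => ?_⟩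
      rw [hκ]
      exact h5 i j hij)
  -- a contradiction
  have hBpos : 0 < Pe F.p B := lt_of_lt_of_le (by linarith) hPB'
  obtain ⟨ω, hω⟩ : ∃ ω, B ω := by
    by_contra h
    push Not at h
    have h1 : Pe F.p B = 0 := by
      rw [Pe_eq]
      exact Finset.sum_eq_zero fun ω _ => if_neg (h ω)
    linarith
  have h1 := hB ω hω
  have h2 := hBB ω hω
  rw [hBad] at h2
  refine h2.2 ⟨h2.1, ?_⟩
  rw [hAff]
  -- the constants
  have hρK : Real.exp (2 * q * J) ^ (K + 3) ≤ Real.exp (2 * Y) := by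
    rw [← Real.exp_nat_mul]
    refine Real.exp_le_exp.2 ?_
    have e1 : ((K + 3 : ℕ) : ℝ) * (2 * q * J) = 2 * ((K + 3) * X) := by
      rw [hX]
      push_cast
      ring
    rw [e1]
    linarith
  have hC1 : Real.exp (C * (X + 1)) ≤ Real.exp (2 * Y) := by
    refine Real.exp_le_exp.2 ?_
    have h3 : C ≤ Y := by linarith
    calc C * (X + 1) = C * X + C := by ring
      _ ≤ 2 * Y := by linarith
  have hL2 : 1 + L ≤ Real.exp Y := hL1.trans (Real.exp_le_exp.2 hX1)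
  have hE : C * (1 / κ) ^ (K + 1) * Real.exp (2 * q * J) ^ (K + 3) *
      (Real.exp (C * (X + 1)) * (1 + L)) ≤ Real.exp (7 * Y) := by
    calc C * (1 / κ) ^ (K + 1) * Real.exp (2 * q * J) ^ (K + 3) *
        (Real.exp (C * (X + 1)) * (1 + L)) ≤
        Real.exp Y * Real.exp Y * Real.exp (2 * Y) * (Real.exp (2 * Y) * Real.exp Y) :=
          mul_le_mul (mul_le_mul (mul_le_mul hCexp hκK (by positivity) (Real.exp_pos _).le)
            hρK (by positivity) (by positivity)) (mul_le_mul hC1 hL2 (by linarith)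
            (Real.exp_pos _).le) (by positivity) (by positivity)
      _ = Real.exp (7 * Y) := by
          rw [← Real.exp_add, ← Real.exp_add, ← Real.exp_add, ← Real.exp_add]
          congr 1
          ring
  have pg : (0 : ℝ) < 2 ^ g' 1 := by positivity
  have hE1 : C * (1 / κ) ^ (K + 1) * Real.exp (2 * q * J) ^ (K + 3) *
      (Real.exp (C * (X + 1)) * (1 + L)) / 2 ^ g' 1 ≤ Real.exp (φ * J) / 2 ^ g' 1 := by
    refine div_le_div_of_nonneg_right (hE.trans (Real.exp_le_exp.2 ?_)) pg.le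
    linarith
  have h16 : 16 ≤ Real.exp Y := by
    have h3 : Real.log 16 ≤ Y := by linarith
    have := Real.exp_le_exp.2 h3
    rwa [Real.exp_log (by norm_num)] at this
  have hE2 : (2 + 4 * 2 ^ W * (C * (1 / κ) ^ (K + 1) * Real.exp (2 * q * J) ^ (K + 3) *
      (Real.exp (C * (X + 1)) * (1 + L)) / 2 ^ g' 1)) * 2 / κ ≤ Real.exp (φ * J) := by
    obtain ⟨E, hEe⟩ : ∃ E : ℝ, E = C * (1 / κ) ^ (K + 1) * Real.exp (2 * q * J) ^ (K + 3) *
      (Real.exp (C * (X + 1)) * (1 + L)) := ⟨_, rfl⟩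
    rw [← hEe] at hE ⊢
    have hE0 : 0 ≤ E := by
      rw [hEe]
      positivity
    have h3 : (2 : ℝ) ^ W / 2 ^ g' 1 ≤ Real.exp X := two_div_exp hg1 hX0
    have h4 : (2 : ℝ) ^ W * (E / 2 ^ g' 1) ≤ Real.exp (8 * Y) := by
      have e1 : (2 : ℝ) ^ W * (E / 2 ^ g' 1) = 2 ^ W / 2 ^ g' 1 * E := by ring
      rw [e1]
      calc 2 ^ W / 2 ^ g' 1 * E ≤ Real.exp Y * Real.exp (7 * Y) :=
            mul_le_mul (h3.trans (Real.exp_le_exp.2 hX1)) hE hE0 (Real.exp_pos _).le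
        _ = Real.exp (8 * Y) := by
            rw [← Real.exp_add]
            congr 1
            ring
    have h5 : 1 ≤ Real.exp (8 * Y) := Real.one_le_exp (by positivity)
    have h6 : (2 + 4 * 2 ^ W * (E / 2 ^ g' 1)) * 2 ≤ 16 * Real.exp (8 * Y) := by
      have : 4 * 2 ^ W * (E / 2 ^ g' 1) = 4 * (2 ^ W * (E / 2 ^ g' 1)) := by ring
      rw [this]
      linarith
    calc (2 + 4 * 2 ^ W * (E / 2 ^ g' 1)) * 2 / κ =
          (2 + 4 * 2 ^ W * (E / 2 ^ g' 1)) * 2 * (1 / κ) := by ring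
      _ ≤ 16 * Real.exp (8 * Y) * Real.exp X :=
          mul_le_mul h6 hκi (by positivity) (by positivity)
      _ ≤ Real.exp Y * Real.exp (8 * Y) * Real.exp Y :=
          mul_le_mul (mul_le_mul_of_nonneg_right h16 (Real.exp_pos _).le)
            (Real.exp_le_exp.2 hX1) (Real.exp_pos _).le (by positivity)
      _ = Real.exp (10 * Y) := by
          rw [← Real.exp_add, ← Real.exp_add]
          congr 1
          ring
      _ ≤ Real.exp (φ * J) := Real.exp_le_exp.2 (by linarith)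
  exact ⟨fun b hb0 hb1 => (h1.pol b hb0 hb1).trans hE1, fun t ht => (h1.lin t ht).trans hE1,
    h1.slp.1.trans hE2, h1.slp.2.trans hE2⟩

end Pool.PLA
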