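import Pool.Agent.H24.PLN.Bx

/-!
# The labels of a coordinate over the active coordinate are affine: the statement in a class
-/

set_option autoImplicit false

namespace Pool.PLA

open Finset Real MvPolynomial
open Pool.Agent.H49.Ent Pool.Agent.H32.Dense Pool.STK Pool.KA Pool.KSAT Pool.K2S Pool.PB Pool.STAT
  Pool.GEN Pool.M3F Pool.S6C
open Pool.FLF (Fam.sub)
open Pool.PB.Trl (rt rt_mem t_rt)
open Pool.PLN (Nums Dat ex af pA EzS BoxS AffS)

variable {m : ℕ}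

/-- **The labels of a coordinate over the active coordinate are affine.** -/
theorem affs (K : ℕ) {S : PCl m}
    (hpos : ∀ (τ : ℝ) (J : ℕ) (F : Fam m J) (A : F.Ω → Prop), S.St τ J F A → 0 < Pe F.p A)
    (hTm : ∀ ε : ℝ, 0 < ε → Bas S (fun J F A => ∀ h : 0 < Pe F.p A,
      (Fam.sub F A h).Tm (ε * J)))
    (hx : ∀ (τ : ℝ) (J : ℕ) (F : Fam m J) (A : F.Ω → Prop), S.St τ J F A →
      ∀ ω i, |F.x ω i| ≤ 2)
    {N : ℚ → ℚ → ℝ} {al : ℝ} (hal : 0 < al) (hQ : ActQ N al) {c : ℕ → Fin m}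
    (hact : ActB N S (c 0)) {w g0 g1 : ℝ} (hw0 : 0 ≤ w) (hw1 : w < 1) (hg0 : w ≤ g0)
    (hg01 : g0 < 1) (hg1 : w ≤ g1) {b c₀ : ℝ} (hb : 0 < b) (hc : 0 < c₀) :
    AffS S c w g0 g1 K b c₀ := by
  have hlg : 0 < Real.log 2 := Real.log_pos one_lt_two
  obtain ⟨δ, hδ, haff⟩ := aff_cls K 1 hpos hTm hal hQ hact hw0 hw1 (φ := b * Real.log 2 / 2)
    (η := c₀) (by positivity) hc
  obtain ⟨J₁, hJ₁⟩ := big_ex (Real.log 6) (s := b * Real.log 2 / 2) (by positivity)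
  refine ⟨min δ (1 - g0), lt_min hδ (by linarith), ?_⟩
  refine (haff.and (⟨1, one_pos, 0, fun J _ F A hA => hx 1 J F A hA⟩ :
    Bas S (fun _ F _ => ∀ ω i, |F.x ω i| ≤ 2))).mono J₁ ?_
  rintro J hJ F A ⟨ha, hxA⟩ V z z' P g' sg L h0 h1 h1J hL hL1 hN
  have hJ0 : (0 : ℝ) ≤ J := Nat.cast_nonneg J
  have f1 := hJ₁ J hJ
  have hφ1 : min δ (1 - g0) * J ≤ δ * J := mul_le_mul_of_nonneg_right (min_le_left _ _) hJ0
  have hφ2 : min δ (1 - g0) * J ≤ (1 - g0) * J :=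
    mul_le_mul_of_nonneg_right (min_le_right _ _) hJ0
  have hWw : (⌊w * J⌋₊ : ℝ) ≤ w * J := Nat.floor_le (by positivity)
  have k0 := mul_le_mul_of_nonneg_right hg0 hJ0
  have k1 := mul_le_mul_of_nonneg_right hg1 hJ0
  rw [abs_le] at h0 h1
  have hg0J : g' 0 ≤ J := by
    have : (g' 0 : ℝ) ≤ J := by linarith [h0.2]
    exact_mod_cast this
  obtain ⟨B, hBA, hPB, hB⟩ := ha g' sg (1 / 2 ^ sg) L V z z' P (Or.inr ⟨rfl, rfl⟩)
    (by linarith [h0.1]) hg0J (by linarith [h1.1]) h1J hL (hL1.trans hφ1) hN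
  have psg : (0 : ℝ) < 2 ^ sg := by positivity
  have pg : (0 : ℝ) < 2 ^ g' 1 := by positivity
  obtain ⟨E, hE⟩ : ∃ E : ℝ, E = Real.exp (b * Real.log 2 / 2 * J) := ⟨_, rfl⟩
  have hE1 : 1 ≤ E := by
    rw [hE]
    exact Real.one_le_exp (by positivity)
  have hE6 : 6 * E ≤ ex (-b) J := by
    have h6 : 6 ≤ E := by
      have := Real.exp_le_exp.2 f1
      rw [Real.exp_log (by norm_num)] at this
      rwa [hE]
    rw [ex_neg]
    calc 6 * E ≤ E * E := mul_le_mul_of_nonneg_right h6 (by linarith)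
      _ = Real.exp (b * Real.log 2 * J) := by
          rw [hE, ← Real.exp_add]
          congr 1
          ring
  obtain ⟨W, hW⟩ : ∃ W, W = ⌊w * J⌋₊ := ⟨_, rfl⟩
  rw [← hW, ← hE] at hB
  refine ⟨B, fun v i => 2 ^ sg * az W (P v) i, hBA, hPB, fun ω hω => ?_⟩
  show |F.x ω (c 1) - af (fun i => 2 ^ sg * az W (P (z (ptr F J ω))) i) (F.t ω)
    (F.x ω (c 0))| ≤ _ ∧ ∀ i, |2 ^ sg * az W (P (z (ptr F J ω))) i| ≤ _
  obtain ⟨a, ha'⟩ : ∃ a, a = az W (P (z (ptr F J ω))) := ⟨_, rfl⟩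
  have h2 := (hB ω hω).lin (F.t ω) (by
    rw [sub_self, abs_zero]
    positivity)
  have hs := (hB ω hω).slp
  rw [← ha'] at h2 hs ⊢
  have e1 : F.x ω (c 1) - af (fun i => 2 ^ sg * a i) (F.t ω) (F.x ω (c 0)) =
      2 ^ sg * (1 / 2 ^ sg * (F.u ω (c 1) + F.t ω * F.d ω (c 1)) -
        (a 0 + a 1 * F.t ω + a 2 * (F.u ω (c 0) + F.t ω * F.d ω (c 0)))) := by
    unfold af Fam.x
    field_simp
  have hEe : E ≤ ex (-b) J := by linarith
  refine ⟨?_, ?_⟩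
  · rw [e1, abs_mul, abs_of_pos psg]
    calc 2 ^ sg * |1 / 2 ^ sg * (F.u ω (c 1) + F.t ω * F.d ω (c 1)) -
        (a 0 + a 1 * F.t ω + a 2 * (F.u ω (c 0) + F.t ω * F.d ω (c 0)))| ≤
          2 ^ sg * (E / 2 ^ g' 1) := mul_le_mul_of_nonneg_left h2 psg.le
      _ = 2 ^ sg / 2 ^ g' 1 * E := by ring
      _ ≤ 2 ^ sg / 2 ^ g' 1 * ex (-b) J := mul_le_mul_of_nonneg_left hEe (by positivity)
  · have ht1 : |F.t ω| ≤ 1 := by
      have h2 : 0 ≤ F.t ω := by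
        unfold Fam.t
        positivity
      have h3 : F.t ω ≤ 1 := by
        unfold Fam.t
        rw [div_le_one (by positivity)]
        exact_mod_cast (F.tim ω).le
      rw [abs_of_nonneg h2]
      exact h3
    have hx1 : |1 / 2 ^ sg * (F.u ω (c 1) + F.t ω * F.d ω (c 1))| ≤ 2 := by
      rw [abs_mul, abs_of_pos (by positivity : (0 : ℝ) < 1 / 2 ^ sg)]
      have h3 : (1 : ℝ) / 2 ^ sg ≤ 1 := by
        rw [div_le_one psg]
        exact one_le_pow₀ one_le_two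
      exact (mul_le_of_le_one_left (abs_nonneg _) h3).trans (hxA ω (c 1))
    have h0' : |a 0| ≤ 6 * E := num_a hs.1 hs.2 hx1 (hxA ω (c 0)) ht1 h2
      (div_le_self (by linarith) (one_le_pow₀ one_le_two)) hE1
    have hall : ∀ i, |a i| ≤ ex (-b) J := by
      intro i
      match i with
      | 0 => exact h0'.trans hE6
      | 1 => exact hs.1.trans hEe
      | 2 => exact hs.2.trans hEe
    intro i
    rw [abs_mul, abs_of_pos psg]
    exact mul_le_mul_of_nonneg_left (hall i) psg.le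

end Pool.PLA
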