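import Pool.Agent.H63.STAT.Clo
import Pool.Agent.H20.KAL.TAY
import Pool.Agent.H84.KBOX.BlkA
import Pool.Agent.H35.SYS.Bxn

/-!
# A polynomial in two variables which is affine along many lines through one point

`fan_aff`: if a polynomial `G (t, y)` of degree at most `K` is close to an affine function along
`K + 1` lines with separated velocities, which pass close to one point, it is close to an affine
function on the whole box.
-/

set_option autoImplicit false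

namespace Pool.PLA

open Finset MvPolynomial
open Pool.STAT (PN)
open Pool.STAT.CLO (n1 n1_eq n1_nonneg n1_of_cube eval_le)

/-- The point with the coordinates `t, y`. -/
def p2 (t y : ℝ) (i : ℕ) : ℝ := if i = 0 then t else if i = 1 then y else 0

theorem p2_zero (t y : ℝ) : p2 t y 0 = t := rfl

theorem p2_one (t y : ℝ) : p2 t y 1 = y := rfl

/-- The values at a point with given coordinates. -/
theorem eval_p2 {G : PN} (hv : G.vars ⊆ range 2) (b : ℕ → ℝ) :
    eval b G = eval (p2 (b 0) (b 1)) G := by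
  refine Pool.SYS35.eval_congr hv fun i hi => ?_
  rcases Nat.lt_or_ge i 1 with h | h
  · have h0 : i = 0 := by omega
    rw [h0, p2_zero]
  · have h0 : i = 1 := by omega
    rw [h0, p2_one]

theorem supp_two {G : PN} (hv : G.vars ⊆ range 2) {k : ℕ →₀ ℕ} (hk : k ∈ G.support) :
    k.support ⊆ range 2 := fun _ hj => hv ((mem_vars_iff_mem_support _).2 ⟨_, hk, hj⟩)

/-- The values as a sum over the exponents. -/
theorem ev2 {G : PN} (hv : G.vars ⊆ range 2) (t y : ℝ) :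
    eval (p2 t y) G = ∑ k ∈ G.support, G.coeff k * (t ^ k 0 * y ^ k 1) := by
  rw [eval_eq]
  refine Finset.sum_congr rfl fun k hk => ?_
  congr 1
  have h1 := supp_two hv hk
  rw [Finset.prod_subset h1 (fun i _ hi => by
    rw [Finsupp.notMem_support_iff.1 hi, pow_zero])]
  rw [Finset.prod_range_succ, Finset.prod_range_one, p2_zero, p2_one]

theorem deg_two {G : PN} (hv : G.vars ⊆ range 2) {K : ℕ} (hK : G.totalDegree ≤ K) {k : ℕ →₀ ℕ}
    (hk : k ∈ G.support) : k 0 + k 1 ≤ K := by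
  have h1 := supp_two hv hk
  have h2 : (k.sum fun _ e => e) = k 0 + k 1 := by
    rw [Finsupp.sum_of_support_subset _ h1 _ (fun _ _ => rfl), Finset.sum_range_succ,
      Finset.sum_range_one]
  rw [← h2]
  exact (le_totalDegree hk).trans hK

/-! ### One variable -/

/-- An affine polynomial. -/
noncomputable def aff (a b : ℝ) : Polynomial ℝ := Polynomial.C a + Polynomial.C b * Polynomial.X

theorem eval_aff (a b x : ℝ) : (aff a b).eval x = a + b * x := by
  unfold aff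
  simp only [Polynomial.eval_add, Polynomial.eval_mul, Polynomial.eval_C, Polynomial.eval_X]

theorem natDegree_aff (a b : ℝ) : (aff a b).natDegree ≤ 1 := by
  unfold aff
  refine (Polynomial.natDegree_add_le _ _).trans (max_le ?_ ?_)
  · rw [Polynomial.natDegree_C]
    exact Nat.zero_le _
  · exact (Polynomial.natDegree_C_mul_le _ _).trans Polynomial.natDegree_X_le

/-- Interpolation at indexed separated nodes. -/
theorem lagr_fin {D : ℕ} (r : Polynomial ℝ) (hr : r.natDegree ≤ D) (N : Fin (D + 1) → ℝ)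
    {m B L s : ℝ} (hL : 0 < L) (hB : 0 ≤ B)
    (hsep : ∀ i j, i ≠ j → 1 / L ≤ |N i - N j|) (hs : ∀ i, |s - N i| ≤ B)
    (hm : ∀ i, |r.eval (N i)| ≤ m) : |r.eval s| ≤ (D + 1) * (m * (B * L) ^ D) := by
  classical
  have hm0 : 0 ≤ m := (abs_nonneg _).trans (hm 0)
  have hinj : Function.Injective N := by
    intro i j h
    by_contra hne
    have h1 := hsep i j hne
    rw [h, sub_self, abs_zero] at h1
    have : 0 < 1 / L := by positivity
    linarith
  have hdeg : r.degree < (univ : Finset (Fin (D + 1))).card := by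
    refine lt_of_le_of_lt Polynomial.degree_le_natDegree ?_
    rw [Finset.card_univ, Fintype.card_fin]
    exact_mod_cast Nat.lt_succ_of_le hr
  have h1 := Lagrange.eq_interpolate hinj.injOn hdeg
  have h2 : r.eval s = ∑ a, r.eval (N a) * ∏ b ∈ univ.erase a, ((N a - N b)⁻¹ * (s - N b)) := by
    conv_lhs => rw [h1]
    rw [Lagrange.interpolate_apply, Polynomial.eval_finsetSum]
    refine Finset.sum_congr rfl fun a _ => ?_
    rw [Polynomial.eval_mul, Polynomial.eval_C, Lagrange.basis, Polynomial.eval_prod]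
    congr 1
    refine Finset.prod_congr rfl fun b _ => ?_
    rw [Lagrange.basisDivisor, Polynomial.eval_mul, Polynomial.eval_C, Polynomial.eval_sub,
      Polynomial.eval_X, Polynomial.eval_C]
  rw [h2]
  calc |∑ a, r.eval (N a) * ∏ b ∈ univ.erase a, ((N a - N b)⁻¹ * (s - N b))|
      ≤ ∑ a, |r.eval (N a) * ∏ b ∈ univ.erase a, ((N a - N b)⁻¹ * (s - N b))| :=
        Finset.abs_sum_le_sum_abs _ _
    _ ≤ ∑ _a : Fin (D + 1), m * (B * L) ^ D := by
        refine Finset.sum_le_sum fun a _ => ?_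
        rw [abs_mul]
        refine mul_le_mul (hm a) ?_ (abs_nonneg _) hm0
        rw [Finset.abs_prod]
        have e1 : (B * L) ^ D = ∏ _b ∈ univ.erase a, (B * L) := by
          rw [Finset.prod_const, Finset.card_erase_of_mem (Finset.mem_univ a), Finset.card_univ,
            Fintype.card_fin]
          rfl
        rw [e1]
        refine Finset.prod_le_prod (fun b _ => abs_nonneg _) fun b hb => ?_
        have hb1 := Finset.mem_erase.1 hb
        have h3 := hsep a b (Ne.symm hb1.1)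
        have h4 := hs b
        rw [abs_mul, abs_inv, mul_comm]
        refine mul_le_mul h4 ?_ (by positivity) hB
        have h5 : 0 < |N a - N b| := lt_of_lt_of_le (by positivity) h3
        rw [inv_le_comm₀ h5 hL, inv_eq_one_div]
        exact h3
    _ = (D + 1) * (m * (B * L) ^ D) := by
        rw [Finset.sum_const, Finset.card_univ, Fintype.card_fin, nsmul_eq_mul]
        push_cast
        ring

/-- A polynomial without constant and linear term which is close to an affine function is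
small. -/
theorem low_free (K : ℕ) : ∃ C : ℝ, 1 ≤ C ∧ ∀ (p : Polynomial ℝ) (a b ε τ₀ : ℝ),
    p.natDegree ≤ K → p.coeff 0 = 0 → p.coeff 1 = 0 → τ₀ ∈ Set.Icc (0 : ℝ) 1 →
    (∀ τ ∈ Set.Icc (0 : ℝ) 1, |p.eval (τ - τ₀) - (a + b * (τ - τ₀))| ≤ ε) →
    ∀ s : ℝ, |s| ≤ 1 → |p.eval s| ≤ C * ε := by
  obtain ⟨C₁, hC₁, hcf⟩ := Pool.KAL.TAY.coef_bound (K + 1)
  obtain ⟨B, hB⟩ : ∃ B : ℝ, B = ((K + 1 : ℕ) + 1 : ℝ) * (2 * (K + 1 : ℕ)) ^ (K + 1) := ⟨_, rfl⟩
  have hB0 : 0 ≤ B := by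
    rw [hB]
    positivity
  refine ⟨(K + 1) * (C₁ * B) + 1, by
    have : 0 ≤ (K + 1 : ℝ) * (C₁ * B) := by positivity
    linarith, ?_⟩
  intro p a b ε τ₀ hp h0 h1 hτ₀ hε s hs
  have hε0 : 0 ≤ ε := (abs_nonneg _).trans (hε 0 ⟨le_rfl, zero_le_one⟩)
  obtain ⟨r, hr⟩ : ∃ r : Polynomial ℝ, r = p - aff a b := ⟨_, rfl⟩
  have hrd : r.natDegree ≤ K + 1 := by
    rw [hr]
    refine (Polynomial.natDegree_sub_le _ _).trans (max_le (hp.trans (by omega)) ?_)
    exact (natDegree_aff a b).trans (by omega)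
  have hre : ∀ x, r.eval x = p.eval x - (a + b * x) := by
    intro x
    rw [hr, Polynomial.eval_sub, eval_aff]
  have hK0 : (0 : ℝ) < (K + 1 : ℕ) := by positivity
  have hbd : ∀ x : ℝ, 0 ≤ x → x ≤ 1 → |r.eval x| ≤ B * ε := by
    intro x hx0 hx1
    have h2 := lagr_fin r hrd (fun i : Fin (K + 1 + 1) => (i : ℝ) / (K + 1 : ℕ) - τ₀)
      (m := ε) (B := 2) (L := ((K + 1 : ℕ) : ℝ)) (s := x) hK0 (by norm_num) (by
        intro i j hij
        have h3 : (i : ℝ) / (K + 1 : ℕ) - τ₀ - ((j : ℝ) / (K + 1 : ℕ) - τ₀) =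
            ((i : ℝ) - j) / (K + 1 : ℕ) := by ring
        rw [h3, abs_div, abs_of_pos hK0]
        refine div_le_div_of_nonneg_right ?_ hK0.le
        have h4 : ((i : ℕ) : ℤ) - (j : ℕ) ≠ 0 := by
          intro h5
          exact hij (Fin.ext (by omega))
        have h5 : (1 : ℤ) ≤ |((i : ℕ) : ℤ) - (j : ℕ)| := Int.one_le_abs h4
        exact_mod_cast h5) (by
        intro i
        have h3 : (i : ℝ) / (K + 1 : ℕ) ≤ 1 := by
          rw [div_le_one hK0]
          exact_mod_cast Nat.lt_succ_iff.1 i.2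
        have h4 : 0 ≤ (i : ℝ) / (K + 1 : ℕ) := by positivity
        rw [abs_le]
        constructor <;> linarith [hτ₀.1, hτ₀.2]) (by
        intro i
        have h3 : (i : ℝ) / (K + 1 : ℕ) ≤ 1 := by
          rw [div_le_one hK0]
          exact_mod_cast Nat.lt_succ_iff.1 i.2
        have h4 : 0 ≤ (i : ℝ) / (K + 1 : ℕ) := by positivity
        show |r.eval ((i : ℝ) / (K + 1 : ℕ) - τ₀)| ≤ ε
        rw [hre]
        exact hε _ ⟨h4, h3⟩)
    refine h2.trans (le_of_eq ?_)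
    rw [hB]
    push_cast
    ring
  have hcoef : ∀ k, k ≤ K → |p.coeff k| ≤ C₁ * (B * ε) := by
    intro k hk
    rcases Nat.lt_or_ge k 2 with h2 | h2
    · have h3 : p.coeff k = 0 := by
        rcases Nat.lt_or_ge k 1 with h4 | h4
        · have : k = 0 := by omega
          rw [this, h0]
        · have : k = 1 := by omega
          rw [this, h1]
      rw [h3, abs_zero]
      positivity
    · have h3 := hcf r (B * ε) hrd hbd k (by omega)
      have h4 : r.coeff k = p.coeff k := by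
        rw [hr, Polynomial.coeff_sub]
        unfold aff
        rw [Polynomial.coeff_add, Polynomial.coeff_C_mul, Polynomial.coeff_X,
          Polynomial.coeff_C, if_neg (by omega), if_neg (by omega), mul_zero, add_zero, sub_zero]
      rwa [h4] at h3
  rw [Polynomial.eval_eq_sum_range' (Nat.lt_succ_of_le hp)]
  refine (Finset.abs_sum_le_sum_abs _ _).trans ?_
  calc ∑ k ∈ range (K + 1), |p.coeff k * s ^ k| ≤ ∑ _k ∈ range (K + 1), C₁ * (B * ε) := by
        refine Finset.sum_le_sum fun k hk => ?_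
        rw [abs_mul, abs_pow]
        have h2 : |s| ^ k ≤ 1 := pow_le_one₀ (abs_nonneg _) hs
        have h3 := hcoef k (Nat.lt_succ_iff.1 (mem_range.1 hk))
        calc |p.coeff k| * |s| ^ k ≤ |p.coeff k| * 1 :=
              mul_le_mul_of_nonneg_left h2 (abs_nonneg _)
          _ ≤ _ := by rwa [mul_one]
    _ = (K + 1) * (C₁ * B) * ε := by
        rw [Finset.sum_const, Finset.card_range, nsmul_eq_mul]
        push_cast
        ring
    _ ≤ ((K + 1) * (C₁ * B) + 1) * ε := mul_le_mul_of_nonneg_right (by linarith) hε0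

/-! ### The fan -/

/-- The restriction to a horizontal line. -/
theorem slice_y {U : PN} (hv : U.vars ⊆ range 2) {K : ℕ} (hK : U.totalDegree ≤ K) (s : ℝ) :
    ∃ q : Polynomial ℝ, q.natDegree ≤ K ∧ ∀ η, q.eval η = eval (p2 s η) U := by
  refine ⟨aeval (fun i : ℕ => if i = 0 then Polynomial.C s else Polynomial.X) U,
    Pool.KBX.natDegree_aeval_le _ _ (fun i => ?_) hK, fun η => ?_⟩
  · split_ifs
    · rw [Polynomial.natDegree_C]
      exact Nat.zero_le _
    · exact Polynomial.natDegree_X_le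
  · rw [Pool.KBX.eval_aeval_poly, eval_p2 hv]
    rw [if_pos rfl, if_neg one_ne_zero, Polynomial.eval_C, Polynomial.eval_X]

/-- The restriction to a vertical line. -/
theorem slice_t {U : PN} (hv : U.vars ⊆ range 2) {K : ℕ} (hK : U.totalDegree ≤ K) (η : ℝ) :
    ∃ q : Polynomial ℝ, q.natDegree ≤ K ∧ ∀ s, q.eval s = eval (p2 s η) U := by
  refine ⟨aeval (fun i : ℕ => if i = 0 then Polynomial.X else Polynomial.C η) U,
    Pool.KBX.natDegree_aeval_le _ _ (fun i => ?_) hK, fun s => ?_⟩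
  · split_ifs
    · exact Polynomial.natDegree_X_le
    · rw [Polynomial.natDegree_C]
      exact Nat.zero_le _
  · rw [Pool.KBX.eval_aeval_poly, eval_p2 hv]
    rw [if_pos rfl, if_neg one_ne_zero, Polynomial.eval_C, Polynomial.eval_X]

/-- A polynomial which is small on separated lines through the origin is small. -/
theorem fan_small (K : ℕ) : ∃ C : ℝ, 1 ≤ C ∧ ∀ (U : PN) (ε κ : ℝ) (e : Fin (K + 1) → ℝ),
    U.vars ⊆ range 2 → U.totalDegree ≤ K → 0 < κ → κ ≤ 1 → (∀ i, |e i| ≤ 1) →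
    (∀ i j, i ≠ j → κ ≤ |e i - e j|) →
    (∀ i s, |s| ≤ 1 → |eval (p2 s (e i * s)) U| ≤ ε) → n1 U ≤ C * (1 / κ) ^ K * ε := by
  obtain ⟨C₁, hC₁, hn1⟩ := n1_of_cube 2 K
  obtain ⟨B, hB⟩ : ∃ B : ℝ, B = (K + 1 : ℝ) * (K + 1) * (4 * 4 * (K + 1)) ^ K := ⟨_, rfl⟩
  have hB1 : 1 ≤ B := by
    have h1 : (1 : ℝ) ≤ K + 1 := by
      have : (0 : ℝ) ≤ K := Nat.cast_nonneg K
      linarith
    rw [hB]
    refine one_le_mul_of_one_le_of_one_le (one_le_mul_of_one_le_of_one_le h1 h1) ?_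
    exact one_le_pow₀ (by linarith)
  refine ⟨C₁ * B, one_le_mul_of_one_le_of_one_le hC₁ hB1, ?_⟩
  intro U ε κ e hv hK hκ hκ1 he hsep hU
  have hε0 : 0 ≤ ε := (abs_nonneg _).trans (hU 0 0 (by
    rw [abs_zero]
    exact zero_le_one))
  have hK0 : (0 : ℝ) < K + 1 := by positivity
  -- the second coordinate
  have h1 : ∀ s η : ℝ, 1 / 2 ≤ s → s ≤ 1 → |η| ≤ 1 →
      |eval (p2 s η) U| ≤ (K + 1) * (ε * (2 * (2 / κ)) ^ K) := by
    intro s η hs hs1 hη
    obtain ⟨q, hq, hqe⟩ := slice_y hv hK s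
    rw [← hqe]
    have hs0 : (0 : ℝ) < s := by linarith
    have hsa : |s| ≤ 1 := by
      rw [abs_of_pos hs0]
      exact hs1
    refine lagr_fin q hq (fun i => e i * s) (by positivity) (by norm_num) ?_ ?_ ?_
    · intro i j hij
      rw [← sub_mul, abs_mul, abs_of_pos hs0, one_div_div]
      have h2 := hsep i j hij
      nlinarith
    · intro i
      have h2 : |e i * s| ≤ 1 := by
        rw [abs_mul]
        exact mul_le_one₀ (he i) (abs_nonneg _) hsa
      rw [abs_le] at h2 hη ⊢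
      constructor <;> linarith [h2.1, h2.2, hη.1, hη.2]
    · intro i
      rw [hqe]
      exact hU i s hsa
  -- the first coordinate
  have h2 : ∀ s η : ℝ, |s| ≤ 1 → |η| ≤ 1 → |eval (p2 s η) U| ≤
      (K + 1) * ((K + 1) * (ε * (2 * (2 / κ)) ^ K) * (2 * (2 * (K + 1))) ^ K) := by
    intro s η hs hη
    obtain ⟨q, hq, hqe⟩ := slice_t hv hK η
    rw [← hqe]
    refine lagr_fin q hq (fun i : Fin (K + 1) => 1 / 2 + (i : ℝ) / (2 * (K + 1)))
      (by positivity) (by norm_num) ?_ ?_ ?_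
    · intro i j hij
      have h3 : (1 : ℝ) / 2 + (i : ℝ) / (2 * (K + 1)) - (1 / 2 + (j : ℝ) / (2 * (K + 1))) =
          ((i : ℝ) - j) / (2 * (K + 1)) := by ring
      rw [h3, abs_div, abs_of_pos (by positivity : (0 : ℝ) < 2 * (K + 1))]
      refine div_le_div_of_nonneg_right ?_ (by positivity)
      have h4 : ((i : ℕ) : ℤ) - (j : ℕ) ≠ 0 := by
        intro h5
        exact hij (Fin.ext (by omega))
      have h5 : (1 : ℤ) ≤ |((i : ℕ) : ℤ) - (j : ℕ)| := Int.one_le_abs h4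
      exact_mod_cast h5
    · intro i
      have h3 : (i : ℝ) / (2 * (K + 1)) ≤ 1 / 2 := by
        rw [div_le_iff₀ (by positivity)]
        have : ((i : ℕ) : ℝ) ≤ K := by exact_mod_cast Nat.lt_succ_iff.1 i.2
        linarith
      have h4 : 0 ≤ (i : ℝ) / (2 * (K + 1)) := by positivity
      rw [abs_le] at hs ⊢
      constructor <;> linarith [hs.1, hs.2]
    · intro i
      have h3 : (i : ℝ) / (2 * (K + 1)) ≤ 1 / 2 := by
        rw [div_le_iff₀ (by positivity)]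
        have : ((i : ℕ) : ℝ) ≤ K := by exact_mod_cast Nat.lt_succ_iff.1 i.2
        linarith
      have h4 : 0 ≤ (i : ℝ) / (2 * (K + 1)) := by positivity
      rw [hqe]
      exact h1 _ _ (by linarith) (by linarith) hη
  have h3 := hn1 U _ hv hK fun y hy => by
    rw [eval_p2 hv]
    exact h2 _ _ (hy 0 (by norm_num)) (hy 1 (by norm_num))
  refine h3.trans (le_of_eq ?_)
  rw [hB]
  have e1 : (2 : ℝ) * (2 / κ) = 4 * (1 / κ) := by ring
  have e2 : (2 : ℝ) * (2 * (K + 1)) = 4 * (K + 1) := by ring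
  have e3 : (4 : ℝ) * 4 * (K + 1) = 4 * (4 * (K + 1)) := by ring
  rw [e1, e2, e3, mul_pow, mul_pow 4 (4 * ((K : ℝ) + 1))]
  ring

theorem pow_off (b : ℕ) {x o : ℝ} (hx : |x| ≤ 1) (ho : |o| ≤ 1) :
    |(o + x) ^ b - x ^ b| ≤ b * 2 ^ b * |o| := by
  have hox : |o + x| ≤ 2 := (abs_add_le _ _).trans (by linarith)
  induction b with
  | zero => simp
  | succ b ih =>
    have e1 : (o + x) ^ (b + 1) - x ^ (b + 1) = (o + x) * ((o + x) ^ b - x ^ b) + o * x ^ b := by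
      ring
    rw [e1]
    refine (abs_add_le _ _).trans ?_
    rw [abs_mul, abs_mul, abs_pow]
    have h1 : |x| ^ b ≤ 1 := pow_le_one₀ (abs_nonneg _) hx
    have h2 : |o + x| * |(o + x) ^ b - x ^ b| ≤ 2 * (b * 2 ^ b * |o|) :=
      mul_le_mul hox ih (abs_nonneg _) (by norm_num)
    have h3 : |o| * |x| ^ b ≤ |o| := by
      have := mul_le_mul_of_nonneg_left h1 (abs_nonneg o)
      rwa [mul_one] at this
    have h4 : (1 : ℝ) ≤ 2 ^ (b + 1) := one_le_pow₀ (by norm_num)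
    have h5 : |o| ≤ 2 ^ (b + 1) * |o| := le_mul_of_one_le_left (abs_nonneg _) h4
    push_cast
    calc _ ≤ 2 * (b * 2 ^ b * |o|) + |o| := by linarith
      _ ≤ 2 * (b * 2 ^ b * |o|) + 2 ^ (b + 1) * |o| := by linarith
      _ = _ := by ring

/-- The values at close points. -/
theorem lip2 {U : PN} (hv : U.vars ⊆ range 2) {K : ℕ} (hK : U.totalDegree ≤ K) {s x o : ℝ}
    (hs : |s| ≤ 1) (hx : |x| ≤ 1) (ho : |o| ≤ 1) :
    |eval (p2 s (o + x)) U - eval (p2 s x) U| ≤ K * 2 ^ K * n1 U * |o| := by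
  rw [ev2 hv, ev2 hv, ← Finset.sum_sub_distrib, n1_eq]
  have e1 : (K : ℝ) * 2 ^ K * (∑ k ∈ U.support, |U.coeff k|) * |o| =
      ∑ k ∈ U.support, |U.coeff k| * (K * 2 ^ K * |o|) := by
    rw [← Finset.sum_mul]
    ring
  rw [e1]
  refine (Finset.abs_sum_le_sum_abs _ _).trans (Finset.sum_le_sum fun k hk => ?_)
  rw [← mul_sub, ← mul_sub, abs_mul, abs_mul, abs_pow]
  refine mul_le_mul_of_nonneg_left ?_ (abs_nonneg _)
  have h1 : |s| ^ k 0 ≤ 1 := pow_le_one₀ (abs_nonneg _) hs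
  have h2 : k 1 ≤ K := by
    have := deg_two hv hK hk
    omega
  have h3 := pow_off (k 1) hx ho
  have h4 : ((k 1 : ℕ) : ℝ) * 2 ^ k 1 ≤ K * 2 ^ K :=
    mul_le_mul (by exact_mod_cast h2) (pow_le_pow_right₀ (by norm_num) h2) (by positivity)
      (Nat.cast_nonneg K)
  calc |s| ^ k 0 * |(o + x) ^ k 1 - x ^ k 1| ≤ 1 * (k 1 * 2 ^ k 1 * |o|) :=
        mul_le_mul h1 h3 (abs_nonneg _) zero_le_one
    _ ≤ K * 2 ^ K * |o| := by
        rw [one_mul]
        exact mul_le_mul_of_nonneg_right h4 (abs_nonneg _)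

/-- The restriction to a line through the origin. -/
noncomputable def lp (U : PN) (e : ℝ) : Polynomial ℝ :=
  ∑ k ∈ U.support, Polynomial.monomial (k 0 + k 1) (U.coeff k * e ^ k 1)

theorem eval_lp {U : PN} (hv : U.vars ⊆ range 2) (e s : ℝ) :
    (lp U e).eval s = eval (p2 s (e * s)) U := by
  unfold lp
  rw [Polynomial.eval_finsetSum, ev2 hv]
  refine Finset.sum_congr rfl fun k _ => ?_
  rw [Polynomial.eval_monomial, mul_pow, pow_add]
  ring

theorem deg_lp {U : PN} (hv : U.vars ⊆ range 2) {K : ℕ} (hK : U.totalDegree ≤ K) (e : ℝ) :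
    (lp U e).natDegree ≤ K :=
  Polynomial.natDegree_sum_le_of_forall_le _ _ fun _ hk =>
    (Polynomial.natDegree_monomial_le _).trans (deg_two hv hK hk)

theorem coeff_lp {U : PN} (hl : ∀ k ∈ U.support, 2 ≤ k 0 + k 1) (e : ℝ) {n : ℕ} (hn : n < 2) :
    (lp U e).coeff n = 0 := by
  unfold lp
  rw [Polynomial.finsetSum_coeff]
  refine Finset.sum_eq_zero fun k hk => ?_
  rw [Polynomial.coeff_monomial, if_neg]
  have := hl k hk
  omega

/-- **A polynomial without constant and linear terms.** -/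
theorem fan_core (K : ℕ) : ∃ C : ℝ, 1 ≤ C ∧ ∀ (U : PN) (M κ o₀ τ₀ : ℝ)
    (e o a b : Fin (K + 1) → ℝ), U.vars ⊆ range 2 → U.totalDegree ≤ K →
    (∀ k ∈ U.support, 2 ≤ k 0 + k 1) → 0 < κ → κ ≤ 1 → (∀ i, |e i| ≤ 1) →
    (∀ i j, i ≠ j → κ ≤ |e i - e j|) → τ₀ ∈ Set.Icc (0 : ℝ) 1 → 0 ≤ M → o₀ ≤ 1 →
    (∀ i, |o i| ≤ o₀) → C * (1 / κ) ^ K * o₀ ≤ 1 →
    (∀ i, ∀ τ ∈ Set.Icc (0 : ℝ) 1, |eval (p2 (τ - τ₀) (o i + e i * (τ - τ₀))) U -
      (a i + b i * (τ - τ₀))| ≤ M) → n1 U ≤ C * (1 / κ) ^ K * M := by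
  obtain ⟨C₁, hC₁, hlow⟩ := low_free K
  obtain ⟨C₂, hC₂, hfan⟩ := fan_small K
  refine ⟨2 * C₂ * C₁ * (K * 2 ^ K + 1), ?_, ?_⟩
  · have h1 : (1 : ℝ) ≤ K * 2 ^ K + 1 := by
      have : (0 : ℝ) ≤ K * 2 ^ K := by positivity
      linarith
    have h2 : (1 : ℝ) ≤ 2 * C₂ * C₁ := by nlinarith
    exact one_le_mul_of_one_le_of_one_le h2 h1
  intro U M κ o₀ τ₀ e o a b hv hK hl hκ hκ1 he hsep hτ₀ hM ho₀ ho hsm hU
  have hn0 := n1_nonneg U
  have ho0 : 0 ≤ o₀ := (abs_nonneg _).trans (ho 0)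
  have h1 : ∀ i s, |s| ≤ 1 → |eval (p2 s (e i * s)) U| ≤
      C₁ * (M + K * 2 ^ K * n1 U * o₀) := by
    intro i s hs
    have h2 := hlow (lp U (e i)) (a i) (b i) (M + K * 2 ^ K * n1 U * o₀) τ₀ (deg_lp hv hK _)
      (coeff_lp hl _ (by norm_num)) (coeff_lp hl _ (by norm_num)) hτ₀ (by
        intro τ hτ
        rw [eval_lp hv]
        have hτs : |τ - τ₀| ≤ 1 := by
          rw [abs_le]
          constructor <;> linarith [hτ.1, hτ.2, hτ₀.1, hτ₀.2]
        have hes : |e i * (τ - τ₀)| ≤ 1 := by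
          rw [abs_mul]
          exact mul_le_one₀ (he i) (abs_nonneg _) hτs
        have h3 := lip2 hv hK hτs hes ((ho i).trans ho₀)
        have h4 := hU i τ hτ
        have h5 : K * 2 ^ K * n1 U * |o i| ≤ K * 2 ^ K * n1 U * o₀ :=
          mul_le_mul_of_nonneg_left (ho i) (by positivity)
        rw [abs_le] at h3 h4 ⊢
        constructor <;> linarith [h3.1, h3.2, h4.1, h4.2]) s hs
    rwa [eval_lp hv] at h2
  have h2 := hfan U _ κ e hv hK hκ hκ1 he hsep h1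
  obtain ⟨Q, hQ⟩ : ∃ Q : ℝ, Q = (1 / κ) ^ K := ⟨_, rfl⟩
  have hQ0 : 0 ≤ Q := by
    rw [hQ]
    positivity
  rw [← hQ] at h2 hsm ⊢
  have hC₂0 : 0 ≤ C₂ := by linarith
  have hC₁0 : 0 ≤ C₁ := by linarith
  have h3 : C₂ * Q * (C₁ * (K * 2 ^ K * n1 U * o₀)) ≤ n1 U / 2 := by
    have e1 : C₂ * Q * (C₁ * (K * 2 ^ K * n1 U * o₀)) =
        n1 U / 2 * (2 * C₂ * C₁ * (K * 2 ^ K) * Q * o₀) := by ring
    rw [e1]
    have e2 : 2 * C₂ * C₁ * (K * 2 ^ K) * Q * o₀ ≤
        2 * C₂ * C₁ * (K * 2 ^ K + 1) * Q * o₀ := by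
      refine mul_le_mul_of_nonneg_right (mul_le_mul_of_nonneg_right ?_ hQ0) ho0
      exact mul_le_mul_of_nonneg_left (by linarith) (by positivity)
    calc n1 U / 2 * (2 * C₂ * C₁ * (K * 2 ^ K) * Q * o₀) ≤ n1 U / 2 * 1 :=
          mul_le_mul_of_nonneg_left (e2.trans hsm) (by positivity)
      _ = n1 U / 2 := mul_one _
  have h4 : n1 U ≤ 2 * (C₂ * Q * (C₁ * M)) := by
    have e1 : C₂ * Q * (C₁ * (M + K * 2 ^ K * n1 U * o₀)) =
        C₂ * Q * (C₁ * M) + C₂ * Q * (C₁ * (K * 2 ^ K * n1 U * o₀)) := by ring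
    rw [e1] at h2
    linarith
  refine h4.trans ?_
  have e1 : 2 * (C₂ * Q * (C₁ * M)) = 2 * C₂ * C₁ * 1 * Q * M := by ring
  rw [e1]
  refine mul_le_mul_of_nonneg_right (mul_le_mul_of_nonneg_right ?_ hQ0) hM
  refine mul_le_mul_of_nonneg_left ?_ (by positivity)
  have : (0 : ℝ) ≤ K * 2 ^ K := by positivity
  linarith

/-! ### Splitting off the affine part -/

/-- The terms of degree at least two. -/
theorem trunc {R : PN} (hv : R.vars ⊆ range 2) {K : ℕ} (hK : R.totalDegree ≤ K) :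
    ∃ (U : PN) (A : Fin 3 → ℝ), U.vars ⊆ range 2 ∧ U.totalDegree ≤ K ∧
      (∀ k ∈ U.support, 2 ≤ k 0 + k 1) ∧
      ∀ s η, eval (p2 s η) R = eval (p2 s η) U + (A 0 + A 1 * s + A 2 * η) := by
  classical
  obtain ⟨T, hT⟩ : ∃ T, T = R.support.filter fun k => 2 ≤ k 0 + k 1 := ⟨_, rfl⟩
  obtain ⟨U, hU⟩ : ∃ U : PN, U = ∑ k ∈ T, monomial k (R.coeff k) := ⟨_, rfl⟩
  have hc : ∀ k, U.coeff k = if k ∈ T then R.coeff k else 0 := by
    intro k
    rw [hU, coeff_sum]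
    simp only [coeff_monomial]
    rw [Finset.sum_ite_eq' T k (fun k => R.coeff k)]
  have hs : ∀ k ∈ U.support, k ∈ T := by
    intro k hk
    by_contra h
    have h1 := mem_support_iff.1 hk
    rw [hc, if_neg h] at h1
    exact h1 rfl
  have hsR : ∀ k ∈ U.support, k ∈ R.support := fun k hk => by
    have h1 := hs k hk
    rw [hT] at h1
    exact (Finset.mem_filter.1 h1).1
  have hvU : U.vars ⊆ range 2 := by
    intro j hj
    obtain ⟨k, hk, hjk⟩ := (mem_vars_iff_mem_support _).1 hj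
    exact supp_two hv (hsR k hk) hjk
  obtain ⟨B, hB⟩ : ∃ B : ℕ → ℕ → ℝ, B = fun i j => ∑ k ∈ R.support,
    if k 0 = i ∧ k 1 = j then R.coeff k else 0 := ⟨_, rfl⟩
  refine ⟨U, ![B 0 0, B 1 0, B 0 1], hvU, ?_, ?_, ?_⟩
  · exact Finset.sup_le fun k hk => (le_totalDegree (hsR k hk)).trans hK
  · intro k hk
    have h1 := hs k hk
    rw [hT] at h1
    exact (Finset.mem_filter.1 h1).2
  · intro s η
    have e0 : (![B 0 0, B 1 0, B 0 1] : Fin 3 → ℝ) 0 = B 0 0 := rfl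
    have e1 : (![B 0 0, B 1 0, B 0 1] : Fin 3 → ℝ) 1 = B 1 0 := rfl
    have e2 : (![B 0 0, B 1 0, B 0 1] : Fin 3 → ℝ) 2 = B 0 1 := rfl
    rw [e0, e1, e2, ev2 hv]
    have h1 : eval (p2 s η) U = ∑ k ∈ R.support,
        if 2 ≤ k 0 + k 1 then R.coeff k * (s ^ k 0 * η ^ k 1) else 0 := by
      rw [← Finset.sum_filter, ← hT, hU, map_sum]
      refine Finset.sum_congr rfl fun k hk => ?_
      rw [hT] at hk
      have h2 := supp_two hv (Finset.mem_filter.1 hk).1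
      rw [eval_monomial, Finsupp.prod_of_support_subset _ h2 _ (fun _ _ => pow_zero _),
        Finset.prod_range_succ, Finset.prod_range_one, p2_zero, p2_one]
    rw [h1, hB]
    simp only
    rw [Finset.sum_mul, Finset.sum_mul, ← Finset.sum_add_distrib, ← Finset.sum_add_distrib,
      ← Finset.sum_add_distrib]
    refine Finset.sum_congr rfl fun k _ => ?_
    by_cases h2 : 2 ≤ k 0 + k 1
    · rw [if_pos h2, if_neg (by omega), if_neg (by omega), if_neg (by omega)]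
      ring
    · rw [if_neg h2]
      rcases (by omega : (k 0 = 0 ∧ k 1 = 0) ∨ (k 0 = 1 ∧ k 1 = 0) ∨ (k 0 = 0 ∧ k 1 = 1)) with
        h3 | h3 | h3
      · rw [if_pos h3, if_neg (by omega), if_neg (by omega), h3.1, h3.2]
        ring
      · rw [if_neg (by omega), if_pos h3, if_neg (by omega), h3.1, h3.2]
        ring
      · rw [if_neg (by omega), if_neg (by omega), if_pos h3, h3.1, h3.2]
        ring

/-- The scaled coordinates. -/
noncomputable def sb (t y h : ℝ) (i : ℕ) : PN :=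
  if i = 0 then C t + C h * X 0 else C y + C h * X 1

theorem vars_aff (a b : ℝ) (i : ℕ) : (C a + C b * X i : PN).vars ⊆ range (i + 1) := by
  classical
  refine (vars_add_subset _ _).trans (Finset.union_subset ?_ ?_)
  · rw [vars_C]
    exact Finset.empty_subset _
  · refine (vars_mul _ _).trans (Finset.union_subset ?_ ?_)
    · rw [vars_C]
      exact Finset.empty_subset _
    · rw [vars_X]
      intro j hj
      rw [Finset.mem_singleton.1 hj]
      exact mem_range.2 (Nat.lt_succ_self i)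

theorem deg_aff (a b : ℝ) (i : ℕ) : (C a + C b * X i : PN).totalDegree ≤ 1 := by
  refine (totalDegree_add _ _).trans (max_le ?_ ?_)
  · rw [totalDegree_C]
    exact Nat.zero_le _
  · refine (totalDegree_mul _ _).trans ?_
    rw [totalDegree_C, totalDegree_X]

theorem eval_sb {G : PN} (hv : G.vars ⊆ range 2) (t y h s η : ℝ) :
    eval (p2 s η) (bind₁ (sb t y h) G) = eval (p2 (t + h * s) (y + h * η)) G := by
  have h0 : eval (p2 s η) (sb t y h 0) = t + h * s := by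
    unfold sb
    rw [if_pos rfl, map_add, map_mul, eval_C, eval_C, eval_X, p2_zero]
  have h1 : eval (p2 s η) (sb t y h 1) = y + h * η := by
    unfold sb
    rw [if_neg one_ne_zero, map_add, map_mul, eval_C, eval_C, eval_X, p2_one]
  rw [Pool.SYS35.eval_bind, eval_p2 hv, h0, h1]

/-- **A polynomial which is affine along many lines through one point is affine.** -/
theorem fan_aff (K : ℕ) : ∃ C : ℝ, 1 ≤ C ∧ ∀ (G : PN) (M κ s₀ h τ₀ t y : ℝ)
    (e y' v D : Fin (K + 1) → ℝ), G.vars ⊆ range 2 → G.totalDegree ≤ K → 0 < κ → κ ≤ 1 →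
    (∀ i, |e i| ≤ 1) → (∀ i j, i ≠ j → κ ≤ |e i - e j|) → τ₀ ∈ Set.Icc (0 : ℝ) 1 → 0 ≤ M →
    0 < h → s₀ ≤ h → (∀ i, |y' i - y| ≤ s₀) → C * (1 / κ) ^ K * (s₀ / h) ≤ 1 →
    (∀ i, ∀ τ ∈ Set.Icc (0 : ℝ) 1,
      |eval (p2 (t + h * (τ - τ₀)) (y' i + h * (τ - τ₀) * e i)) G -
        (v i + h * (τ - τ₀) * D i)| ≤ M) →
    ∃ A : Fin 3 → ℝ, ∀ ρ : ℝ, 1 ≤ ρ → ∀ s η : ℝ, |s| ≤ ρ → |η| ≤ ρ →
      |eval (p2 (t + h * s) (y + h * η)) G - (A 0 + A 1 * s + A 2 * η)| ≤
        C * (1 / κ) ^ K * M * ρ ^ K := by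
  obtain ⟨C₁, hC₁, hcore⟩ := fan_core K
  refine ⟨C₁, hC₁, ?_⟩
  intro G M κ s₀ h τ₀ t y e y' v D hv hK hκ hκ1 he hsep hτ₀ hM hh hs₀ hy' hsm hG
  have hvR : (bind₁ (sb t y h) G).vars ⊆ range 2 := by
    refine Pool.SYS35.vars_bind hv fun i hi => ?_
    unfold sb
    split_ifs with h0
    · rw [h0]
      exact vars_aff t h 0
    · have h1 : i = 1 := by omega
      rw [h1]
      exact vars_aff y h 1
  have hdR : (bind₁ (sb t y h) G).totalDegree ≤ K := by
    have h1 := Pool.SYS35.totalDegree_bind (f := sb t y h) (K' := 1) hv hK fun i _ => by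
      unfold sb
      split_ifs
      · exact deg_aff t h 0
      · exact deg_aff y h 1
    rwa [mul_one] at h1
  obtain ⟨U, A, hvU, hdU, hlU, hU⟩ := trunc hvR hdR
  have hGU : ∀ s η, eval (p2 (t + h * s) (y + h * η)) G =
      eval (p2 s η) U + (A 0 + A 1 * s + A 2 * η) := by
    intro s η
    rw [← hU, eval_sb hv]
  have ho : ∀ i, |(y' i - y) / h| ≤ s₀ / h := by
    intro i
    rw [abs_div, abs_of_pos hh]
    exact div_le_div_of_nonneg_right (hy' i) hh.le
  have h1 := hcore U M κ (s₀ / h) τ₀ e (fun i => (y' i - y) / h)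
    (fun i => v i - A 0 - A 2 * ((y' i - y) / h)) (fun i => h * D i - A 1 - A 2 * e i)
    hvU hdU hlU hκ hκ1 he hsep hτ₀ hM (by rwa [div_le_one hh]) ho hsm (by
      intro i τ hτ
      have h2 := hG i τ hτ
      have e1 : y' i + h * (τ - τ₀) * e i = y + h * ((y' i - y) / h + e i * (τ - τ₀)) := by
        field_simp
        ring
      rw [e1, hGU] at h2
      have e2 : eval (p2 (τ - τ₀) ((y' i - y) / h + e i * (τ - τ₀))) U +
          (A 0 + A 1 * (τ - τ₀) + A 2 * ((y' i - y) / h + e i * (τ - τ₀))) -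
          (v i + h * (τ - τ₀) * D i) =
          eval (p2 (τ - τ₀) ((y' i - y) / h + e i * (τ - τ₀))) U -
          ((v i - A 0 - A 2 * ((y' i - y) / h)) + (h * D i - A 1 - A 2 * e i) * (τ - τ₀)) := by
        ring
      rwa [e2] at h2)
  refine ⟨A, fun ρ hρ s η hs hη => ?_⟩
  rw [hGU, add_sub_cancel_right]
  refine (eval_le hρ hvU hdU fun j hj => ?_).trans
    (mul_le_mul_of_nonneg_right h1 (by positivity))
  rcases (by omega : j = 0 ∨ j = 1) with h2 | h2
  · rw [h2]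
    exact hs
  · rw [h2]
    exact hη

/-! ### The affine part of a label -/

/-- The time of the centre. -/
noncomputable def ct (Φ : ℕ → PN) : ℝ := eval (fun _ => 0) (Φ 0)

/-- The first coordinate of the centre. -/
noncomputable def cy (Φ : ℕ → PN) : ℝ := eval (p2 (ct Φ) 0) (Φ 1)

/-- The derivatives of the label at the centre, by differences. -/
noncomputable def az (W : ℕ) (Φ : ℕ → PN) : Fin 3 → ℝ :=
  ![eval (p2 (ct Φ) (cy Φ)) (Φ 2) -
      2 ^ W * (eval (p2 (ct Φ + 1 / 2 ^ W) (cy Φ)) (Φ 2) - eval (p2 (ct Φ) (cy Φ)) (Φ 2)) * ct Φ -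
      2 ^ W * (eval (p2 (ct Φ) (cy Φ + 1 / 2 ^ W)) (Φ 2) - eval (p2 (ct Φ) (cy Φ)) (Φ 2)) * cy Φ,
    2 ^ W * (eval (p2 (ct Φ + 1 / 2 ^ W) (cy Φ)) (Φ 2) - eval (p2 (ct Φ) (cy Φ)) (Φ 2)),
    2 ^ W * (eval (p2 (ct Φ) (cy Φ + 1 / 2 ^ W)) (Φ 2) - eval (p2 (ct Φ) (cy Φ)) (Φ 2))]

/-- The affine part from differences is as good as any other one. -/
theorem az_near {Φ : ℕ → PN} {W K : ℕ} {t y E ρ₀ ρ : ℝ} {A : Fin 3 → ℝ} (hE : 0 ≤ E)
    (h : ∀ ρ : ℝ, 1 ≤ ρ → ∀ s η : ℝ, |s| ≤ ρ → |η| ≤ ρ →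
      |eval (p2 (t + 1 / 2 ^ W * s) (y + 1 / 2 ^ W * η)) (Φ 2) - (A 0 + A 1 * s + A 2 * η)| ≤
        E * ρ ^ K)
    (ht : |ct Φ - t| ≤ ρ₀ / 2 ^ W) (hy : |cy Φ - y| ≤ ρ₀ / 2 ^ W) (hρ : ρ₀ ≤ ρ) (hρ1 : 1 ≤ ρ)
    {s η : ℝ} (hs : |s| ≤ ρ) (hη : |η| ≤ ρ) :
    |eval (p2 (t + 1 / 2 ^ W * s) (y + 1 / 2 ^ W * η)) (Φ 2) -
      (az W Φ 0 + az W Φ 1 * (t + 1 / 2 ^ W * s) + az W Φ 2 * (y + 1 / 2 ^ W * η))| ≤
        10 * ρ * (ρ + 1) ^ K * E := by
  have p : (0 : ℝ) < 2 ^ W := by positivity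
  obtain ⟨s₀, hs₀⟩ : ∃ s₀ : ℝ, s₀ = 2 ^ W * (ct Φ - t) := ⟨_, rfl⟩
  obtain ⟨η₀, hη₀⟩ : ∃ η₀ : ℝ, η₀ = 2 ^ W * (cy Φ - y) := ⟨_, rfl⟩
  have e1 : ct Φ = t + 1 / 2 ^ W * s₀ := by
    rw [hs₀]
    field_simp
    ring
  have e2 : cy Φ = y + 1 / 2 ^ W * η₀ := by
    rw [hη₀]
    field_simp
    ring
  have hs₀1 : |s₀| ≤ ρ₀ := by
    rw [hs₀, abs_mul, abs_of_pos p]
    have := mul_le_mul_of_nonneg_left ht p.le
    rwa [mul_div_cancel₀ _ p.ne'] at this
  have hη₀1 : |η₀| ≤ ρ₀ := by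
    rw [hη₀, abs_mul, abs_of_pos p]
    have := mul_le_mul_of_nonneg_left hy p.le
    rwa [mul_div_cancel₀ _ p.ne'] at this
  obtain ⟨f, hf⟩ : ∃ f : ℝ → ℝ → ℝ, f = fun s η =>
    eval (p2 (t + 1 / 2 ^ W * s) (y + 1 / 2 ^ W * η)) (Φ 2) := ⟨_, rfl⟩
  obtain ⟨E', hE'⟩ : ∃ E' : ℝ, E' = (ρ + 1) ^ K * E := ⟨_, rfl⟩
  have hfE : ∀ s η : ℝ, |s| ≤ ρ + 1 → |η| ≤ ρ + 1 → |f s η - (A 0 + A 1 * s + A 2 * η)| ≤ E' := by
    intro s η hs hη
    have := h (ρ + 1) (by linarith) s η hs hη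
    rw [hf, hE', mul_comm _ E]
    exact this
  have f0 : eval (p2 (ct Φ) (cy Φ)) (Φ 2) = f s₀ η₀ := by
    rw [hf, e1, e2]
  have f1 : eval (p2 (ct Φ + 1 / 2 ^ W) (cy Φ)) (Φ 2) = f (s₀ + 1) η₀ := by
    have e3 : ct Φ + 1 / 2 ^ W = t + 1 / 2 ^ W * (s₀ + 1) := by
      rw [e1]
      ring
    rw [hf, e3, e2]
  have f2 : eval (p2 (ct Φ) (cy Φ + 1 / 2 ^ W)) (Φ 2) = f s₀ (η₀ + 1) := by
    have e3 : cy Φ + 1 / 2 ^ W = y + 1 / 2 ^ W * (η₀ + 1) := by
      rw [e2]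
      ring
    rw [hf, e3, e1]
  have a0 : az W Φ 0 = f s₀ η₀ - 2 ^ W * (f (s₀ + 1) η₀ - f s₀ η₀) * ct Φ -
      2 ^ W * (f s₀ (η₀ + 1) - f s₀ η₀) * cy Φ := by
    rw [← f0, ← f1, ← f2]
    rfl
  have a1 : az W Φ 1 = 2 ^ W * (f (s₀ + 1) η₀ - f s₀ η₀) := by
    rw [← f0, ← f1]
    rfl
  have a2 : az W Φ 2 = 2 ^ W * (f s₀ (η₀ + 1) - f s₀ η₀) := by
    rw [← f0, ← f2]
    rfl
  have hρ0 : 0 ≤ ρ := by linarith
  have hE'0 : 0 ≤ E' := by
    rw [hE']
    positivity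
  have b0 : |s₀| ≤ ρ + 1 := by linarith
  have b1 : |η₀| ≤ ρ + 1 := by linarith
  have b2 : |s₀ + 1| ≤ ρ + 1 := (abs_add_le _ _).trans (by
    rw [abs_one]
    linarith)
  have b3 : |η₀ + 1| ≤ ρ + 1 := (abs_add_le _ _).trans (by
    rw [abs_one]
    linarith)
  have g0 := hfE s₀ η₀ b0 b1
  have g1 := hfE (s₀ + 1) η₀ b2 b1
  have g2 := hfE s₀ (η₀ + 1) b0 b3
  have g3 := hfE s η (by linarith) (by linarith)
  obtain ⟨x0, hx0⟩ : ∃ x, x = f s₀ η₀ - (A 0 + A 1 * s₀ + A 2 * η₀) := ⟨_, rfl⟩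
  obtain ⟨x1, hx1⟩ : ∃ x, x = f (s₀ + 1) η₀ - (A 0 + A 1 * (s₀ + 1) + A 2 * η₀) := ⟨_, rfl⟩
  obtain ⟨x2, hx2⟩ : ∃ x, x = f s₀ (η₀ + 1) - (A 0 + A 1 * s₀ + A 2 * (η₀ + 1)) := ⟨_, rfl⟩
  obtain ⟨x3, hx3⟩ : ∃ x, x = f s η - (A 0 + A 1 * s + A 2 * η) := ⟨_, rfl⟩
  rw [← hx0] at g0
  rw [← hx1] at g1
  rw [← hx2] at g2
  rw [← hx3] at g3
  have key : f s η - (az W Φ 0 + az W Φ 1 * (t + 1 / 2 ^ W * s) +
      az W Φ 2 * (y + 1 / 2 ^ W * η)) =
      x3 - x0 - (s - s₀) * (x1 - x0) - (η - η₀) * (x2 - x0) := by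
    rw [a0, a1, a2, e1, e2, hx0, hx1, hx2, hx3]
    field_simp
    ring
  have key' : eval (p2 (t + 1 / 2 ^ W * s) (y + 1 / 2 ^ W * η)) (Φ 2) = f s η := by
    rw [hf]
  rw [key', key]
  have c1 : |s - s₀| ≤ 2 * ρ := (abs_sub _ _).trans (by linarith)
  have c2 : |η - η₀| ≤ 2 * ρ := (abs_sub _ _).trans (by linarith)
  have d1 : |x1 - x0| ≤ 2 * E' := (abs_sub _ _).trans (by linarith)
  have d2 : |x2 - x0| ≤ 2 * E' := (abs_sub _ _).trans (by linarith)
  have h1 : |(s - s₀) * (x1 - x0)| ≤ 2 * ρ * (2 * E') := by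
    rw [abs_mul]
    exact mul_le_mul c1 d1 (abs_nonneg _) (by positivity)
  have h2 : |(η - η₀) * (x2 - x0)| ≤ 2 * ρ * (2 * E') := by
    rw [abs_mul]
    exact mul_le_mul c2 d2 (abs_nonneg _) (by positivity)
  have h3 : |x3 - x0 - (s - s₀) * (x1 - x0) - (η - η₀) * (x2 - x0)| ≤
      E' + E' + 2 * ρ * (2 * E') + 2 * ρ * (2 * E') := by
    refine (abs_sub _ _).trans (add_le_add ?_ h2)
    refine (abs_sub _ _).trans (add_le_add ?_ h1)
    exact (abs_sub _ _).trans (add_le_add g3 g0)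
  refine h3.trans ?_
  have e5 : 10 * ρ * (ρ + 1) ^ K * E = 10 * ρ * E' := by
    rw [hE']
    ring
  rw [e5]
  nlinarith

/-! ### Mean values -/

/-- The variables of a derivative. -/
theorem vars_pd (i : ℕ) (Q : PN) : (pderiv i Q).vars ⊆ Q.vars := by
  classical
  intro j hj
  rw [mem_vars_iff_mem_support] at hj ⊢
  obtain ⟨m, hm, hjm⟩ := hj
  rw [mem_support_iff, coeff_pderiv] at hm
  refine ⟨m + Finsupp.single i 1, mem_support_iff.2 fun h => hm (by rw [h, zero_mul]), ?_⟩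
  rw [Finsupp.mem_support_iff] at hjm ⊢
  rw [Finsupp.add_apply]
  omega

/-- The derivative of the restriction to a coordinate line. -/
theorem der_upd (U : PN) (b : ℕ → ℝ) (j : ℕ) :
    Polynomial.derivative (aeval (fun i : ℕ => if i = j then (Polynomial.X : Polynomial ℝ)
      else Polynomial.C (b i)) U) = aeval (fun i : ℕ => if i = j then (Polynomial.X : Polynomial ℝ)
      else Polynomial.C (b i)) (pderiv j U) := by
  classical
  induction U using MvPolynomial.induction_on with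
  | C a =>
    rw [aeval_C, pderiv_C, map_zero, Polynomial.algebraMap_eq, Polynomial.derivative_C]
  | add p q hp hq => rw [map_add, Polynomial.derivative_add, hp, hq, map_add, map_add]
  | mul_X p i hp =>
    rw [map_mul, Polynomial.derivative_mul, hp, aeval_X, pderiv_mul, map_add, map_mul, map_mul,
      aeval_X, pderiv_X]
    by_cases h : i = j
    · subst h
      rw [if_pos rfl, Pi.single_eq_same, map_one, Polynomial.derivative_X]
    · rw [if_neg h, Pi.single_eq_of_ne h, map_zero, Polynomial.derivative_C]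

/-- **Mean values** in one coordinate. -/
theorem mv_upd (U : PN) (b : ℕ → ℝ) (j : ℕ) {x x' L : ℝ}
    (hL : ∀ u ∈ Set.uIcc x x', |eval (Function.update b j u) (pderiv j U)| ≤ L) :
    |eval (Function.update b j x') U - eval (Function.update b j x) U| ≤ L * |x' - x| := by
  classical
  obtain ⟨q, hq⟩ : ∃ q : Polynomial ℝ, q = aeval (fun i : ℕ => if i = j then
    (Polynomial.X : Polynomial ℝ) else Polynomial.C (b i)) U := ⟨_, rfl⟩
  have hev : ∀ (V : PN) (u : ℝ), (aeval (fun i : ℕ => if i = j then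
      (Polynomial.X : Polynomial ℝ) else Polynomial.C (b i)) V).eval u =
      eval (Function.update b j u) V := by
    intro V u
    rw [Pool.KBX.eval_aeval_poly]
    congr 2
    funext i
    by_cases h : i = j
    · rw [if_pos h, Polynomial.eval_X, h, Function.update_self]
    · rw [if_neg h, Polynomial.eval_C, Function.update_of_ne h]
  have hd : ∀ u ∈ Set.uIcc x x', HasDerivWithinAt (fun u => q.eval u)
      (q.derivative.eval u) (Set.uIcc x x') u := fun u _ =>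
    (q.hasDerivAt u).hasDerivWithinAt
  have hb : ∀ u ∈ Set.uIcc x x', ‖q.derivative.eval u‖ ≤ L := by
    intro u hu
    rw [hq, der_upd, hev, Real.norm_eq_abs]
    exact hL u hu
  have h1 := (convex_uIcc x x').norm_image_sub_le_of_norm_hasDerivWithin_le hd hb
    Set.left_mem_uIcc Set.right_mem_uIcc
  rw [Real.norm_eq_abs, Real.norm_eq_abs, hq, hev, hev] at h1
  exact h1

end Pool.PLA
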