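import Pool.Agent.H24.PLN.Rmc

/-!
# Labels with affine polynomials

`lb W Φ`: the label with the first coordinate affine in the time and the second one affine in the
time and in the first one. `nlabw_lb`: closed labels on natural boxes for these polynomials.
-/

set_option autoImplicit false

namespace Pool.PLA

open Finset Real MvPolynomial
open Pool.Agent.H49.Ent Pool.Agent.H32.Dense Pool.STK Pool.KA Pool.KSAT Pool.K2S Pool.PB Pool.STAT
  Pool.GEN Pool.M3F Pool.S6C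
open Pool.FLF (Fam.sub)
open Pool.PB.Trl (rt rt_mem t_rt)
open Pool.STAT.CLO (Bxr nc nc_nuc box_nuc nc_le)

variable {m J : ℕ}

/-- Points of the box with given first coordinates. -/
theorem ext_box {Φ : ℕ → PN} (htri : TriN Φ) (g : ℕ → ℕ) {ρ : ℝ} (hρ : 0 ≤ ρ) {i : ℕ} (n : ℕ)
    {b : ℕ → ℝ} (hb : Bxr ρ g Φ i b) : ∃ b' : ℕ → ℝ, Bxr ρ g Φ n b' ∧ ∀ j < i, b' j = b j := by
  obtain ⟨x, hx⟩ : ∃ x : ℕ → ℝ, x = fun j => if j < i then nc g Φ b j else 0 := ⟨_, rfl⟩
  have hx1 : ∀ j, |x j| ≤ ρ := by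
    intro j
    rw [hx]
    dsimp only
    split_ifs with h
    · exact nc_le.2 (hb j h)
    · rw [abs_zero]
      exact hρ
  refine ⟨fun j => eval x (nuc g Φ j), box_nuc htri g x fun j _ => hx1 j, ?_⟩
  have hnc := nc_nuc htri g x
  intro j
  induction j using Nat.strong_induction_on with
  | _ j ih =>
    intro hj
    have h1 := congrFun hnc j
    have h2 : x j = nc g Φ b j := by
      rw [hx]
      exact if_pos hj
    have h3 : eval (fun j => eval x (nuc g Φ j)) (Φ j) = eval b (Φ j) :=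
      Pool.SYS35.eval_congr (htri j) fun k hk => ih k hk (hk.trans hj)
    rw [h2] at h1
    unfold nc at h1
    rw [h3] at h1
    have p : (0 : ℝ) < 2 ^ g j := by positivity
    have h4 := mul_left_cancel₀ p.ne' h1
    show eval x (nuc g Φ j) = b j
    linarith

/-! ### The polynomials -/

/-- The slope of the first coordinate. -/
noncomputable def ys (W : ℕ) (Φ : ℕ → PN) : ℝ :=
  2 ^ W * (eval (p2 (ct Φ + 1 / 2 ^ W) 0) (Φ 1) - cy Φ)

/-- The first coordinate, affine in the time. -/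
noncomputable def yl (W : ℕ) (Φ : ℕ → PN) : PN := C (cy Φ - ys W Φ * ct Φ) + C (ys W Φ) * X 0

/-- The second coordinate, affine. -/
noncomputable def zl (W : ℕ) (Φ : ℕ → PN) : PN :=
  C (az W Φ 0) + C (az W Φ 1) * X 0 + C (az W Φ 2) * X 1

/-- The label with affine polynomials. -/
noncomputable def lb (W : ℕ) (Φ : ℕ → PN) (j : ℕ) : PN :=
  if j = 1 then yl W Φ else if j = 2 then zl W Φ else Φ j

theorem lb_one (W : ℕ) (Φ : ℕ → PN) : lb W Φ 1 = yl W Φ := rfl

theorem lb_two (W : ℕ) (Φ : ℕ → PN) : lb W Φ 2 = zl W Φ := rfl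

theorem lb_zero (W : ℕ) (Φ : ℕ → PN) : lb W Φ 0 = Φ 0 := rfl

theorem lb_ge (W : ℕ) (Φ : ℕ → PN) {j : ℕ} (h : 3 ≤ j) : lb W Φ j = Φ j := by
  unfold lb
  rw [if_neg (by omega), if_neg (by omega)]

theorem eval_yl (W : ℕ) (Φ : ℕ → PN) (b : ℕ → ℝ) :
    eval b (yl W Φ) = cy Φ + ys W Φ * (b 0 - ct Φ) := by
  unfold yl
  rw [map_add, map_mul, eval_C, eval_C, eval_X]
  ring

theorem eval_zl (W : ℕ) (Φ : ℕ → PN) (b : ℕ → ℝ) :
    eval b (zl W Φ) = az W Φ 0 + az W Φ 1 * b 0 + az W Φ 2 * b 1 := by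
  unfold zl
  rw [map_add, map_add, map_mul, map_mul, eval_C, eval_C, eval_C, eval_X, eval_X]

theorem vars_yl (W : ℕ) (Φ : ℕ → PN) : (yl W Φ).vars ⊆ range 1 := vars_aff _ _ 0

theorem vars_zl (W : ℕ) (Φ : ℕ → PN) : (zl W Φ).vars ⊆ range 2 := by
  classical
  have h0 : (C (az W Φ 0) + C (az W Φ 1) * X 0 : PN).vars ⊆ range 2 :=
    (vars_aff _ _ 0).trans (Finset.range_mono (by norm_num))
  have h1 : (C (az W Φ 2) * X 1 : PN).vars ⊆ range 2 := by
    refine (vars_mul _ _).trans (Finset.union_subset ?_ ?_)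
    · rw [vars_C]
      exact Finset.empty_subset _
    · rw [vars_X]
      intro j hj
      rw [Finset.mem_singleton] at hj
      rw [hj, Finset.mem_range]
      norm_num
  exact (vars_add_subset _ _).trans (Finset.union_subset h0 h1)

theorem pd_yl (W : ℕ) (Φ : ℕ → PN) (b : ℕ → ℝ) : eval b (pderiv 0 (yl W Φ)) = ys W Φ := by
  have h : pderiv 0 (yl W Φ) = C (ys W Φ) := by
    unfold yl
    rw [Derivation.map_add, pderiv_C, pderiv_C_mul, pderiv_X_self, zero_add, mul_one]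
  rw [h, eval_C]

theorem pd_zl_zero (W : ℕ) (Φ : ℕ → PN) (b : ℕ → ℝ) :
    eval b (pderiv 0 (zl W Φ)) = az W Φ 1 := by
  have h : pderiv 0 (zl W Φ) = C (az W Φ 1) := by
    unfold zl
    rw [Derivation.map_add, Derivation.map_add, pderiv_C, pderiv_C_mul, pderiv_C_mul,
      pderiv_X_self, pderiv_X_of_ne (by norm_num), zero_add, mul_one, mul_zero, add_zero]
  rw [h, eval_C]

theorem pd_zl_one (W : ℕ) (Φ : ℕ → PN) (b : ℕ → ℝ) :
    eval b (pderiv 1 (zl W Φ)) = az W Φ 2 := by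
  have h : pderiv 1 (zl W Φ) = C (az W Φ 2) := by
    unfold zl
    rw [Derivation.map_add, Derivation.map_add, pderiv_C, pderiv_C_mul, pderiv_C_mul,
      pderiv_X_self, pderiv_X_of_ne (by norm_num), mul_one, mul_zero, zero_add, zero_add]
  rw [h, eval_C]

theorem deg_yl (W : ℕ) (Φ : ℕ → PN) : (yl W Φ).totalDegree ≤ 1 := deg_aff _ _ 0

theorem deg_zl (W : ℕ) (Φ : ℕ → PN) : (zl W Φ).totalDegree ≤ 1 := by
  unfold zl
  refine (totalDegree_add _ _).trans (max_le (deg_aff _ _ 0) ?_)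
  refine (totalDegree_mul _ _).trans ?_
  rw [totalDegree_C, totalDegree_X]

theorem deg_cst {G : PN} (hv : G.vars ⊆ range 0) : G.totalDegree = 0 := by
  have h1 : G.vars = ∅ := by
    rw [Finset.range_zero] at hv
    exact Finset.subset_empty.1 hv
  rw [totalDegree_eq_zero_iff_eq_C]
  exact vars_eq_empty_iff_eq_C.1 h1

theorem tri_lb {Φ : ℕ → PN} (htri : TriN Φ) (W : ℕ) : TriN (lb W Φ) := by
  intro j
  by_cases h1 : j = 1
  · rw [h1, lb_one]
    exact vars_yl W Φ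
  · by_cases h2 : j = 2
    · rw [h2, lb_two]
      exact vars_zl W Φ
    · unfold lb
      rw [if_neg h1, if_neg h2]
      exact htri j

theorem deg_lb {Φ : ℕ → PN} {K : ℕ} (hK : 1 ≤ K) (hdeg : ∀ j, (Φ j).totalDegree ≤ K) (W j : ℕ) :
    (lb W Φ j).totalDegree ≤ K := by
  by_cases h1 : j = 1
  · rw [h1, lb_one]
    exact (deg_yl W Φ).trans hK
  · by_cases h2 : j = 2
    · rw [h2, lb_two]
      exact (deg_zl W Φ).trans hK
    · unfold lb
      rw [if_neg h1, if_neg h2]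
      exact hdeg j

theorem deg_lb_one {Φ : ℕ → PN} (htri : TriN Φ) (W : ℕ) {j : ℕ} (hj : j < 3) :
    (lb W Φ j).totalDegree ≤ 1 := by
  rcases Nat.lt_or_ge j 1 with h | h
  · have h0 : j = 0 := by omega
    rw [h0, lb_zero, deg_cst (htri 0)]
    exact Nat.zero_le _
  · rcases Nat.lt_or_ge j 2 with h' | h'
    · have h0 : j = 1 := by omega
      rw [h0, lb_one]
      exact deg_yl W Φ
    · have h0 : j = 2 := by omega
      rw [h0, lb_two]
      exact deg_zl W Φ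

/-- The first coordinate and its affine form. -/
theorem yl_near {K : ℕ} {Φ : ℕ → PN} (htri : TriN Φ) (hK : (Φ 1).totalDegree ≤ K) {W : ℕ}
    {u v M : ℝ}
    (h : ∀ τ ∈ Set.Icc (0 : ℝ) 1, |u + v * τ - eval (p2 (ct Φ + τ / 2 ^ W) 0) (Φ 1)| ≤ M)
    {ρ : ℝ} (hρ : 1 ≤ ρ) {b : ℕ → ℝ} (hb : |b 0 - ct Φ| ≤ ρ / 2 ^ W) :
    |eval b (Φ 1) - eval b (yl W Φ)| ≤
      (K + 2) * (2 * M * (2 * ρ * (K + 2)) ^ (K + 1)) := by
  have p : (0 : ℝ) < 2 ^ W := by positivity
  obtain ⟨q, hq, hqe⟩ := slice_t ((htri 1).trans (Finset.range_mono (by norm_num))) hK 0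
  obtain ⟨r, hr⟩ : ∃ r : Polynomial ℝ, r = q.comp (aff (ct Φ) (1 / 2 ^ W)) -
    aff (cy Φ) (ys W Φ / 2 ^ W) := ⟨_, rfl⟩
  have hre : ∀ τ, r.eval τ = eval (p2 (ct Φ + τ / 2 ^ W) 0) (Φ 1) -
      (cy Φ + ys W Φ / 2 ^ W * τ) := by
    intro τ
    rw [hr, Polynomial.eval_sub, Polynomial.eval_comp, eval_aff, eval_aff, hqe,
      show ct Φ + 1 / 2 ^ W * τ = ct Φ + τ / 2 ^ W by ring]
  have hrd : r.natDegree ≤ K + 1 := by
    rw [hr]
    refine (Polynomial.natDegree_sub_le _ _).trans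
      (max_le ?_ ((natDegree_aff _ _).trans (by omega)))
    refine Polynomial.natDegree_comp_le.trans ?_
    calc q.natDegree * (aff (ct Φ) (1 / 2 ^ W)).natDegree ≤ K * 1 :=
          Nat.mul_le_mul hq (natDegree_aff _ _)
      _ ≤ K + 1 := by omega
  obtain ⟨f, hf⟩ : ∃ f : ℝ → ℝ, f = fun τ => eval (p2 (ct Φ + τ / 2 ^ W) 0) (Φ 1) := ⟨_, rfl⟩
  have hfe : ∀ τ, eval (p2 (ct Φ + τ / 2 ^ W) 0) (Φ 1) = f τ := fun τ => by rw [hf]
  have hcy : cy Φ = f 0 := by
    rw [← hfe, zero_div, add_zero]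
    rfl
  have e0 : ys W Φ / 2 ^ W = f 1 - f 0 := by
    rw [← hcy, ← hfe 1]
    unfold ys
    field_simp
  have hrM : ∀ τ ∈ Set.Icc (0 : ℝ) 1, |r.eval τ| ≤ 2 * M := by
    intro τ hτ
    have h1 := h τ hτ
    have h2 := h 0 ⟨le_rfl, zero_le_one⟩
    have h3 := h 1 ⟨zero_le_one, le_rfl⟩
    rw [hfe] at h1 h2 h3
    rw [hre, e0, hcy, hfe]
    have e1 : f τ - (f 0 + (f 1 - f 0) * τ) = -(u + v * τ - f τ) +
        ((1 - τ) * (u + v * 0 - f 0) + τ * (u + v * 1 - f 1)) := by ring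
    rw [e1]
    have h4 : |(1 - τ) * (u + v * 0 - f 0) + τ * (u + v * 1 - f 1)| ≤ M := by
      refine (abs_add_le _ _).trans ?_
      rw [abs_mul, abs_mul, abs_of_nonneg (by linarith [hτ.2] : 0 ≤ 1 - τ), abs_of_nonneg hτ.1]
      have h5 := mul_le_mul_of_nonneg_left h2 (by linarith [hτ.2] : 0 ≤ 1 - τ)
      have h6 := mul_le_mul_of_nonneg_left h3 hτ.1
      linarith
    refine (abs_add_le _ _).trans ?_
    rw [abs_neg]
    linarith
  obtain ⟨s, hs⟩ : ∃ s : ℝ, s = 2 ^ W * (b 0 - ct Φ) := ⟨_, rfl⟩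
  have hs1 : |s| ≤ ρ := by
    rw [hs, abs_mul, abs_of_pos p]
    have := mul_le_mul_of_nonneg_left hb p.le
    rwa [mul_div_cancel₀ _ p.ne'] at this
  have hK2 : (0 : ℝ) < K + 2 := by positivity
  have hnode : ∀ i : Fin (K + 1 + 1), ((i : ℕ) : ℝ) / (K + 2) ∈ Set.Icc (0 : ℝ) 1 := by
    intro i
    refine ⟨by positivity, ?_⟩
    rw [div_le_one hK2]
    have h1 : ((i : ℕ) : ℝ) ≤ (K + 2 : ℕ) := by exact_mod_cast i.2.le
    push_cast at h1
    exact h1
  have h1 := lagr_fin r hrd (fun i : Fin (K + 1 + 1) => ((i : ℕ) : ℝ) / (K + 2)) (m := 2 * M)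
    (B := 2 * ρ) (L := K + 2) (s := s) hK2 (by linarith) (fun i j hij => by
      have h2 : ((i : ℕ) : ℤ) - ((j : ℕ) : ℤ) ≠ 0 := fun h3 => hij (Fin.ext (by omega))
      have h4 : (1 : ℝ) ≤ |((i : ℕ) : ℝ) - ((j : ℕ) : ℝ)| := by
        exact_mod_cast Int.one_le_abs h2
      rw [← sub_div, abs_div, abs_of_pos hK2]
      exact div_le_div_of_nonneg_right h4 hK2.le) (fun i => by
      have h2 := hnode i
      refine (abs_sub _ _).trans ?_
      rw [abs_of_nonneg h2.1]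
      linarith [h2.2]) fun i => hrM _ (hnode i)
  have e2 : eval b (Φ 1) = eval (p2 (ct Φ + s / 2 ^ W) 0) (Φ 1) :=
    Pool.SYS35.eval_congr (htri 1) fun i hi => by
      have h0 : i = 0 := by omega
      rw [h0, p2_zero, hs]
      field_simp
      ring
  have e3 : eval b (yl W Φ) = cy Φ + ys W Φ / 2 ^ W * s := by
    rw [eval_yl, hs]
    field_simp
  rw [e2, e3, ← hre]
  refine h1.trans (le_of_eq ?_)
  push_cast
  ring

variable {F : Fam m J} {c : ℕ → Fin m} {r W sg : ℕ} {g : ℕ → ℕ} {K : ℕ} {L : ℝ}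
  {A : F.Ω → Prop} {V : Type} {z : PtT F → V} {z' : LnT F → V} {P : V → ℕ → PN}

theorem ct_eq (hN : NLabW F c r W sg g K L A z z' P) {ω : F.Ω} (hω : A ω) :
    ct (P (z (ptr F J ω))) = (F.T1 W ω : ℝ) / 2 ^ W := by
  unfold ct
  rw [hN.zero ω hω, eval_C]

/-- The slope of the first coordinate is bounded. -/
theorem ys_le (hN : NLabW F c r W sg g K L A z z' P) {ω : F.Ω} (hω : A ω) :
    |ys W (P (z (ptr F J ω)))| ≤ L := by
  obtain ⟨Φ, hΦ⟩ : ∃ Φ, Φ = P (z (ptr F J ω)) := ⟨_, rfl⟩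
  have hct := ct_eq hN hω
  rw [← hΦ] at hct ⊢
  have p : (0 : ℝ) < 2 ^ W := by positivity
  have e1 : ∀ u, Function.update (p2 (ct Φ) 0) 0 u = p2 u 0 := by
    intro u
    funext i
    by_cases h : i = 0
    · rw [h, Function.update_self, p2_zero]
    · rw [Function.update_of_ne h]
      unfold p2
      rw [if_neg h, if_neg h]
  have q5 := mv_upd (Φ 1) (p2 (ct Φ) 0) 0 (x := ct Φ) (x' := ct Φ + 1 / 2 ^ W) (L := L) (by
      intro u hu
      rw [e1, hΦ]
      refine grd_one hN hω ?_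
      rw [← hct]
      have h3 := Set.abs_sub_left_of_mem_uIcc hu
      have h4 : |ct Φ + 1 / 2 ^ W - ct Φ| = 1 / 2 ^ W := by
        rw [add_sub_cancel_left, abs_of_pos (by positivity)]
      rw [h4] at h3
      exact h3.trans (div_le_div_of_nonneg_right (by norm_num) p.le))
  rw [e1, e1, add_sub_cancel_left, abs_of_pos (by positivity : (0 : ℝ) < 1 / 2 ^ W)] at q5
  have e2 : ys W Φ = 2 ^ W * (eval (p2 (ct Φ + 1 / 2 ^ W) 0) (Φ 1) -
    eval (p2 (ct Φ) 0) (Φ 1)) := rfl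
  rw [e2, abs_mul, abs_of_pos p]
  have := mul_le_mul_of_nonneg_left q5 p.le
  rwa [show (2 : ℝ) ^ W * (L * (1 / 2 ^ W)) = L by field_simp] at this

theorem wid_zero (W : ℕ) (g : ℕ → ℕ) : wid W g 0 = W := if_pos rfl

theorem wid_succ (W : ℕ) (g : ℕ → ℕ) (j : ℕ) : wid W g (j + 1) = g j := if_neg (Nat.succ_ne_zero j)

/-- **Closed labels on natural boxes for the affine polynomials.** -/
theorem nlabw_lb (r K : ℕ) (hr : 2 ≤ r) (hK : 1 ≤ K) : ∃ C : ℝ, 1 ≤ C ∧ ∀ {m J : ℕ}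
    {F : Fam m J} {c : ℕ → Fin m} {W sg : ℕ} {g g'' : ℕ → ℕ} {L : ℝ} {A : F.Ω → Prop} {V : Type}
    {z : PtT F → V} {z' : LnT F → V} {P : V → ℕ → PN} {ρ E E' Ey R : ℝ},
    NLabW F c r W sg g K L A z z' P → W ≤ J → g 0 ≤ J → 0 ≤ L →
    (∀ ω, A ω → AffZ F c W 1 ρ E E' (P (z (ptr F J ω)) 2) (az W (P (z (ptr F J ω)))) ω) →
    (∀ ω, A ω → ∀ b : ℕ → ℝ, |b 0 - ct (P (z (ptr F J ω)))| ≤ 4 / 2 ^ W →
      |eval b (P (z (ptr F J ω)) 1) - eval b (yl W (P (z (ptr F J ω))))| ≤ Ey) →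
    (∀ j, 2 ≤ j → g'' j = g j) → 1 / 2 ^ g 0 + Ey ≤ 1 / 2 ^ g'' 0 →
    1 / 2 ^ g 1 + E ≤ 1 / 2 ^ g'' 1 → 4 / 2 ^ g'' 0 + Ey ≤ R / 2 ^ g 0 →
    4 / 2 ^ g'' 1 + E ≤ R / 2 ^ g 1 → 4 ≤ R → 5 * (L + 1) + 5 * (2 ^ W / 2 ^ g'' 0) ≤ ρ →
    NLabW F c r W sg g'' K (max (max L E') (C * L * R ^ (K * (K + 1) ^ (r + 2)))) A z z'
      (fun v => lb W (P v)) := by
  obtain ⟨C, hC, hdil⟩ := Pool.STAT.CLO.dil (r + 1) K
  refine ⟨C, hC, ?_⟩
  intro m J F c W sg g g'' L A V z z' P ρ E E' Ey R hN hW h0 hL haff hyl hg'' hn0 hn1 hR0 hR1 hR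
    hρ
  have pW : (0 : ℝ) < 2 ^ W := by positivity
  have pg0 : (0 : ℝ) < 2 ^ g'' 0 := by positivity
  have pJW : (1 : ℝ) / 2 ^ J ≤ 1 / 2 ^ W :=
    div_le_div_of_nonneg_left zero_le_one pW (pow_le_pow_right₀ one_le_two hW)
  have hq0 : (0 : ℝ) ≤ 2 ^ W / 2 ^ g'' 0 := by positivity
  -- the position of the first coordinate
  have hpy : ∀ ω, A ω → |px c (ptr F J ω) 1 -
      eval (px c (ptr F J ω)) (yl W (P (z (ptr F J ω))))| ≤ 1 / 2 ^ g'' 0 := by
    intro ω hω
    have h1 := hN.pos ω hω 0 (by omega)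
    have h2 := hyl ω hω (px c (ptr F J ω)) (by
      rw [px_t, ct_eq hN hω]
      exact (t_win hW ω).trans (div_le_div_of_nonneg_right (by norm_num) pW.le))
    refine (abs_sub_le _ (eval (px c (ptr F J ω)) (P (z (ptr F J ω)) 1)) _).trans ?_
    exact (add_le_add h1 h2).trans hn0
  refine ⟨fun v i => deg_lb hK (hN.deg v) W i, fun v => tri_lb (hN.tri v) W, hN.cls,
    fun ω hω => hN.zero ω hω, fun ω hω i hi => ?_, fun ω hω => ?_, fun ω hω b hb i hi l hl => ?_⟩
  · -- the positions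
    rcases Nat.lt_or_ge i 1 with h | h
    · have hi0 : i = 0 := by omega
      rw [hi0]
      exact hpy ω hω
    · rcases Nat.lt_or_ge i 2 with h' | h'
      · have hi1 : i = 1 := by omega
        rw [hi1]
        have h1 := hN.pos ω hω 1 (by omega)
        have h2 := (haff ω hω).pol (px c (ptr F J ω)) (by
          rw [px_t, sub_self, abs_zero]
          exact div_nonneg (by linarith) pW.le) ((px_x F c ω 0).trans (pJW.trans
            (div_le_div_of_nonneg_right (by linarith) pW.le)))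
        refine (abs_sub_le _ (eval (px c (ptr F J ω)) (P (z (ptr F J ω)) 2)) _).trans ?_
        show _ + |eval (px c (ptr F J ω)) (P (z (ptr F J ω)) 2) -
          eval (px c (ptr F J ω)) (zl W (P (z (ptr F J ω))))| ≤ _
        rw [eval_zl]
        exact (add_le_add h1 h2).trans hn1
      · show |px c (ptr F J ω) (i + 1) - eval (px c (ptr F J ω)) (lb W (P (z (ptr F J ω)))
          (i + 1))| ≤ 1 / 2 ^ g'' i
        rw [lb_ge W _ (by omega), hg'' i h']
        exact hN.pos ω hω i hi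
  · show |px c (ptr F J ω) (r + 1) / 2 ^ sg - eval (px c (ptr F J ω))
      (lb W (P (z (ptr F J ω))) (r + 1))| ≤ 1 / 2 ^ g'' r + 1 / 2 ^ J
    rw [lb_ge W _ (by omega), hg'' r hr]
    exact hN.posN ω hω
  · -- the gradients
    have hb' : Bxr 4 (wid W g'') (lb W (P (z (ptr F J ω)))) (r + 1) b := hb
    obtain ⟨Φ, hΦ⟩ : ∃ Φ, Φ = P (z (ptr F J ω)) := ⟨_, rfl⟩
    have htri : TriN Φ := by
      rw [hΦ]
      exact hN.tri _
    have hct := ct_eq hN hω
    have hz0 := hN.zero ω hω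
    have hys := ys_le hN hω
    have ha := haff ω hω
    have hyl' := hyl ω hω
    have hpy' := hpy ω hω
    show |eval b (pderiv l (lb W (P (z (ptr F J ω))) i))| ≤ _
    rw [← hΦ] at hb' hct hz0 hys ha hyl' hpy' ⊢
    have hb0 : |b 0 - ct Φ| ≤ 4 / 2 ^ W := by
      have h1 := hb' 0 (by omega)
      rw [lb_zero, wid_zero, hz0, eval_C, ← hct] at h1
      exact h1
    have hb1 : |b 1 - eval b (yl W Φ)| ≤ 4 / 2 ^ g'' 0 := by
      have h1 := hb' 1 (by omega)
      rw [lb_one, wid_succ] at h1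
      exact h1
    have hb2 : |b 2 - eval b (zl W Φ)| ≤ 4 / 2 ^ g'' 1 := by
      have h1 := hb' 2 (by omega)
      rw [lb_two, wid_succ] at h1
      exact h1
    have hbt : |b 0 - F.t ω| ≤ 5 / 2 ^ W := by
      have h1 := t_win hW ω
      rw [← hct, abs_sub_comm] at h1
      refine (abs_sub_le _ (ct Φ) _).trans ((add_le_add hb0 h1).trans (le_of_eq ?_))
      ring
    have hby : |b 1 - F.x ω (c 0)| ≤ ρ / 2 ^ W := by
      have e1 : b 1 - F.x ω (c 0) = (b 1 - eval b (yl W Φ)) +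
          ys W Φ * (b 0 - F.t ω) + (-(px c (ptr F J ω) 1 -
            eval (px c (ptr F J ω)) (yl W Φ)) + (px c (ptr F J ω) 1 - F.x ω (c 0))) := by
        rw [eval_yl, eval_yl, px_t]
        ring
      rw [e1]
      have h1 : |ys W Φ * (b 0 - F.t ω)| ≤ L * (5 / 2 ^ W) := by
        rw [abs_mul]
        exact mul_le_mul hys hbt (abs_nonneg _) hL
      have h2 : |-(px c (ptr F J ω) 1 - eval (px c (ptr F J ω)) (yl W Φ)) +
          (px c (ptr F J ω) 1 - F.x ω (c 0))| ≤ 1 / 2 ^ g'' 0 + 1 / 2 ^ W := by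
        refine (abs_add_le _ _).trans (add_le_add ?_ ((px_x F c ω 0).trans pJW))
        rw [abs_neg]
        exact hpy'
      refine (abs_add_le _ _).trans ((add_le_add ((abs_add_le _ _).trans
        (add_le_add hb1 h1)) h2).trans ?_)
      rw [le_div_iff₀ pW]
      have e2 : (4 / 2 ^ g'' 0 + L * (5 / 2 ^ W) + (1 / 2 ^ g'' 0 + 1 / 2 ^ W)) * (2 : ℝ) ^ W =
          5 * L + 1 + 5 * (2 ^ W / 2 ^ g'' 0) := by
        field_simp
        ring
      rw [e2]
      linarith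
    have hbox : Bxr R (wid W g) Φ (r + 1) b := by
      intro j hj
      rcases Nat.lt_or_ge j 1 with h | h
      · have hj0 : j = 0 := by omega
        rw [hj0, hz0, eval_C, ← hct, wid_zero]
        exact hb0.trans (div_le_div_of_nonneg_right hR pW.le)
      · rcases Nat.lt_or_ge j 2 with h' | h'
        · have hj1 : j = 1 := by omega
          rw [hj1, wid_succ]
          refine (abs_sub_le _ (eval b (yl W Φ)) _).trans ?_
          rw [abs_sub_comm (eval b (yl W Φ))]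
          exact (add_le_add hb1 (hyl' b hb0)).trans hR0
        · rcases Nat.lt_or_ge j 3 with h3 | h3
          · have hj2 : j = 2 := by omega
            rw [hj2, wid_succ]
            refine (abs_sub_le _ (eval b (zl W Φ)) _).trans ?_
            rw [abs_sub_comm (eval b (zl W Φ)), eval_zl]
            rw [eval_zl] at hb2
            exact (add_le_add hb2 (ha.pol b (hbt.trans (div_le_div_of_nonneg_right
              (by linarith) pW.le)) hby)).trans hR1
          · have h4 := hb' j hj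
            obtain ⟨j', rfl⟩ : ∃ j', j = j' + 1 := ⟨j - 1, by omega⟩
            rw [lb_ge W _ h3, wid_succ, hg'' j' (by omega)] at h4
            rw [wid_succ]
            exact h4.trans (div_le_div_of_nonneg_right hR (by positivity))
    rcases Nat.lt_or_ge i 3 with h3 | h3
    · refine le_trans ?_ (le_max_left _ _)
      rcases Nat.lt_or_ge i 2 with h2 | h2
      · have hi1 : i = 1 := by omega
        have hl0 : l = 0 := by omega
        refine le_trans ?_ (le_max_left _ _)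
        rw [hi1, hl0, lb_one, pd_yl]
        exact hys
      · have hi2 : i = 2 := by omega
        refine le_trans ?_ (le_max_right _ _)
        rw [hi2, lb_two]
        rcases Nat.lt_or_ge l 1 with h1 | h1
        · have hl0 : l = 0 := by omega
          rw [hl0, pd_zl_zero]
          exact ha.slp.1
        · have hl1 : l = 1 := by omega
          rw [hl1, pd_zl_one]
          exact ha.slp.2
    · refine le_trans ?_ (le_max_right _ _)
      rw [lb_ge W _ h3]
      refine hdil Φ (wid W g) (pderiv l (Φ i)) i L R htri (fun j => by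
        rw [hΦ]
        exact hN.deg _ j) hi ((vars_pd l _).trans (htri i)) ?_ (by linarith) ?_ b
        (hbox.mono le_rfl hi)
      · refine Pool.KS3.SML.totalDegree_pderiv_le l (Φ i) K ?_
        rw [hΦ]
        exact (hN.deg _ i).trans (Nat.le_succ K)
      · intro b₁ hb₁
        obtain ⟨b₂, hb₂, h5⟩ := ext_box htri (wid W g) zero_le_one (r + 1) hb₁
        have h6 : eval b₁ (pderiv l (Φ i)) = eval b₂ (pderiv l (Φ i)) :=
          Pool.SYS35.eval_congr ((vars_pd l _).trans (htri i)) fun j hj => (h5 j hj).symm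
        rw [h6, hΦ]
        rw [hΦ] at hb₂
        exact hN.grad ω hω b₂ (hb₂.mono (by norm_num) le_rfl) i hi l hl

end Pool.PLA
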