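import Pool.Agent.H24.PLN.Lb

/-!
# Labels with affine polynomials: classes

`lab_cls`: in a class with the active coordinate `c 0`, closed labels on natural boxes of any degree
become closed labels with affine polynomials of `c 0` and `c 1`, with smaller precisions and larger
gradients, by factors `exp (b J)` with `b` as small as we want.
-/

set_option autoImplicit false

namespace Pool.PLA

open Finset Real MvPolynomial
open Pool.Agent.H49.Ent Pool.Agent.H32.Dense Pool.STK Pool.KA Pool.KSAT Pool.K2S Pool.PB Pool.STAT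
  Pool.GEN Pool.M3F Pool.S6C
open Pool.FLF (Fam.sub)
open Pool.PB.Trl (rt rt_mem t_rt)
open Pool.STAT.CLO (Bxr nc nc_nuc box_nuc nc_le)

variable {m J : ℕ}

/-- Two large events. -/
theorem pe_two {F : Fam m J} {A B₁ B₂ : F.Ω → Prop} {η₁ η₂ : ℝ} (h1 : Sub B₁ A) (h2 : Sub B₂ A)
    (hp1 : (1 - η₁) * Pe F.p A ≤ Pe F.p B₁) (hp2 : (1 - η₂) * Pe F.p A ≤ Pe F.p B₂) :
    (1 - (η₁ + η₂)) * Pe F.p A ≤ Pe F.p (fun ω => B₁ ω ∧ B₂ ω) := by
  classical
  have e1 := Pe_parts (p := F.p) (B := A) (B' := B₂) h2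
  have e2 := Pe_parts (p := F.p) (B := B₁) (B' := fun ω => B₁ ω ∧ B₂ ω) fun ω hω => hω.1
  have e3 : Pe F.p (fun ω => B₁ ω ∧ ¬ (B₁ ω ∧ B₂ ω)) ≤ Pe F.p (fun ω => A ω ∧ ¬ B₂ ω) :=
    Pe_mono F.isLaw fun ω hω => ⟨h1 ω hω.1, fun h => hω.2 ⟨hω.1, h⟩⟩
  linarith

theorem inv_sub_pow {b g : ℕ} (h : b ≤ g) : (1 : ℝ) / 2 ^ (g - b) = 2 ^ b / 2 ^ g := by
  rw [div_eq_div_iff (by positivity) (by positivity), one_mul, ← pow_add, Nat.add_sub_cancel' h]

/-- Powers of two above exponentials. -/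
theorem exp_le_two {x : ℝ} {n : ℕ} (h : x ≤ 0.69 * n) : Real.exp x ≤ 2 ^ n := by
  have h1 : (0.69 : ℝ) ≤ Real.log 2 := by
    have := Real.log_two_gt_d9
    linarith
  have e1 : (2 : ℝ) ^ n = Real.exp (n * Real.log 2) := by
    rw [Real.exp_nat_mul, Real.exp_log (by norm_num)]
  rw [e1]
  refine Real.exp_le_exp.2 (h.trans ?_)
  rw [mul_comm]
  exact mul_le_mul_of_nonneg_left h1 (Nat.cast_nonneg n)

/-! ### Numbers -/

theorem num_z {X : ℝ} (h : 16 ≤ X) {n : ℕ} (hn : X / 2 ≤ n) : 1 + Real.exp (X / 4) ≤ 2 ^ n := by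
  have h1 : 2 ≤ Real.exp (3 * X / 32) := by
    have := Real.add_one_le_exp (3 * X / 32)
    linarith
  have h2 : 1 ≤ Real.exp (X / 4) := Real.one_le_exp (by linarith)
  calc 1 + Real.exp (X / 4) ≤ 2 * Real.exp (X / 4) := by linarith
    _ ≤ Real.exp (3 * X / 32) * Real.exp (X / 4) :=
        mul_le_mul_of_nonneg_right h1 (Real.exp_pos _).le
    _ = Real.exp (3 * X / 32 + X / 4) := (Real.exp_add _ _).symm
    _ ≤ 2 ^ n := exp_le_two (by linarith)

theorem num_y {C Y : ℝ} (hC : 0 ≤ C) (hY : Real.log (1 + C) ≤ Y) (hY0 : 0 ≤ Y) {n : ℕ}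
    (hn : 3 * Y ≤ n) : 1 + C * Real.exp Y ≤ 2 ^ n := by
  have h1 : 1 + C ≤ Real.exp Y := by
    have := Real.exp_le_exp.2 hY
    rwa [Real.exp_log (by linarith)] at this
  have h2 : 1 ≤ Real.exp Y := Real.one_le_exp hY0
  calc 1 + C * Real.exp Y ≤ (1 + C) * Real.exp Y := by linarith
    _ ≤ Real.exp Y * Real.exp Y := mul_le_mul_of_nonneg_right h1 (Real.exp_pos _).le
    _ = Real.exp (Y + Y) := (Real.exp_add _ _).symm
    _ ≤ 2 ^ n := exp_le_two (by linarith)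

theorem num_rho {Z L q : ℝ} (hZ : 8 ≤ Z) (hL : 1 + L ≤ Real.exp (1 + Z))
    (hq : q ≤ Real.exp (1 + Z)) : 5 * (L + 1) + 5 * q ≤ Real.exp (2 * Z) := by
  have h4 : 10 ≤ Real.exp (Z - 1) := by
    have h5 : Real.exp 7 ≤ Real.exp (Z - 1) := Real.exp_le_exp.2 (by linarith)
    have h6 : (10 : ℝ) ≤ Real.exp 7 := by
      have h7 : (2 : ℝ) ≤ Real.exp 1 := by
        have := Real.add_one_le_exp (1 : ℝ)
        linarith
      have h8 : Real.exp 7 = Real.exp 1 ^ 7 := by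
        rw [← Real.exp_nat_mul]
        norm_num
      rw [h8]
      calc (10 : ℝ) ≤ 2 ^ 7 := by norm_num
        _ ≤ Real.exp 1 ^ 7 := pow_le_pow_left₀ (by norm_num) h7 7
    exact h6.trans h5
  calc 5 * (L + 1) + 5 * q ≤ 5 * Real.exp (1 + Z) + 5 * Real.exp (1 + Z) := by linarith
    _ = 10 * Real.exp (1 + Z) := by ring
    _ ≤ Real.exp (Z - 1) * Real.exp (1 + Z) :=
        mul_le_mul_of_nonneg_right h4 (Real.exp_pos _).le
    _ = Real.exp (2 * Z) := by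
        rw [← Real.exp_add]
        congr 1
        ring

theorem num_L {C L U X B : ℝ} {p : ℕ} (hC : 1 ≤ C) (hU : 0 ≤ U) (hL0 : 0 ≤ L)
    (hL : 1 + L ≤ Real.exp U) (hX : 16 ≤ X) (hUX : 4 * U ≤ X) (hXB : 8 * X ≤ 4 * B)
    (hXp : (p + 2) * X ≤ B) (hB : Real.log (1 + C) + p * Real.log 5 ≤ B) :
    1 + max (max L (Real.exp (X / 4))) (C * L * (5 * Real.exp X) ^ p) ≤ Real.exp (4 * B) := by
  have hmax : ∀ x y : ℝ, 1 + x ≤ Real.exp (4 * B) → 1 + y ≤ Real.exp (4 * B) →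
      1 + max x y ≤ Real.exp (4 * B) := by
    intro x y h1 h2
    rcases max_cases x y with h3 | h3
    · rw [h3.1]
      exact h1
    · rw [h3.1]
      exact h2
  refine hmax _ _ (hmax _ _ ?_ ?_) ?_
  · exact hL.trans (Real.exp_le_exp.2 (by linarith))
  · have h1 : 2 ≤ Real.exp X := by
      have := Real.add_one_le_exp X
      linarith
    have h2 : 1 ≤ Real.exp (X / 4) := Real.one_le_exp (by linarith)
    calc 1 + Real.exp (X / 4) ≤ 2 * Real.exp (X / 4) := by linarith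
      _ ≤ Real.exp X * Real.exp (X / 4) := mul_le_mul_of_nonneg_right h1 (Real.exp_pos _).le
      _ = Real.exp (X + X / 4) := (Real.exp_add _ _).symm
      _ ≤ Real.exp (4 * B) := Real.exp_le_exp.2 (by linarith)
  · have h5 : Real.exp (p * Real.log 5) = 5 ^ p := by
      rw [Real.exp_nat_mul, Real.exp_log (by norm_num)]
    have h6 : Real.exp (p * X) = Real.exp X ^ p := Real.exp_nat_mul _ _
    have h7 : (1 : ℝ) ≤ 5 ^ p * Real.exp (p * X) :=
      one_le_mul_of_one_le_of_one_le (one_le_pow₀ (by norm_num))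
        (Real.one_le_exp (mul_nonneg (Nat.cast_nonneg p) (by linarith)))
    have h10 : 1 ≤ Real.exp U := Real.one_le_exp hU
    have h9 : 1 + C * L ≤ (1 + C) * Real.exp U := by
      have h11 : C * L ≤ C * (Real.exp U - 1) := mul_le_mul_of_nonneg_left (by linarith)
        (by linarith)
      linarith
    have hCL : 0 ≤ C * L := mul_nonneg (by linarith) hL0
    have h8 : 1 + C * L * (5 * Real.exp X) ^ p ≤
        (1 + C) * Real.exp U * (5 ^ p * Real.exp (p * X)) := by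
      rw [mul_pow, ← h6]
      calc 1 + C * L * (5 ^ p * Real.exp (p * X)) ≤
            (1 + C * L) * (5 ^ p * Real.exp (p * X)) := by linarith
        _ ≤ (1 + C) * Real.exp U * (5 ^ p * Real.exp (p * X)) :=
            mul_le_mul_of_nonneg_right h9 (by linarith)
    refine h8.trans ?_
    have h12 : (1 + C) * Real.exp U * (5 ^ p * Real.exp (p * X)) =
        Real.exp (Real.log (1 + C) + U + (p * Real.log 5 + p * X)) := by
      rw [Real.exp_add, Real.exp_add, Real.exp_add, Real.exp_log (by linarith), h5]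
    rw [h12]
    refine Real.exp_le_exp.2 ?_
    have e1 : (p + 2) * X = p * X + 2 * X := by ring
    rw [e1] at hXp
    linarith

theorem num_a {a0 a1 a2 x1 x0 t q E : ℝ} (h1 : |a1| ≤ E) (h2 : |a2| ≤ E) (hx1 : |x1| ≤ 2)
    (hx0 : |x0| ≤ 2) (ht : |t| ≤ 1) (hq : |x1 - (a0 + a1 * t + a2 * x0)| ≤ q) (hqE : q ≤ E)
    (hE : 1 ≤ E) : |a0| ≤ 6 * E := by
  have e1 : a0 = x1 - a1 * t - a2 * x0 - (x1 - (a0 + a1 * t + a2 * x0)) := by ring
  have h5 : |a1 * t| ≤ E := by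
    rw [abs_mul]
    calc |a1| * |t| ≤ E * 1 := mul_le_mul h1 ht (abs_nonneg _) (by linarith)
      _ = E := mul_one _
  have h6 : |a2 * x0| ≤ 2 * E := by
    rw [abs_mul]
    calc |a2| * |x0| ≤ E * 2 := mul_le_mul h2 hx0 (abs_nonneg _) (by linarith)
      _ = 2 * E := mul_comm _ _
  rw [e1]
  refine (abs_sub _ _).trans ((add_le_add ((abs_sub _ _).trans (add_le_add
    ((abs_sub _ _).trans (add_le_add hx1 h5)) h6)) (hq.trans hqE)).trans ?_)
  linarith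

/-- **A label with affine polynomials.** -/
structure LabA (F : Fam m J) (c : ℕ → Fin m) (r W sg : ℕ) (g g'' : ℕ → ℕ) (K : ℕ) (L b : ℝ)
    (B : F.Ω → Prop) {V : Type} (z : PtT F → V) (z' : LnT F → V) (P' : V → ℕ → PN)
    (a : V → Fin 3 → ℝ) : Prop where
  lab : NLabW F c r W sg g'' K L B z z' P'
  dg : ∀ v, ∀ i < 3, (P' v i).totalDegree ≤ 1
  gle : ∀ j, g'' j ≤ g j
  gge : ∀ j, (g j : ℝ) ≤ g'' j + b * J
  geq : ∀ j, 2 ≤ j → g'' j = g j
  L0 : 0 ≤ L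
  L1 : Real.log (1 + L) ≤ b * J
  pl : ∀ v x, eval x (P' v 2) = a v 0 + a v 1 * x 0 + a v 2 * x 1
  pos : ∀ ω, B ω → ∀ t : ℝ, |t - F.t ω| ≤ 4 / 2 ^ W → |F.u ω (c 1) + t * F.d ω (c 1) -
    (a (z (ptr F J ω)) 0 + a (z (ptr F J ω)) 1 * t +
      a (z (ptr F J ω)) 2 * (F.u ω (c 0) + t * F.d ω (c 0)))| ≤ 1 / 2 ^ g'' 1
  siz : ∀ ω, B ω → ∀ i, |a (z (ptr F J ω)) i| ≤ Real.exp (b * J)

/-- **Labels with affine polynomials**, in a class. -/
theorem lab_cls (K : ℕ) (hK : 1 ≤ K) {r : ℕ} (hr : 2 ≤ r) {S : PCl m}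
    (hpos : ∀ (τ : ℝ) (J : ℕ) (F : Fam m J) (A : F.Ω → Prop), S.St τ J F A → 0 < Pe F.p A)
    (hTm : ∀ ε : ℝ, 0 < ε → Bas S (fun J F A => ∀ h : 0 < Pe F.p A,
      (Fam.sub F A h).Tm (ε * J)))
    (hx : ∀ (τ : ℝ) (J : ℕ) (F : Fam m J) (A : F.Ω → Prop), S.St τ J F A →
      ∀ ω i, |F.x ω i| ≤ 2)
    {N : ℚ → ℚ → ℝ} {al : ℝ} (hal : 0 < al) (hQ : ActQ N al) {c : ℕ → Fin m}
    (hact : ActB N S (c 0)) {w : ℝ} (hw0 : 0 < w) (hw1 : w < 1) {b η : ℝ} (hb : 0 < b)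
    (hη : 0 < η) :
    ∃ δ : ℝ, 0 < δ ∧ Bas S (fun J F A => ∀ (g' : ℕ → ℕ) (sg : ℕ) (L : ℝ) (V : Type)
      (z : PtT F → V) (z' : LnT F → V) (P : V → ℕ → PN),
      (⌊w * J⌋₊ : ℝ) ≤ g' 0 + δ * J → g' 0 ≤ J → (⌊w * J⌋₊ : ℝ) ≤ g' 1 + δ * J → g' 1 ≤ J →
      0 ≤ L → Real.log (1 + L) ≤ δ * J → NLabW F c r ⌊w * J⌋₊ sg g' K L A z z' P →
      ∃ (B : F.Ω → Prop) (P' : V → ℕ → PN) (g'' : ℕ → ℕ) (L'' : ℝ) (a : V → Fin 3 → ℝ),
        Sub B A ∧ (1 - η) * Pe F.p A ≤ Pe F.p B ∧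
          LabA F c r ⌊w * J⌋₊ sg g' g'' K L'' b B z z' P' a) := by
  classical
  obtain ⟨C, hC, hlb⟩ := nlabw_lb r K hr hK
  have hC0 : 0 < C := by linarith
  obtain ⟨p, hp⟩ : ∃ p : ℕ, p = K * (K + 1) ^ (r + 2) := ⟨_, rfl⟩
  obtain ⟨b₁, hb₁⟩ : ∃ b₁ : ℝ, b₁ = min (b / (4 * (p + 2))) (w / 8) := ⟨_, rfl⟩
  have hb₁0 : 0 < b₁ := by
    rw [hb₁]
    exact lt_min (by positivity) (by linarith)
  have hb₁w : 8 * b₁ ≤ w := by
    have : b₁ ≤ w / 8 := by
      rw [hb₁]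
      exact min_le_right _ _
    linarith
  have hb₁b : (p + 2) * b₁ ≤ b / 4 := by
    have h1 : b₁ ≤ b / (4 * (p + 2)) := by
      rw [hb₁]
      exact min_le_left _ _
    rw [le_div_iff₀ (by positivity)] at h1
    linarith
  have hpb : 0 ≤ (p : ℝ) * b₁ := by positivity
  have hb₁b' : 8 * b₁ ≤ b := by nlinarith
  obtain ⟨δ₁, hδ₁, haff⟩ := aff_cls K r hpos hTm hal hQ hact hw0.le hw1 (φ := b₁ / 4)
    (η := η / 2) (by linarith) (by linarith)
  obtain ⟨φy, hφy⟩ : ∃ φy : ℝ, φy = min (δ₁ / 8) (b₁ / 8) := ⟨_, rfl⟩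
  have hφy0 : 0 < φy := by
    rw [hφy]
    exact lt_min (by linarith) (by linarith)
  have hφy1 : φy ≤ δ₁ / 8 := by
    rw [hφy]
    exact min_le_left _ _
  have hφy2 : φy ≤ b₁ / 8 := by
    rw [hφy]
    exact min_le_right _ _
  have hyv := yv_cls K (by omega : 1 ≤ r) hpos hTm (c := c) hw0.le hw1 (φ := φy) (η := η / 2)
    hφy0 (by linarith)
  obtain ⟨δ, hδ⟩ : ∃ δ : ℝ, δ = min (δ₁ / 4) (b₁ / 4) := ⟨_, rfl⟩
  have hδ0 : 0 < δ := by
    rw [hδ]
    exact lt_min (by linarith) (by linarith)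
  have hδ1 : δ ≤ δ₁ / 4 := by
    rw [hδ]
    exact min_le_left _ _
  have hδ2 : δ ≤ b₁ / 4 := by
    rw [hδ]
    exact min_le_right _ _
  obtain ⟨CK, hCK⟩ : ∃ CK : ℝ, CK = (K + 2) * (2 * 2 * (2 * 4 * (K + 2)) ^ (K + 1)) := ⟨_, rfl⟩
  have hCK0 : 0 ≤ CK := by
    rw [hCK]
    positivity
  obtain ⟨J₁, hJ₁⟩ := big_ex (Real.log (1 + CK)) hφy0
  obtain ⟨J₂, hJ₂⟩ := big_ex (16 : ℝ) (s := b₁) hb₁0
  obtain ⟨J₃, hJ₃⟩ := big_ex (8 : ℝ) (s := δ₁) hδ₁
  obtain ⟨J₄, hJ₄⟩ := big_ex (Real.log (1 + C) + p * Real.log 5) (s := b / 4) (by linarith)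
  refine ⟨δ, hδ0, ?_⟩
  refine (haff.and (hyv.and (⟨1, one_pos, 0, fun J _ F A hA => hx 1 J F A hA⟩ :
    Bas S (fun _ F _ => ∀ ω i, |F.x ω i| ≤ 2)))).mono (max (max J₁ J₂) (max J₃ J₄)) ?_
  rintro J hJ F A ⟨ha, hy, hxA⟩ g' sg L V z z' P hg0 hg0J hg1 hg1J hL hLδ hN
  have hJ0 : (0 : ℝ) ≤ J := Nat.cast_nonneg J
  have f1 := hJ₁ J ((le_max_left _ _).trans ((le_max_left _ _).trans hJ))
  have f2 := hJ₂ J ((le_max_right _ _).trans ((le_max_left _ _).trans hJ))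
  have f3 := hJ₃ J ((le_max_left _ _).trans ((le_max_right _ _).trans hJ))
  have f4 := hJ₄ J ((le_max_right _ _).trans ((le_max_right _ _).trans hJ))
  have hδ₁J : δ * J ≤ δ₁ * J := mul_le_mul_of_nonneg_right (by linarith) hJ0
  obtain ⟨B₁, hB₁A, hPB₁, hB₁⟩ := ha g' sg 1 L V z z' P (Or.inl ⟨hr, rfl⟩) (by linarith) hg0J
    (by linarith) hg1J hL (by linarith) hN
  obtain ⟨B₂, hB₂A, hPB₂, hB₂⟩ := hy g' sg L V z z' P hg0J hN
  obtain ⟨W, hWe⟩ : ∃ W, W = ⌊w * J⌋₊ := ⟨_, rfl⟩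
  rw [← hWe] at hN hg0 hg1 hB₁ hB₂ ⊢
  have hWw : (W : ℝ) ≤ w * J := by
    rw [hWe]
    exact Nat.floor_le (by positivity)
  have hWw' : w * J - 1 ≤ W := by
    rw [hWe]
    exact (Nat.sub_one_lt_floor _).le
  have hWJ : W ≤ J := by
    have : (W : ℝ) ≤ J := hWw.trans (by nlinarith)
    exact_mod_cast this
  have pW : (0 : ℝ) < 2 ^ W := by positivity
  -- the numbers
  obtain ⟨X, hX⟩ : ∃ X : ℝ, X = b₁ * J := ⟨_, rfl⟩
  obtain ⟨Y, hY⟩ : ∃ Y : ℝ, Y = φy * J := ⟨_, rfl⟩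
  obtain ⟨Z, hZ⟩ : ∃ Z : ℝ, Z = δ₁ * J := ⟨_, rfl⟩
  obtain ⟨U, hU⟩ : ∃ U : ℝ, U = δ * J := ⟨_, rfl⟩
  have hY0 : 0 ≤ Y := by
    rw [hY]
    positivity
  have hU0 : 0 ≤ U := by
    rw [hU]
    positivity
  rw [← hX] at f2
  rw [← hY] at f1
  rw [← hZ] at f3
  have hYZ : 8 * Y ≤ Z := by
    have := mul_le_mul_of_nonneg_right hφy1 hJ0
    rw [hY, hZ]
    linarith
  have hYX : 8 * Y ≤ X := by
    have := mul_le_mul_of_nonneg_right hφy2 hJ0
    rw [hY, hX]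
    linarith
  have hUZ : 4 * U ≤ Z := by
    have := mul_le_mul_of_nonneg_right hδ1 hJ0
    rw [hU, hZ]
    linarith
  have hUX : 4 * U ≤ X := by
    have := mul_le_mul_of_nonneg_right hδ2 hJ0
    rw [hU, hX]
    linarith
  have hXw : 8 * X ≤ w * J := by
    have := mul_le_mul_of_nonneg_right hb₁w hJ0
    rw [hX]
    linarith
  have hXb : 8 * X ≤ b * J := by
    have := mul_le_mul_of_nonneg_right hb₁b' hJ0
    rw [hX]
    linarith
  have hXp : (p + 2) * X ≤ b / 4 * J := by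
    have := mul_le_mul_of_nonneg_right hb₁b hJ0
    rw [hX]
    linarith
  have e14 : b₁ / 4 * J = X / 4 := by
    rw [hX]
    ring
  have e2Z : 2 * δ₁ * J = 2 * Z := by
    rw [hZ]
    ring
  rw [e14, e2Z] at hB₁
  rw [← hY] at hB₂
  rw [← hU] at hg0 hg1 hLδ
  obtain ⟨βy, hβy⟩ : ∃ βy : ℕ, βy = ⌈3 * Y⌉₊ := ⟨_, rfl⟩
  obtain ⟨βz, hβz⟩ : ∃ βz : ℕ, βz = ⌈X / 2⌉₊ := ⟨_, rfl⟩
  have hβy1 : 3 * Y ≤ βy := by
    rw [hβy]
    exact Nat.le_ceil _
  have hβy2 : (βy : ℝ) ≤ 3 * Y + 1 := by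
    rw [hβy]
    exact (Nat.ceil_lt_add_one (by positivity)).le
  have hβz1 : X / 2 ≤ βz := by
    rw [hβz]
    exact Nat.le_ceil _
  have hβz2 : (βz : ℝ) ≤ X / 2 + 1 := by
    rw [hβz]
    exact (Nat.ceil_lt_add_one (by linarith)).le
  have hβyg : βy ≤ g' 0 := by
    have : (βy : ℝ) ≤ g' 0 := by linarith
    exact_mod_cast this
  have hβzg : βz ≤ g' 1 := by
    have : (βz : ℝ) ≤ g' 1 := by linarith
    exact_mod_cast this
  obtain ⟨g'', hg''⟩ : ∃ g'' : ℕ → ℕ, g'' = fun j => if j = 0 then g' 0 - βy else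
    if j = 1 then g' 1 - βz else g' j := ⟨_, rfl⟩
  have hg''0 : g'' 0 = g' 0 - βy := by
    rw [hg'']
    exact if_pos rfl
  have hg''1 : g'' 1 = g' 1 - βz := by
    rw [hg'']
    dsimp only
    rw [if_neg one_ne_zero, if_pos rfl]
  have hg''2 : ∀ j, 2 ≤ j → g'' j = g' j := by
    intro j hj
    rw [hg'']
    dsimp only
    rw [if_neg (by omega), if_neg (by omega)]
  have pg0 : (0 : ℝ) < 2 ^ g' 0 := by positivity
  have pg1 : (0 : ℝ) < 2 ^ g' 1 := by positivity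
  have i0 : (1 : ℝ) / 2 ^ g'' 0 = 2 ^ βy / 2 ^ g' 0 := by
    rw [hg''0]
    exact inv_sub_pow hβyg
  have i1 : (1 : ℝ) / 2 ^ g'' 1 = 2 ^ βz / 2 ^ g' 1 := by
    rw [hg''1]
    exact inv_sub_pow hβzg
  have hN1 : 1 + CK * Real.exp Y ≤ 2 ^ βy := num_y hCK0 f1 hY0 hβy1
  have hN2 : 1 + Real.exp (X / 4) ≤ 2 ^ βz := num_z f2 hβz1
  obtain ⟨R, hR⟩ : ∃ R : ℝ, R = 5 * Real.exp X := ⟨_, rfl⟩
  have hby : (2 : ℝ) ^ βy ≤ Real.exp X := (two_le_exp βy).trans (Real.exp_le_exp.2 (by linarith))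
  have hbz : (2 : ℝ) ^ βz ≤ Real.exp X := (two_le_exp βz).trans (Real.exp_le_exp.2 (by linarith))
  obtain ⟨Ey, hEy⟩ : ∃ Ey : ℝ, Ey = CK * Real.exp Y / 2 ^ g' 0 := ⟨_, rfl⟩
  have hL1 : 1 + L ≤ Real.exp U := by
    rw [← Real.log_le_iff_le_exp (by linarith)]
    exact hLδ
  have hlab := hlb (F := F) (c := c) (W := W) (sg := sg) (g := g') (g'' := g'') (L := L)
    (A := fun ω => B₁ ω ∧ B₂ ω) (z := z) (z' := z') (P := P) (ρ := Real.exp (2 * Z))
    (E := Real.exp (X / 4) / 2 ^ g' 1) (E' := Real.exp (X / 4)) (Ey := Ey) (R := R)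
    (nlabw_mono hN fun ω hω => hB₁A ω hω.1) hWJ hg0J hL (fun ω hω => hB₁ ω hω.1)
    (by
      intro ω hω b hb
      have h1 := hB₂ ω hω.2
      have hωA := hB₂A ω hω.2
      have hct := ct_eq hN hωA
      refine (yl_near (K := K) (hN.tri _) (hN.deg _ _) (M := Real.exp Y * (2 / 2 ^ g' 0))
        (u := F.x ω (c 0) - 1 / 2 ^ W * rt F W ω * F.d ω (c 0))
        (v := 1 / 2 ^ W * F.d ω (c 0)) (ρ := 4) (by
          intro τ hτ
          have h2 := h1 τ hτ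
          have e1 : F.t ω + 1 / 2 ^ W * (τ - rt F W ω) =
              ct (P (z (ptr F J ω))) + τ / 2 ^ W := by
            have e2 : ((slam F W ω).2.2 : ℝ) = (F.T1 W ω : ℝ) := rfl
            rw [hct, t_rt F hWJ ω, e2]
            ring
          rw [e1] at h2
          have e3 : F.x ω (c 0) - 1 / 2 ^ W * rt F W ω * F.d ω (c 0) +
              1 / 2 ^ W * F.d ω (c 0) * τ = F.x ω (c 0) + 1 / 2 ^ W * (τ - rt F W ω) *
                F.d ω (c 0) := by ring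
          rw [e3]
          exact h2) (by norm_num) hb).trans (le_of_eq ?_)
      rw [hEy, hCK]
      ring)
    hg''2 (by
      rw [hEy, i0, ← add_div]
      exact div_le_div_of_nonneg_right hN1 pg0.le) (by
      rw [i1, ← add_div]
      exact div_le_div_of_nonneg_right hN2 pg1.le) (by
      have e1 : (4 : ℝ) / 2 ^ g'' 0 = 4 * (1 / 2 ^ g'' 0) := by ring
      rw [e1, i0, hEy, ← mul_div_assoc, ← add_div]
      refine div_le_div_of_nonneg_right ?_ pg0.le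
      rw [hR]
      linarith) (by
      have e1 : (4 : ℝ) / 2 ^ g'' 1 = 4 * (1 / 2 ^ g'' 1) := by ring
      rw [e1, i1, ← mul_div_assoc, ← add_div]
      refine div_le_div_of_nonneg_right ?_ pg1.le
      rw [hR]
      linarith) (by
      have : 1 ≤ Real.exp X := Real.one_le_exp (by linarith)
      rw [hR]
      linarith) (by
      have h1 : (2 : ℝ) ^ W / 2 ^ g'' 0 ≤ Real.exp (βy + U) := by
        refine two_div_exp ?_ (by positivity)
        rw [hg''0, Nat.cast_sub hβyg]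
        linarith
      have h2 : Real.exp (βy + U) ≤ Real.exp (1 + Z) := Real.exp_le_exp.2 (by linarith)
      have h3 : Real.exp U ≤ Real.exp (1 + Z) := Real.exp_le_exp.2 (by linarith)
      exact num_rho f3 (hL1.trans h3) (h1.trans h2))
  obtain ⟨L'', hL''⟩ : ∃ L'' : ℝ, L'' = max (max L (Real.exp (X / 4)))
    (C * L * R ^ (K * (K + 1) ^ (r + 2))) := ⟨_, rfl⟩
  rw [← hL''] at hlab
  have hL''0 : 0 ≤ L'' := by
    rw [hL'']
    exact hL.trans ((le_max_left _ _).trans (le_max_left _ _))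
  have hX4b : Real.exp (X / 4) ≤ Real.exp (b * J) := Real.exp_le_exp.2 (by linarith)
  have h16 : 6 * Real.exp (X / 4) ≤ Real.exp (b * J) := by
    have h1 : 6 ≤ Real.exp X := by
      have h3 := Real.add_one_le_exp X
      linarith
    calc 6 * Real.exp (X / 4) ≤ Real.exp X * Real.exp (X / 4) :=
          mul_le_mul_of_nonneg_right h1 (Real.exp_pos _).le
      _ = Real.exp (X + X / 4) := (Real.exp_add _ _).symm
      _ ≤ Real.exp (b * J) := Real.exp_le_exp.2 (by linarith)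
  have h1X : 1 ≤ Real.exp (X / 4) := Real.one_le_exp (by linarith)
  refine ⟨fun ω => B₁ ω ∧ B₂ ω, fun v => lb W (P v), g'', L'', fun v => az W (P v),
    fun ω hω => hB₁A ω hω.1, ?_, hlab, fun v i hi => deg_lb_one (hN.tri v) W hi,
    fun j => ?_, fun j => ?_, hg''2, hL''0, ?_, fun v x => ?_, fun ω hω t ht => ?_,
    fun ω hω i => ?_⟩
  · have h1 := pe_two hB₁A hB₂A hPB₁ hPB₂
    rwa [add_halves] at h1
  · rcases Nat.lt_or_ge j 1 with h | h
    · have hj : j = 0 := by omega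
      rw [hj, hg''0]
      exact Nat.sub_le _ _
    · rcases Nat.lt_or_ge j 2 with h' | h'
      · have hj : j = 1 := by omega
        rw [hj, hg''1]
        exact Nat.sub_le _ _
      · exact (hg''2 j h').le
  · rcases Nat.lt_or_ge j 1 with h | h
    · have hj : j = 0 := by omega
      rw [hj, hg''0, Nat.cast_sub hβyg]
      linarith
    · rcases Nat.lt_or_ge j 2 with h' | h'
      · have hj : j = 1 := by omega
        rw [hj, hg''1, Nat.cast_sub hβzg]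
        linarith
      · rw [hg''2 j h']
        have : 0 ≤ b * J := by positivity
        linarith
  · rw [Real.log_le_iff_le_exp (by linarith), hL'', ← hp, hR]
    have h1 := num_L (B := b / 4 * J) (p := p) hC hU0 hL hL1 f2 hUX (by linarith) hXp f4
    rwa [show 4 * (b / 4 * (J : ℝ)) = b * J by ring] at h1
  · show eval x (lb W (P v) 2) = _
    rw [lb_two, eval_zl]
  · have h1 := (hB₁ ω hω.1).lin t (ht.trans (div_le_div_of_nonneg_right (by
      have h3 := Real.add_one_le_exp (2 * Z)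
      linarith) pW.le))
    rw [one_mul] at h1
    refine h1.trans ?_
    rw [i1]
    refine div_le_div_of_nonneg_right ?_ pg1.le
    linarith
  · have hs := (hB₁ ω hω.1).slp
    have h0 : |az W (P (z (ptr F J ω))) 0| ≤ 6 * Real.exp (X / 4) := by
      have h1 := (hB₁ ω hω.1).lin (F.t ω) (by
        rw [sub_self, abs_zero]
        positivity)
      have ht1 : |F.t ω| ≤ 1 := by
        have h2 : 0 ≤ F.t ω := by
          unfold Fam.t
          positivity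
        have h3 : F.t ω ≤ 1 := by
          unfold Fam.t
          rw [div_le_one (by positivity)]
          exact_mod_cast (F.tim ω).le
        rw [abs_of_nonneg h2]
        exact h3
      rw [one_mul] at h1
      exact num_a hs.1 hs.2 (hxA ω (c 1)) (hxA ω (c 0)) ht1 h1
        (div_le_self (Real.exp_pos _).le (one_le_pow₀ one_le_two)) h1X
    match i with
    | 0 => exact h0.trans h16
    | 1 => exact hs.1.trans hX4b
    | 2 => exact hs.2.trans hX4b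

end Pool.PLA
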