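import Pool.Agent.H24.PLN.Lbc

/-!
# Labels with affine polynomials: the polynomials of the higher coordinates and the boxes

`lab_clsE`: `lab_cls` with two more conclusions: the polynomials of the coordinates `c 2, c 3, …` do
not change, and the box of the new label lies in a dilate, by a factor `exp (b J)`, of the box of the
old label.
-/

set_option autoImplicit false

namespace Pool.PLA

open Finset Real MvPolynomial
open Pool.Agent.H49.Ent Pool.Agent.H32.Dense Pool.STK Pool.KA Pool.KSAT Pool.K2S Pool.PB Pool.STAT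
  Pool.GEN Pool.M3F Pool.S6C
open Pool.FLF (Fam.sub)
open Pool.PB.Trl (rt rt_mem t_rt)
open Pool.STAT.CLO (Bxr nc nc_nuc box_nuc nc_le)

variable {m J : ℕ}

/-- **The box of the affine label.** -/
theorem box_lb {F : Fam m J} {c : ℕ → Fin m} {r W sg K : ℕ} {g g'' : ℕ → ℕ} {L : ℝ}
    {A : F.Ω → Prop} {V : Type} {z : PtT F → V} {z' : LnT F → V} {P : V → ℕ → PN}
    {ρ E E' Ey R : ℝ} (hr : 2 ≤ r)
    (hN : NLabW F c r W sg g K L A z z' P) (hW : W ≤ J) (hL : 0 ≤ L)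
    (haff : ∀ ω, A ω → AffZ F c W 1 ρ E E' (P (z (ptr F J ω)) 2) (az W (P (z (ptr F J ω)))) ω)
    (hyl : ∀ ω, A ω → ∀ b : ℕ → ℝ, |b 0 - ct (P (z (ptr F J ω)))| ≤ 4 / 2 ^ W →
      |eval b (P (z (ptr F J ω)) 1) - eval b (yl W (P (z (ptr F J ω))))| ≤ Ey)
    (hg'' : ∀ j, 2 ≤ j → g'' j = g j) (hn0 : 1 / 2 ^ g 0 + Ey ≤ 1 / 2 ^ g'' 0)
    (hR0 : 4 / 2 ^ g'' 0 + Ey ≤ R / 2 ^ g 0) (hR1 : 4 / 2 ^ g'' 1 + E ≤ R / 2 ^ g 1) (hR : 4 ≤ R)
    (hρ : 5 * (L + 1) + 5 * (2 ^ W / 2 ^ g'' 0) ≤ ρ) {ω : F.Ω} (hω : A ω) {b : ℕ → ℝ}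
    (hb : Bxr 4 (wid W g'') (lb W (P (z (ptr F J ω)))) (r + 1) b) :
    Bxr R (wid W g) (P (z (ptr F J ω))) (r + 1) b := by
  have pW : (0 : ℝ) < 2 ^ W := by positivity
  have pg0 : (0 : ℝ) < 2 ^ g'' 0 := by positivity
  have pJW : (1 : ℝ) / 2 ^ J ≤ 1 / 2 ^ W :=
    div_le_div_of_nonneg_left zero_le_one pW (pow_le_pow_right₀ one_le_two hW)
  have hq0 : (0 : ℝ) ≤ 2 ^ W / 2 ^ g'' 0 := by positivity
  -- the position of the first coordinate
  have hpy : ∀ ω, A ω → |px c (ptr F J ω) 1 -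
      eval (px c (ptr F J ω)) (yl W (P (z (ptr F J ω))))| ≤ 1 / 2 ^ g'' 0 := by
    intro ω hω
    have h1 := hN.pos ω hω 0 (by omega)
    have h2 := hyl ω hω (px c (ptr F J ω)) (by
      rw [px_t, ct_eq hN hω]
      exact (t_win hW ω).trans (div_le_div_of_nonneg_right (by norm_num) pW.le))
    refine (abs_sub_le _ (eval (px c (ptr F J ω)) (P (z (ptr F J ω)) 1)) _).trans ?_
    exact (add_le_add h1 h2).trans hn0
  have hb' : Bxr 4 (wid W g'') (lb W (P (z (ptr F J ω)))) (r + 1) b := hb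
  obtain ⟨Φ, hΦ⟩ : ∃ Φ, Φ = P (z (ptr F J ω)) := ⟨_, rfl⟩
  have htri : TriN Φ := by
    rw [hΦ]
    exact hN.tri _
  have hct := ct_eq hN hω
  have hz0 := hN.zero ω hω
  have hys := ys_le hN hω
  have ha := haff ω hω
  have hyl' := hyl ω hω
  have hpy' := hpy ω hω
  rw [← hΦ] at hb' hct hz0 hys ha hyl' hpy' ⊢
  have hb0 : |b 0 - ct Φ| ≤ 4 / 2 ^ W := by
    have h1 := hb' 0 (by omega)
    rw [lb_zero, wid_zero, hz0, eval_C, ← hct] at h1
    exact h1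
  have hb1 : |b 1 - eval b (yl W Φ)| ≤ 4 / 2 ^ g'' 0 := by
    have h1 := hb' 1 (by omega)
    rw [lb_one, wid_succ] at h1
    exact h1
  have hb2 : |b 2 - eval b (zl W Φ)| ≤ 4 / 2 ^ g'' 1 := by
    have h1 := hb' 2 (by omega)
    rw [lb_two, wid_succ] at h1
    exact h1
  have hbt : |b 0 - F.t ω| ≤ 5 / 2 ^ W := by
    have h1 := t_win hW ω
    rw [← hct, abs_sub_comm] at h1
    refine (abs_sub_le _ (ct Φ) _).trans ((add_le_add hb0 h1).trans (le_of_eq ?_))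
    ring
  have hby : |b 1 - F.x ω (c 0)| ≤ ρ / 2 ^ W := by
    have e1 : b 1 - F.x ω (c 0) = (b 1 - eval b (yl W Φ)) +
        ys W Φ * (b 0 - F.t ω) + (-(px c (ptr F J ω) 1 -
          eval (px c (ptr F J ω)) (yl W Φ)) + (px c (ptr F J ω) 1 - F.x ω (c 0))) := by
      rw [eval_yl, eval_yl, px_t]
      ring
    rw [e1]
    have h1 : |ys W Φ * (b 0 - F.t ω)| ≤ L * (5 / 2 ^ W) := by
      rw [abs_mul]
      exact mul_le_mul hys hbt (abs_nonneg _) hL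
    have h2 : |-(px c (ptr F J ω) 1 - eval (px c (ptr F J ω)) (yl W Φ)) +
        (px c (ptr F J ω) 1 - F.x ω (c 0))| ≤ 1 / 2 ^ g'' 0 + 1 / 2 ^ W := by
      refine (abs_add_le _ _).trans (add_le_add ?_ ((px_x F c ω 0).trans pJW))
      rw [abs_neg]
      exact hpy'
    refine (abs_add_le _ _).trans ((add_le_add ((abs_add_le _ _).trans
      (add_le_add hb1 h1)) h2).trans ?_)
    rw [le_div_iff₀ pW]
    have e2 : (4 / 2 ^ g'' 0 + L * (5 / 2 ^ W) + (1 / 2 ^ g'' 0 + 1 / 2 ^ W)) * (2 : ℝ) ^ W =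
        5 * L + 1 + 5 * (2 ^ W / 2 ^ g'' 0) := by
      field_simp
      ring
    rw [e2]
    linarith
  intro j hj
  have hbox : |b j - eval b (Φ j)| ≤ R / 2 ^ wid W g j := by
    rcases Nat.lt_or_ge j 1 with h | h
    · have hj0 : j = 0 := by omega
      rw [hj0, hz0, eval_C, ← hct, wid_zero]
      exact hb0.trans (div_le_div_of_nonneg_right hR pW.le)
    · rcases Nat.lt_or_ge j 2 with h' | h'
      · have hj1 : j = 1 := by omega
        rw [hj1, wid_succ]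
        refine (abs_sub_le _ (eval b (yl W Φ)) _).trans ?_
        rw [abs_sub_comm (eval b (yl W Φ))]
        exact (add_le_add hb1 (hyl' b hb0)).trans hR0
      · rcases Nat.lt_or_ge j 3 with h3 | h3
        · have hj2 : j = 2 := by omega
          rw [hj2, wid_succ]
          refine (abs_sub_le _ (eval b (zl W Φ)) _).trans ?_
          rw [abs_sub_comm (eval b (zl W Φ)), eval_zl]
          rw [eval_zl] at hb2
          exact (add_le_add hb2 (ha.pol b (hbt.trans (div_le_div_of_nonneg_right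
            (by linarith) pW.le)) hby)).trans hR1
        · have h4 := hb' j hj
          obtain ⟨j', rfl⟩ : ∃ j', j = j' + 1 := ⟨j - 1, by omega⟩
          rw [lb_ge W _ h3, wid_succ, hg'' j' (by omega)] at h4
          rw [wid_succ]
          exact h4.trans (div_le_div_of_nonneg_right hR (by positivity))
  exact hbox

/-- **Labels with affine polynomials**, in a class, with the boxes. -/
theorem lab_clsE (K : ℕ) (hK : 1 ≤ K) {r : ℕ} (hr : 2 ≤ r) {S : PCl m}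
    (hpos : ∀ (τ : ℝ) (J : ℕ) (F : Fam m J) (A : F.Ω → Prop), S.St τ J F A → 0 < Pe F.p A)
    (hTm : ∀ ε : ℝ, 0 < ε → Bas S (fun J F A => ∀ h : 0 < Pe F.p A,
      (Fam.sub F A h).Tm (ε * J)))
    (hx : ∀ (τ : ℝ) (J : ℕ) (F : Fam m J) (A : F.Ω → Prop), S.St τ J F A →
      ∀ ω i, |F.x ω i| ≤ 2)
    {N : ℚ → ℚ → ℝ} {al : ℝ} (hal : 0 < al) (hQ : ActQ N al) {c : ℕ → Fin m}
    (hact : ActB N S (c 0)) {w : ℝ} (hw0 : 0 < w) (hw1 : w < 1) {b η : ℝ} (hb : 0 < b)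
    (hη : 0 < η) :
    ∃ δ : ℝ, 0 < δ ∧ Bas S (fun J F A => ∀ (g' : ℕ → ℕ) (sg : ℕ) (L : ℝ) (V : Type)
      (z : PtT F → V) (z' : LnT F → V) (P : V → ℕ → PN),
      (⌊w * J⌋₊ : ℝ) ≤ g' 0 + δ * J → g' 0 ≤ J → (⌊w * J⌋₊ : ℝ) ≤ g' 1 + δ * J → g' 1 ≤ J →
      0 ≤ L → Real.log (1 + L) ≤ δ * J → NLabW F c r ⌊w * J⌋₊ sg g' K L A z z' P →
      ∃ (B : F.Ω → Prop) (P' : V → ℕ → PN) (g'' : ℕ → ℕ) (L'' : ℝ) (a : V → Fin 3 → ℝ),
        Sub B A ∧ (1 - η) * Pe F.p A ≤ Pe F.p B ∧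
          LabA F c r ⌊w * J⌋₊ sg g' g'' K L'' b B z z' P' a ∧
          (∀ v j, 3 ≤ j → P' v j = P v j) ∧ ∃ R : ℝ, 4 ≤ R ∧ Real.log R ≤ b * J ∧
            ∀ ω, B ω → ∀ x : ℕ → ℝ,
              Bxr 4 (wid ⌊w * J⌋₊ g'') (P' (z (ptr F J ω))) (r + 1) x →
              Bxr R (wid ⌊w * J⌋₊ g') (P (z (ptr F J ω))) (r + 1) x) := by
  classical
  obtain ⟨C, hC, hlb⟩ := nlabw_lb r K hr hK
  have hC0 : 0 < C := by linarith
  obtain ⟨p, hp⟩ : ∃ p : ℕ, p = K * (K + 1) ^ (r + 2) := ⟨_, rfl⟩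
  obtain ⟨b₁, hb₁⟩ : ∃ b₁ : ℝ, b₁ = min (b / (4 * (p + 2))) (w / 8) := ⟨_, rfl⟩
  have hb₁0 : 0 < b₁ := by
    rw [hb₁]
    exact lt_min (by positivity) (by linarith)
  have hb₁w : 8 * b₁ ≤ w := by
    have : b₁ ≤ w / 8 := by
      rw [hb₁]
      exact min_le_right _ _
    linarith
  have hb₁b : (p + 2) * b₁ ≤ b / 4 := by
    have h1 : b₁ ≤ b / (4 * (p + 2)) := by
      rw [hb₁]
      exact min_le_left _ _
    rw [le_div_iff₀ (by positivity)] at h1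
    linarith
  have hpb : 0 ≤ (p : ℝ) * b₁ := by positivity
  have hb₁b' : 8 * b₁ ≤ b := by nlinarith
  obtain ⟨δ₁, hδ₁, haff⟩ := aff_cls K r hpos hTm hal hQ hact hw0.le hw1 (φ := b₁ / 4)
    (η := η / 2) (by linarith) (by linarith)
  obtain ⟨φy, hφy⟩ : ∃ φy : ℝ, φy = min (δ₁ / 8) (b₁ / 8) := ⟨_, rfl⟩
  have hφy0 : 0 < φy := by
    rw [hφy]
    exact lt_min (by linarith) (by linarith)
  have hφy1 : φy ≤ δ₁ / 8 := by
    rw [hφy]
    exact min_le_left _ _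
  have hφy2 : φy ≤ b₁ / 8 := by
    rw [hφy]
    exact min_le_right _ _
  have hyv := yv_cls K (by omega : 1 ≤ r) hpos hTm (c := c) hw0.le hw1 (φ := φy) (η := η / 2)
    hφy0 (by linarith)
  obtain ⟨δ, hδ⟩ : ∃ δ : ℝ, δ = min (δ₁ / 4) (b₁ / 4) := ⟨_, rfl⟩
  have hδ0 : 0 < δ := by
    rw [hδ]
    exact lt_min (by linarith) (by linarith)
  have hδ1 : δ ≤ δ₁ / 4 := by
    rw [hδ]
    exact min_le_left _ _
  have hδ2 : δ ≤ b₁ / 4 := by
    rw [hδ]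
    exact min_le_right _ _
  obtain ⟨CK, hCK⟩ : ∃ CK : ℝ, CK = (K + 2) * (2 * 2 * (2 * 4 * (K + 2)) ^ (K + 1)) := ⟨_, rfl⟩
  have hCK0 : 0 ≤ CK := by
    rw [hCK]
    positivity
  obtain ⟨J₁, hJ₁⟩ := big_ex (Real.log (1 + CK)) hφy0
  obtain ⟨J₂, hJ₂⟩ := big_ex (16 : ℝ) (s := b₁) hb₁0
  obtain ⟨J₃, hJ₃⟩ := big_ex (8 : ℝ) (s := δ₁) hδ₁
  obtain ⟨J₄, hJ₄⟩ := big_ex (Real.log (1 + C) + p * Real.log 5) (s := b / 4) (by linarith)
  refine ⟨δ, hδ0, ?_⟩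
  refine (haff.and (hyv.and (⟨1, one_pos, 0, fun J _ F A hA => hx 1 J F A hA⟩ :
    Bas S (fun _ F _ => ∀ ω i, |F.x ω i| ≤ 2)))).mono (max (max J₁ J₂) (max J₃ J₄)) ?_
  rintro J hJ F A ⟨ha, hy, hxA⟩ g' sg L V z z' P hg0 hg0J hg1 hg1J hL hLδ hN
  have hJ0 : (0 : ℝ) ≤ J := Nat.cast_nonneg J
  have f1 := hJ₁ J ((le_max_left _ _).trans ((le_max_left _ _).trans hJ))
  have f2 := hJ₂ J ((le_max_right _ _).trans ((le_max_left _ _).trans hJ))
  have f3 := hJ₃ J ((le_max_left _ _).trans ((le_max_right _ _).trans hJ))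
  have f4 := hJ₄ J ((le_max_right _ _).trans ((le_max_right _ _).trans hJ))
  have hδ₁J : δ * J ≤ δ₁ * J := mul_le_mul_of_nonneg_right (by linarith) hJ0
  obtain ⟨B₁, hB₁A, hPB₁, hB₁⟩ := ha g' sg 1 L V z z' P (Or.inl ⟨hr, rfl⟩) (by linarith) hg0J
    (by linarith) hg1J hL (by linarith) hN
  obtain ⟨B₂, hB₂A, hPB₂, hB₂⟩ := hy g' sg L V z z' P hg0J hN
  obtain ⟨W, hWe⟩ : ∃ W, W = ⌊w * J⌋₊ := ⟨_, rfl⟩
  rw [← hWe] at hN hg0 hg1 hB₁ hB₂ ⊢
  have hWw : (W : ℝ) ≤ w * J := by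
    rw [hWe]
    exact Nat.floor_le (by positivity)
  have hWw' : w * J - 1 ≤ W := by
    rw [hWe]
    exact (Nat.sub_one_lt_floor _).le
  have hWJ : W ≤ J := by
    have : (W : ℝ) ≤ J := hWw.trans (by nlinarith)
    exact_mod_cast this
  have pW : (0 : ℝ) < 2 ^ W := by positivity
  -- the numbers
  obtain ⟨X, hX⟩ : ∃ X : ℝ, X = b₁ * J := ⟨_, rfl⟩
  obtain ⟨Y, hY⟩ : ∃ Y : ℝ, Y = φy * J := ⟨_, rfl⟩
  obtain ⟨Z, hZ⟩ : ∃ Z : ℝ, Z = δ₁ * J := ⟨_, rfl⟩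
  obtain ⟨U, hU⟩ : ∃ U : ℝ, U = δ * J := ⟨_, rfl⟩
  have hY0 : 0 ≤ Y := by
    rw [hY]
    positivity
  have hU0 : 0 ≤ U := by
    rw [hU]
    positivity
  rw [← hX] at f2
  rw [← hY] at f1
  rw [← hZ] at f3
  have hYZ : 8 * Y ≤ Z := by
    have := mul_le_mul_of_nonneg_right hφy1 hJ0
    rw [hY, hZ]
    linarith
  have hYX : 8 * Y ≤ X := by
    have := mul_le_mul_of_nonneg_right hφy2 hJ0
    rw [hY, hX]
    linarith
  have hUZ : 4 * U ≤ Z := by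
    have := mul_le_mul_of_nonneg_right hδ1 hJ0
    rw [hU, hZ]
    linarith
  have hUX : 4 * U ≤ X := by
    have := mul_le_mul_of_nonneg_right hδ2 hJ0
    rw [hU, hX]
    linarith
  have hXw : 8 * X ≤ w * J := by
    have := mul_le_mul_of_nonneg_right hb₁w hJ0
    rw [hX]
    linarith
  have hXb : 8 * X ≤ b * J := by
    have := mul_le_mul_of_nonneg_right hb₁b' hJ0
    rw [hX]
    linarith
  have hXp : (p + 2) * X ≤ b / 4 * J := by
    have := mul_le_mul_of_nonneg_right hb₁b hJ0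
    rw [hX]
    linarith
  have e14 : b₁ / 4 * J = X / 4 := by
    rw [hX]
    ring
  have e2Z : 2 * δ₁ * J = 2 * Z := by
    rw [hZ]
    ring
  rw [e14, e2Z] at hB₁
  rw [← hY] at hB₂
  rw [← hU] at hg0 hg1 hLδ
  obtain ⟨βy, hβy⟩ : ∃ βy : ℕ, βy = ⌈3 * Y⌉₊ := ⟨_, rfl⟩
  obtain ⟨βz, hβz⟩ : ∃ βz : ℕ, βz = ⌈X / 2⌉₊ := ⟨_, rfl⟩
  have hβy1 : 3 * Y ≤ βy := by
    rw [hβy]
    exact Nat.le_ceil _
  have hβy2 : (βy : ℝ) ≤ 3 * Y + 1 := by
    rw [hβy]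
    exact (Nat.ceil_lt_add_one (by positivity)).le
  have hβz1 : X / 2 ≤ βz := by
    rw [hβz]
    exact Nat.le_ceil _
  have hβz2 : (βz : ℝ) ≤ X / 2 + 1 := by
    rw [hβz]
    exact (Nat.ceil_lt_add_one (by linarith)).le
  have hβyg : βy ≤ g' 0 := by
    have : (βy : ℝ) ≤ g' 0 := by linarith
    exact_mod_cast this
  have hβzg : βz ≤ g' 1 := by
    have : (βz : ℝ) ≤ g' 1 := by linarith
    exact_mod_cast this
  obtain ⟨g'', hg''⟩ : ∃ g'' : ℕ → ℕ, g'' = fun j => if j = 0 then g' 0 - βy else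
    if j = 1 then g' 1 - βz else g' j := ⟨_, rfl⟩
  have hg''0 : g'' 0 = g' 0 - βy := by
    rw [hg'']
    exact if_pos rfl
  have hg''1 : g'' 1 = g' 1 - βz := by
    rw [hg'']
    dsimp only
    rw [if_neg one_ne_zero, if_pos rfl]
  have hg''2 : ∀ j, 2 ≤ j → g'' j = g' j := by
    intro j hj
    rw [hg'']
    dsimp only
    rw [if_neg (by omega), if_neg (by omega)]
  have pg0 : (0 : ℝ) < 2 ^ g' 0 := by positivity
  have pg1 : (0 : ℝ) < 2 ^ g' 1 := by positivity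
  have i0 : (1 : ℝ) / 2 ^ g'' 0 = 2 ^ βy / 2 ^ g' 0 := by
    rw [hg''0]
    exact inv_sub_pow hβyg
  have i1 : (1 : ℝ) / 2 ^ g'' 1 = 2 ^ βz / 2 ^ g' 1 := by
    rw [hg''1]
    exact inv_sub_pow hβzg
  have hN1 : 1 + CK * Real.exp Y ≤ 2 ^ βy := num_y hCK0 f1 hY0 hβy1
  have hN2 : 1 + Real.exp (X / 4) ≤ 2 ^ βz := num_z f2 hβz1
  obtain ⟨R, hR⟩ : ∃ R : ℝ, R = 5 * Real.exp X := ⟨_, rfl⟩
  have hby : (2 : ℝ) ^ βy ≤ Real.exp X := (two_le_exp βy).trans (Real.exp_le_exp.2 (by linarith))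
  have hbz : (2 : ℝ) ^ βz ≤ Real.exp X := (two_le_exp βz).trans (Real.exp_le_exp.2 (by linarith))
  obtain ⟨Ey, hEy⟩ : ∃ Ey : ℝ, Ey = CK * Real.exp Y / 2 ^ g' 0 := ⟨_, rfl⟩
  have hL1 : 1 + L ≤ Real.exp U := by
    rw [← Real.log_le_iff_le_exp (by linarith)]
    exact hLδ
  have hy1 : ∀ ω, (B₁ ω ∧ B₂ ω) → ∀ b : ℕ → ℝ, |b 0 - ct (P (z (ptr F J ω)))| ≤ 4 / 2 ^ W →
      |eval b (P (z (ptr F J ω)) 1) - eval b (yl W (P (z (ptr F J ω))))| ≤ Ey := by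
    intro ω hω b hb
    have h1 := hB₂ ω hω.2
    have hωA := hB₂A ω hω.2
    have hct := ct_eq hN hωA
    refine (yl_near (K := K) (hN.tri _) (hN.deg _ _) (M := Real.exp Y * (2 / 2 ^ g' 0))
      (u := F.x ω (c 0) - 1 / 2 ^ W * rt F W ω * F.d ω (c 0))
      (v := 1 / 2 ^ W * F.d ω (c 0)) (ρ := 4) (by
        intro τ hτ
        have h2 := h1 τ hτ
        have e1 : F.t ω + 1 / 2 ^ W * (τ - rt F W ω) =
            ct (P (z (ptr F J ω))) + τ / 2 ^ W := by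
          have e2 : ((slam F W ω).2.2 : ℝ) = (F.T1 W ω : ℝ) := rfl
          rw [hct, t_rt F hWJ ω, e2]
          ring
        rw [e1] at h2
        have e3 : F.x ω (c 0) - 1 / 2 ^ W * rt F W ω * F.d ω (c 0) +
            1 / 2 ^ W * F.d ω (c 0) * τ = F.x ω (c 0) + 1 / 2 ^ W * (τ - rt F W ω) *
              F.d ω (c 0) := by ring
        rw [e3]
        exact h2) (by norm_num) hb).trans (le_of_eq ?_)
    rw [hEy, hCK]
    ring
  have hn0 : 1 / 2 ^ g' 0 + Ey ≤ 1 / 2 ^ g'' 0 := by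
    rw [hEy, i0, ← add_div]
    exact div_le_div_of_nonneg_right hN1 pg0.le
  have hn1 : 1 / 2 ^ g' 1 + Real.exp (X / 4) / 2 ^ g' 1 ≤ 1 / 2 ^ g'' 1 := by
    rw [i1, ← add_div]
    exact div_le_div_of_nonneg_right hN2 pg1.le
  have hR0 : 4 / 2 ^ g'' 0 + Ey ≤ R / 2 ^ g' 0 := by
    have e1 : (4 : ℝ) / 2 ^ g'' 0 = 4 * (1 / 2 ^ g'' 0) := by ring
    rw [e1, i0, hEy, ← mul_div_assoc, ← add_div]
    refine div_le_div_of_nonneg_right ?_ pg0.le
    rw [hR]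
    linarith
  have hR1 : 4 / 2 ^ g'' 1 + Real.exp (X / 4) / 2 ^ g' 1 ≤ R / 2 ^ g' 1 := by
    have e1 : (4 : ℝ) / 2 ^ g'' 1 = 4 * (1 / 2 ^ g'' 1) := by ring
    rw [e1, i1, ← mul_div_assoc, ← add_div]
    refine div_le_div_of_nonneg_right ?_ pg1.le
    rw [hR]
    linarith
  have hR4 : 4 ≤ R := by
    have : 1 ≤ Real.exp X := Real.one_le_exp (by linarith)
    rw [hR]
    linarith
  have hρ : 5 * (L + 1) + 5 * (2 ^ W / 2 ^ g'' 0) ≤ Real.exp (2 * Z) := by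
    have h1 : (2 : ℝ) ^ W / 2 ^ g'' 0 ≤ Real.exp (βy + U) := by
      refine two_div_exp ?_ (by positivity)
      rw [hg''0, Nat.cast_sub hβyg]
      linarith
    have h2 : Real.exp (βy + U) ≤ Real.exp (1 + Z) := Real.exp_le_exp.2 (by linarith)
    have h3 : Real.exp U ≤ Real.exp (1 + Z) := Real.exp_le_exp.2 (by linarith)
    exact num_rho f3 (hL1.trans h3) (h1.trans h2)
  have hNB : NLabW F c r W sg g' K L (fun ω => B₁ ω ∧ B₂ ω) z z' P :=
    nlabw_mono hN fun ω hω => hB₁A ω hω.1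
  have hlab := hlb hNB hWJ hg0J hL (fun ω hω => hB₁ ω hω.1) hy1 hg''2 hn0 hn1 hR0 hR1 hR4 hρ
  obtain ⟨L'', hL''⟩ : ∃ L'' : ℝ, L'' = max (max L (Real.exp (X / 4)))
    (C * L * R ^ (K * (K + 1) ^ (r + 2))) := ⟨_, rfl⟩
  rw [← hL''] at hlab
  have hL''0 : 0 ≤ L'' := by
    rw [hL'']
    exact hL.trans ((le_max_left _ _).trans (le_max_left _ _))
  have hX4b : Real.exp (X / 4) ≤ Real.exp (b * J) := Real.exp_le_exp.2 (by linarith)
  have h16 : 6 * Real.exp (X / 4) ≤ Real.exp (b * J) := by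
    have h1 : 6 ≤ Real.exp X := by
      have h3 := Real.add_one_le_exp X
      linarith
    calc 6 * Real.exp (X / 4) ≤ Real.exp X * Real.exp (X / 4) :=
          mul_le_mul_of_nonneg_right h1 (Real.exp_pos _).le
      _ = Real.exp (X + X / 4) := (Real.exp_add _ _).symm
      _ ≤ Real.exp (b * J) := Real.exp_le_exp.2 (by linarith)
  have h1X : 1 ≤ Real.exp (X / 4) := Real.one_le_exp (by linarith)
  refine ⟨fun ω => B₁ ω ∧ B₂ ω, fun v => lb W (P v), g'', L'', fun v => az W (P v),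
    fun ω hω => hB₁A ω hω.1, ?_, ⟨hlab, fun v i hi => deg_lb_one (hN.tri v) W hi,
    fun j => ?_, fun j => ?_, hg''2, hL''0, ?_, fun v x => ?_, fun ω hω t ht => ?_,
    fun ω hω i => ?_⟩, fun v j hj => lb_ge W (P v) hj, R, hR4, ?_, fun ω hω x hx =>
      box_lb hr hNB hWJ hL (fun ω hω => hB₁ ω hω.1) hy1 hg''2 hn0 hR0 hR1 hR4 hρ hω hx⟩
  · have h1 := pe_two hB₁A hB₂A hPB₁ hPB₂
    rwa [add_halves] at h1
  · rcases Nat.lt_or_ge j 1 with h | h
    · have hj : j = 0 := by omega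
      rw [hj, hg''0]
      exact Nat.sub_le _ _
    · rcases Nat.lt_or_ge j 2 with h' | h'
      · have hj : j = 1 := by omega
        rw [hj, hg''1]
        exact Nat.sub_le _ _
      · exact (hg''2 j h').le
  · rcases Nat.lt_or_ge j 1 with h | h
    · have hj : j = 0 := by omega
      rw [hj, hg''0, Nat.cast_sub hβyg]
      linarith
    · rcases Nat.lt_or_ge j 2 with h' | h'
      · have hj : j = 1 := by omega
        rw [hj, hg''1, Nat.cast_sub hβzg]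
        linarith
      · rw [hg''2 j h']
        have : 0 ≤ b * J := by positivity
        linarith
  · rw [Real.log_le_iff_le_exp (by linarith), hL'', ← hp, hR]
    have h1 := num_L (B := b / 4 * J) (p := p) hC hU0 hL hL1 f2 hUX (by linarith) hXp f4
    rwa [show 4 * (b / 4 * (J : ℝ)) = b * J by ring] at h1
  · show eval x (lb W (P v) 2) = _
    rw [lb_two, eval_zl]
  · have h1 := (hB₁ ω hω.1).lin t (ht.trans (div_le_div_of_nonneg_right (by
      have h3 := Real.add_one_le_exp (2 * Z)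
      linarith) pW.le))
    rw [one_mul] at h1
    refine h1.trans ?_
    rw [i1]
    refine div_le_div_of_nonneg_right ?_ pg1.le
    linarith
  · have hs := (hB₁ ω hω.1).slp
    have h0 : |az W (P (z (ptr F J ω))) 0| ≤ 6 * Real.exp (X / 4) := by
      have h1 := (hB₁ ω hω.1).lin (F.t ω) (by
        rw [sub_self, abs_zero]
        positivity)
      have ht1 : |F.t ω| ≤ 1 := by
        have h2 : 0 ≤ F.t ω := by
          unfold Fam.t
          positivity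
        have h3 : F.t ω ≤ 1 := by
          unfold Fam.t
          rw [div_le_one (by positivity)]
          exact_mod_cast (F.tim ω).le
        rw [abs_of_nonneg h2]
        exact h3
      rw [one_mul] at h1
      exact num_a hs.1 hs.2 (hxA ω (c 1)) (hxA ω (c 0)) ht1 h1
        (div_le_self (Real.exp_pos _).le (one_le_pow₀ one_le_two)) h1X
    match i with
    | 0 => exact h0.trans h16
    | 1 => exact hs.1.trans hX4b
    | 2 => exact hs.2.trans hX4b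
  · rw [Real.log_le_iff_le_exp (by linarith), hR]
    have h1 : 5 ≤ Real.exp X := by
      have h3 := Real.add_one_le_exp X
      linarith
    calc 5 * Real.exp X ≤ Real.exp X * Real.exp X :=
          mul_le_mul_of_nonneg_right h1 (Real.exp_pos _).le
      _ = Real.exp (X + X) := (Real.exp_add _ _).symm
      _ ≤ Real.exp (b * J) := Real.exp_le_exp.2 (by linarith)

end Pool.PLA
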