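import Pool.Agent.H24.PLN.Aff1

/-!
# Polynomials in the time over a window: classes

`rem_cls`: polynomials of bounded degree in the time, functions of the line and of the window. If
the values at the samples are at most `M`, they are at most `exp (φ J) M` in the whole window,
outside a small part of the event. `yv_cls`: the line of the first coordinate and its label.
-/

set_option autoImplicit false

namespace Pool.PLA

open Finset Real MvPolynomial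
open Pool.Agent.H49.Ent Pool.Agent.H32.Dense Pool.STK Pool.KA Pool.KSAT Pool.K2S Pool.PB Pool.STAT
  Pool.GEN Pool.M3F Pool.S6C
open Pool.FLF (Fam.sub)
open Pool.PB.Trl (rt rt_mem t_rt)
open Pool.STAT.CLO (Bxr nc nc_nuc box_nuc nc_le)

variable {m J : ℕ}

/-- Events with the complement of a small part. -/
theorem of_bad {F : Fam m J} {A Q : F.Ω → Prop} {η : ℝ}
    (h : η * Pe F.p A ≤ Pe F.p (fun ω => A ω ∧ ¬ Q ω) → False) :
    (1 - η) * Pe F.p A ≤ Pe F.p (fun ω => A ω ∧ Q ω) := by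
  classical
  by_contra hcon
  push Not at hcon
  have hparts := Pe_parts (p := F.p) (B := A) (B' := fun ω => A ω ∧ Q ω) fun ω hω => hω.1
  have e1 : (fun ω => A ω ∧ ¬ (A ω ∧ Q ω)) = fun ω => A ω ∧ ¬ Q ω := by
    funext ω
    apply propext
    tauto
  rw [e1] at hparts
  exact h (by nlinarith)

/-- **Polynomials in the time**, in a class. -/
theorem rem_cls (D : ℕ) {S : PCl m}
    (hpos : ∀ (τ : ℝ) (J : ℕ) (F : Fam m J) (A : F.Ω → Prop), S.St τ J F A → 0 < Pe F.p A)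
    (hTm : ∀ ε : ℝ, 0 < ε → Bas S (fun J F A => ∀ h : 0 < Pe F.p A,
      (Fam.sub F A h).Tm (ε * J)))
    {w : ℝ} (hw0 : 0 ≤ w) (hw1 : w < 1) {φ η : ℝ} (hφ : 0 < φ) (hη : 0 < η) :
    Bas S (fun J F A => ∀ (q : LnT F → Polynomial ℝ) (M : ℝ), (∀ s, (q s).natDegree ≤ D) →
      0 < M → (∀ ω, A ω → |(q (slam F ⌊w * J⌋₊ ω)).eval (rt F ⌊w * J⌋₊ ω)| ≤ M) →
      ∃ B : F.Ω → Prop, Sub B A ∧ (1 - η) * Pe F.p A ≤ Pe F.p B ∧ ∀ ω, B ω →
        ∀ τ ∈ Set.Icc (0 : ℝ) 1, |(q (slam F ⌊w * J⌋₊ ω)).eval τ| ≤ Real.exp (φ * J) * M) := by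
  classical
  obtain ⟨C, hC, hrem⟩ := Pool.PZ.Zrt.rem_ev (m := m) D
  have hC0 : 0 < C := by linarith
  have hl2 : 0 < Real.log 2 := Real.log_pos one_lt_two
  obtain ⟨E, hE⟩ : ∃ E : ℝ, E = min φ ((1 - w) * Real.log 2) := ⟨_, rfl⟩
  have hE0 : 0 < E := by
    rw [hE]
    exact lt_min hφ (mul_pos (by linarith) hl2)
  have hEφ : E ≤ φ := by
    rw [hE]
    exact min_le_left _ _
  have hEw : E ≤ (1 - w) * Real.log 2 := by
    rw [hE]
    exact min_le_right _ _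
  obtain ⟨q₀, hq₀⟩ : ∃ q₀ : ℝ, q₀ = E / (2 * C) := ⟨_, rfl⟩
  have hq0 : 0 < q₀ := by
    rw [hq₀]
    positivity
  have hqE : C * q₀ = E / 2 := by
    rw [hq₀]
    field_simp
  have hb1 := bas_large (hTm q₀ hq0) hη
  obtain ⟨J₁, hJ₁⟩ := big_ex C (s := E / 2) (by positivity)
  refine (hb1.and (⟨1, one_pos, 0, fun J _ F A hA => hpos 1 J F A hA⟩ :
    Bas S (fun _ F A => 0 < Pe F.p A))).mono J₁ ?_
  rintro J hJ F A ⟨ht, hpA⟩ q M hq hM hqA
  have hJ0 : (0 : ℝ) ≤ J := Nat.cast_nonneg J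
  have f1 := hJ₁ J hJ
  obtain ⟨W, hWe⟩ : ∃ W, W = ⌊w * J⌋₊ := ⟨_, rfl⟩
  rw [← hWe] at hqA ⊢
  have hWw : (W : ℝ) ≤ w * J := by
    rw [hWe]
    exact Nat.floor_le (by positivity)
  have hWJ : W ≤ J := by
    have : (W : ℝ) ≤ J := hWw.trans (by nlinarith)
    exact_mod_cast this
  have h1 : C * (q₀ * J + 1) ≤ E * J := by
    have e1 : C * (q₀ * J + 1) = C * q₀ * J + C := by ring
    rw [e1, hqE]
    linarith
  refine ⟨fun ω => A ω ∧ ∀ τ ∈ Set.Icc (0 : ℝ) 1, |(q (slam F W ω)).eval τ| ≤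
    Real.exp (φ * J) * M, fun ω hω => hω.1, of_bad fun hbad => ?_, fun ω hω => hω.2⟩
  have hBA : Sub (fun ω => A ω ∧ ¬ ∀ τ ∈ Set.Icc (0 : ℝ) 1, |(q (slam F W ω)).eval τ| ≤
    Real.exp (φ * J) * M) A := fun ω hω => hω.1
  have hB0 := lt_of_lt_of_le (mul_pos hη hpA) hbad
  obtain ⟨B, hB, hPB, h2⟩ := hrem J F _ hB0 W q M (q₀ * J) hWJ hq hM (by positivity)
    (ht _ hBA hbad hB0) (by
      refine h1.trans ?_
      calc E * J ≤ (1 - w) * Real.log 2 * J := mul_le_mul_of_nonneg_right hEw hJ0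
        _ = (J - w * J) * Real.log 2 := by ring
        _ ≤ (J - W) * Real.log 2 := mul_le_mul_of_nonneg_right (by linarith) hl2.le)
    fun ω hω => hqA ω hω.1
  have hBpos : 0 < Pe F.p B := lt_of_lt_of_le (by linarith) hPB
  obtain ⟨ω, hω⟩ : ∃ ω, B ω := by
    by_contra h
    push Not at h
    have h3 : Pe F.p B = 0 := by
      rw [Pe_eq]
      exact Finset.sum_eq_zero fun ω _ => if_neg (h ω)
    linarith
  refine (hB ω hω).2 fun τ hτ => (h2 ω hω τ hτ).trans ?_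
  refine mul_le_mul_of_nonneg_right (Real.exp_le_exp.2 (h1.trans ?_)) hM.le
  exact mul_le_mul_of_nonneg_right hEφ hJ0

/-- The difference of the line and of the label of the first coordinate. -/
noncomputable def qy {F : Fam m J} {V : Type} (c : ℕ → Fin m) (W : ℕ) (z' : LnT F → V)
    (P : V → ℕ → PN) (s : LnT F) : Polynomial ℝ :=
  lc W s (some (c 0)) -
    aeval (fun i : ℕ => if i = 0 then lc W s none else 0) (P (z' s) 1)

theorem deg_qy {F : Fam m J} {V : Type} {c : ℕ → Fin m} {W : ℕ} {z' : LnT F → V}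
    {P : V → ℕ → PN} {K : ℕ} (hdeg : ∀ v i, (P v i).totalDegree ≤ K) (s : LnT F) :
    (qy c W z' P s).natDegree ≤ K + 1 := by
  unfold qy
  refine (Polynomial.natDegree_sub_le _ _).trans (max_le ((natDegree_lc W s _).trans (by omega)) ?_)
  refine (Pool.KBX.natDegree_aeval_le _ _ (fun i => ?_) (hdeg _ _)).trans (by omega)
  split_ifs
  · exact natDegree_lc W s _
  · rw [Polynomial.natDegree_zero]
    exact Nat.zero_le _

theorem eval_qy {F : Fam m J} {V : Type} {c : ℕ → Fin m} {W : ℕ} {z' : LnT F → V}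
    {P : V → ℕ → PN} (hW : W ≤ J) (htri : ∀ v, TriN (P v)) (ω : F.Ω) (τ : ℝ) :
    (qy c W z' P (slam F W ω)).eval τ =
      (F.x ω (c 0) + 1 / 2 ^ W * (τ - rt F W ω) * F.d ω (c 0)) -
      eval (p2 (F.t ω + 1 / 2 ^ W * (τ - rt F W ω)) 0) (P (z' (slam F W ω)) 1) := by
  unfold qy
  rw [Polynomial.eval_sub, Pool.KBX.eval_aeval_poly, lc_at_x hW]
  congr 1
  refine Pool.SYS35.eval_congr (htri _ 1) fun i hi => ?_
  have h0 : i = 0 := by omega
  rw [h0, p2_zero, if_pos rfl, lc_at_t hW]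

variable {F : Fam m J} {c : ℕ → Fin m} {r W sg : ℕ} {g : ℕ → ℕ} {K : ℕ} {L : ℝ}
  {A : F.Ω → Prop} {V : Type} {z : PtT F → V} {z' : LnT F → V} {P : V → ℕ → PN}

/-- The position of the first coordinate. -/
theorem pos_one (hN : NLabW F c r W sg g K L A z z' P) (hr : 1 ≤ r) (h0 : g 0 ≤ J)
    {ω : F.Ω} (hω : A ω) :
    |F.x ω (c 0) - eval (p2 (F.t ω) 0) (P (z (ptr F J ω)) 1)| ≤ 2 / 2 ^ g 0 := by
  have q0 := px_x F c ω 0
  have q3 := hN.pos ω hω 0 (by omega)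
  have q4 : eval (px c (ptr F J ω)) (P (z (ptr F J ω)) 1) =
      eval (p2 (F.t ω) 0) (P (z (ptr F J ω)) 1) :=
    Pool.SYS35.eval_congr (hN.tri _ 1) fun i hi => by
      have : i = 0 := by omega
      rw [this, px_t, p2_zero]
  rw [q4] at q3
  have pJ0 : (1 : ℝ) / 2 ^ J ≤ 1 / 2 ^ g 0 :=
    div_le_div_of_nonneg_left zero_le_one (by positivity) (pow_le_pow_right₀ one_le_two h0)
  have e1 : F.x ω (c 0) - eval (p2 (F.t ω) 0) (P (z (ptr F J ω)) 1) =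
      -(px c (ptr F J ω) 1 - F.x ω (c 0)) +
        (px c (ptr F J ω) 1 - eval (p2 (F.t ω) 0) (P (z (ptr F J ω)) 1)) := by ring
  rw [e1]
  refine (abs_add_le _ _).trans ?_
  rw [abs_neg]
  refine (add_le_add (q0.trans pJ0) q3).trans (le_of_eq ?_)
  ring

/-- **The line of the first coordinate and its label**, in a class. -/
theorem yv_cls (K : ℕ) {r : ℕ} (hr : 1 ≤ r) {S : PCl m}
    (hpos : ∀ (τ : ℝ) (J : ℕ) (F : Fam m J) (A : F.Ω → Prop), S.St τ J F A → 0 < Pe F.p A)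
    (hTm : ∀ ε : ℝ, 0 < ε → Bas S (fun J F A => ∀ h : 0 < Pe F.p A,
      (Fam.sub F A h).Tm (ε * J)))
    {c : ℕ → Fin m} {w : ℝ} (hw0 : 0 ≤ w) (hw1 : w < 1) {φ η : ℝ} (hφ : 0 < φ) (hη : 0 < η) :
    Bas S (fun J F A => ∀ (g' : ℕ → ℕ) (sg : ℕ) (L : ℝ) (V : Type)
      (z : PtT F → V) (z' : LnT F → V) (P : V → ℕ → PN), g' 0 ≤ J →
      NLabW F c r ⌊w * J⌋₊ sg g' K L A z z' P →
      ∃ B : F.Ω → Prop, Sub B A ∧ (1 - η) * Pe F.p A ≤ Pe F.p B ∧ ∀ ω, B ω →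
        ∀ τ ∈ Set.Icc (0 : ℝ) 1, |(F.x ω (c 0) + 1 / 2 ^ ⌊w * J⌋₊ *
          (τ - rt F ⌊w * J⌋₊ ω) * F.d ω (c 0)) -
          eval (p2 (F.t ω + 1 / 2 ^ ⌊w * J⌋₊ * (τ - rt F ⌊w * J⌋₊ ω)) 0)
            (P (z (ptr F J ω)) 1)| ≤ Real.exp (φ * J) * (2 / 2 ^ g' 0)) := by
  refine (rem_cls (K + 1) hpos hTm hw0 hw1 hφ hη).mono 0 ?_
  intro J _ F A h g' sg L V z z' P h0 hN
  have hJ0 : (0 : ℝ) ≤ J := Nat.cast_nonneg J
  obtain ⟨W, hWe⟩ : ∃ W, W = ⌊w * J⌋₊ := ⟨_, rfl⟩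
  rw [← hWe] at hN h ⊢
  have hWJ : W ≤ J := by
    have h1 : (W : ℝ) ≤ w * J := by
      rw [hWe]
      exact Nat.floor_le (by positivity)
    have : (W : ℝ) ≤ J := h1.trans (by nlinarith)
    exact_mod_cast this
  obtain ⟨B, hBA, hPB, hB⟩ := h (qy c W z' P) (2 / 2 ^ g' 0) (deg_qy hN.deg) (by positivity)
    fun ω hω => by
      have h2 := pos_one hN hr h0 hω
      rw [eval_qy hWJ hN.tri, sub_self, mul_zero, zero_mul, add_zero, add_zero, ← hN.cls ω hω]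
      exact h2
  refine ⟨B, hBA, hPB, fun ω hω τ hτ => ?_⟩
  have h2 := hB ω hω τ hτ
  rwa [eval_qy hWJ hN.tri, ← hN.cls ω (hBA ω hω)] at h2

end Pool.PLA
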